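import Pool.Agent.P.MP_5fda20_pr.Up

/-! The upper bound, numerical part. -/

namespace Pool.Agent.P.MP_5fda20_pr

open Finset Real

noncomputable section

variable {n N L l m a : ℕ} {ω : Om n L} {u v x y : Fin n}

theorem av_ind_le_one [NeZero L] (P : Om n L → Prop) : av (fun ω => ind (P ω)) ≤ 1 :=
  av_le fun _ => ind_le_one _

theorem t1 (P : Par n N L l m) : av (fun ω : Om n L => ind (∃ a ∈ Icc m L, ∃ u ∈ univ, ∃ v ∈ univ,
    ∃ q ∈ I1 u v, Ev ω l a 0 u v q)) ≤ 1 / n ^ 6 := by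
  classical
  have := P.ne
  have n0 := P.n0
  have l9 := P.l9
  refine (av_exists_le _ _ fun a h => av_exists_le _ _ fun u _ => av_exists_le _ _ fun v _ =>
    (av_ev P (mem_Icc.1 h).2 (b := 2 * exp (-((l : ℝ) ^ 2 / 2000))) (by positivity)
      (fun q hq => (mem_filter.1 hq).2.1) fun q hq V v1 _ v2 => ?_).trans
      (mul_le_of_le_one_right (by positivity) (av_ind_le_one _))).trans ?_
  · have W0 : (0 : ℝ) < l ^ 12 / n ^ 2 := by positivity
    have V0 := W0.trans_le v1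
    rw [mul_assoc, ← exp_add]
    refine mul_le_mul_of_nonneg_left (exp_le_exp.2 (add_le_of_nonpos_of_le
      (mul_nonpos_of_nonneg_of_nonpos ?_ (sub_nonpos.2 (log_le_log W0 v1))) (neg_le_neg ?_))) two_pos.le
    · rw [sub_nonneg, mul_one_div, div_le_div_iff₀ (by linarith) two_pos]; linarith
    · calc _ ≤ (l : ℝ) ^ 2 / 32 := by gcongr; norm_num
        _ = 1 / 16 / (2 * (1 / l) ^ 2) := by field_simp; norm_num
        _ ≤ _ := by gcongr; exact (mem_filter.1 hq).2.2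
  rw [card_univ, Fintype.card_fin]
  calc _ ≤ 2 * (n : ℝ) ^ 10 * (n * (n * (2 * (1 / n ^ 20)))) := by gcongr; exacts [P.icc, P.tiny]
    _ = 4 / n ^ 2 * (1 / n ^ 6) := by field_simp; norm_num
    _ ≤ _ := mul_le_of_le_one_left (by positivity) ((div_le_one (by positivity)).2
      (by nlinarith [P.n9]))

theorem b2 (P : Par n N L l m) {V z : ℝ} (v1 : l ^ 12 / n ^ 2 ≤ V)
    (v2 : exp (-405) / 32 / (64 * l ^ 2 * (ep N m ^ 3 * n)) / 16 ≤ V) (v3 : V ≤ (1 / l) ^ 2)
    (hz : 0 ≤ z) : 2 * exp ((1 / 2 - 5 * (1 / l)) * (log (l ^ 12 / n ^ 2) - log V)) * exp (-z) ≤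
      1200 * l ^ 12 / n := by
  have n0 := P.n0
  have l9 := P.l9
  have l1 := P.l1
  have e0 := P.e0 le_rfl
  have W0 : (0 : ℝ) < l ^ 12 / n ^ 2 := by positivity
  have V0 := W0.trans_le v1
  have h1 : log V - log (l ^ 12 / n ^ 2) ≤ 2 * l := by
    rw [← log_div V0.ne' W0.ne', log_le_iff_le_exp (by positivity), two_mul, exp_add]
    calc _ ≤ (1 : ℝ) / (1 / n ^ 2) := by
          gcongr
          exacts [v3.trans (pow_le_one₀ (by positivity) ((div_le_one (by linarith)).2 l1)),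
            one_le_pow₀ l1]
      _ = n * n := by field_simp
      _ ≤ _ := by gcongr <;> exact P.ln
  have h2 : exp (1 / 2 * (log (l ^ 12 / n ^ 2) - log V)) ≤ l ^ 12 / (100 * n) := by
    refine (pow_le_pow_iff_left₀ (by positivity) (by positivity) two_ne_zero).1 ?_
    rw [← exp_nat_mul, ← mul_assoc, ← log_div W0.ne' V0.ne', show ((2 : ℕ) : ℝ) * (1 / 2) = 1 by norm_num,
      one_mul, exp_log (by positivity)]
    calc _ ≤ (l : ℝ) ^ 12 / n ^ 2 / (10 ^ 9 / l / (64 * l ^ 2 * (8 * l ^ 9)) / 16) := by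
          gcongr
          refine le_trans ?_ v2
          gcongr ?_ / (64 * _ * ?_) / 16
          exacts [(div_le_iff₀ (by linarith)).2 P.c3, P.e2]
      _ = 8192 / 10 ^ 5 * (l ^ 12 / (100 * n)) ^ 2 := by field_simp; norm_num
      _ ≤ _ := mul_le_of_le_one_left (by positivity) (by norm_num)
  have h3 : exp (5 * (1 / l) * (log V - log (l ^ 12 / n ^ 2))) ≤ 60000 := by
    calc _ ≤ exp (5 * (1 / l) * (2 * l)) := by gcongr
      _ = exp 1 ^ 10 := by rw [← exp_nat_mul]; congr 1; field_simp; norm_num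
      _ ≤ 3 ^ 10 := by gcongr; exact exp_one_lt_three.le
      _ ≤ _ := by norm_num
  calc _ = 2 * (exp (1 / 2 * (log (l ^ 12 / n ^ 2) - log V)) *
        exp (5 * (1 / l) * (log V - log (l ^ 12 / n ^ 2)))) * exp (-z) := by
        rw [← exp_add]; congr 3; ring
    _ ≤ 2 * (l ^ 12 / (100 * n) * 60000) * 1 := by gcongr; exact exp_le_one_iff.2 (by linarith)
    _ = _ := by field_simp; norm_num

theorem av_pair [NeZero L] (ha : a ≤ L) (k : ℝ) (u v : Fin n) :
    av (fun ω : Om n L => ind (∃ q ∈ I2 k u v, Ge ω q.1 q.1ᶜ a ∧ Sp ω a q.1 q.2 u v)) ≤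
      (a : ℝ) / L * av (fun ω : Om n L => ind (k ≤ (cp ω a u).card) * ind (k ≤ (cp ω a v).card)) := by
  classical
  let r : Om n L → Fin n → Finset (Fin n) := fun ω x =>
    reach (fun e => op ω a e ∧ e ≠ s(u, v)) univ {x}
  have hr : ∀ x, Dep {s(u, v)}ᶜ fun ω => ind (k ≤ (r ω x).card) := fun x ω ω' e =>
    congrArg (fun D : Finset (Fin n) => ind (k ≤ D.card)) (reach_congr fun _ _ _ _ =>
      and_congr_left fun h => by unfold op; rw [e _ h])
  rw [← av_op ha s(u, v)]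
  refine le_trans (av_mono fun ω => ?_) ((av_mul_of_dep (I := {s(u, v)})
    ((Dep.apply (Set.mem_singleton _)).comp fun t : Fin L => ind (t.val < a)) ((hr u).mul (hr v))
    disjoint_compl_right).trans_le (mul_le_mul_of_nonneg_left (av_mono fun ω => ?_)
      (av_nonneg fun _ => ind_nonneg _)))
  · rw [← ind_and, ← ind_and]
    refine ind_mono ?_
    rintro ⟨⟨R, S⟩, hq, h1, h2⟩
    obtain ⟨⟨i1, i2, i3, i4⟩, k1, k2⟩ := (mem_filter.1 hq).2
    have key : ∀ x ∈ R, (x ∈ S → x ∈ r ω u) ∧ (x ∉ S → x ∈ r ω v) := fun x hx =>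
      h2.ind h1 (i1 i2) (P := fun x => (x ∈ S → x ∈ r ω u) ∧ (x ∉ S → x ∈ r ω v))
        ⟨fun _ => self_mem_reach (mem_univ _), fun h => absurd i2 h⟩
        ⟨fun h => absurd h i4, fun _ => self_mem_reach (mem_univ _)⟩
        (fun x hx y hy h3 h4 h5 h6 => by
          rw [← h2.side h1 (i1 i2) hx hy h3 h5]
          exact ⟨fun h => reach_closed (h6.1 h) (mem_univ _) ⟨h4, h5⟩,
            fun h => reach_closed (h6.2 h) (mem_univ _) ⟨h4, h5⟩⟩) hx
    exact ⟨h2.2.1, k1.trans (Nat.cast_le.2 (card_le_card fun x hx => (key x (i1 hx)).1 hx)),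
      k2.trans (Nat.cast_le.2 (card_le_card fun x hx =>
        (key x (mem_sdiff.1 hx).1).2 (mem_sdiff.1 hx).2))⟩
  · have : ∀ x, ind (k ≤ (r ω x).card) ≤ ind (k ≤ (cp ω a x).card) := fun x => ind_mono fun h =>
      h.trans (Nat.cast_le.2 (card_le_card
        (reach_mono (fun _ _ _ _ h => h.1) Subset.rfl Subset.rfl)))
    exact mul_le_mul (this u) (this v) (ind_nonneg _) (ind_nonneg _)

theorem sum_big (P : Par n N L l m) (ω : Om n L) :
    (∑ u, ind ((l : ℝ) ^ 2 / ep N m ^ 2 ≤ (cp ω m u).card)) ^ 2 ≤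
      (8 * ep N m * n) ^ 2 + n ^ 2 * ind (¬ Good ω N l m) := by
  classical
  have e0 := P.e0 le_rfl
  rw [sum_ind_eq_card]
  by_cases G : Good ω N l m
  · rw [ind_of_not (not_not.2 G), mul_zero, add_zero]
    refine pow_le_pow_left₀ (by positivity) ?_ 2
    rcases (univ.filter fun u => (l : ℝ) ^ 2 / ep N m ^ 2 ≤ (cp ω m u).card).eq_empty_or_nonempty with
      h | ⟨u, hu⟩
    · rw [h, card_empty, Nat.cast_zero]; positivity
    · exact le_trans (Nat.cast_le.2 (card_le_card fun y hy =>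
        G.mem le_rfl P.mL (mem_filter.1 hu).2 (mem_filter.1 hy).2)) (G.hi le_rfl P.mL u)
  · rw [ind_of G, mul_one]
    exact le_add_of_nonneg_of_le (sq_nonneg _) (pow_le_pow_left₀ (by positivity)
      (by exact_mod_cast (card_le_univ _).trans_eq (Fintype.card_fin n)) 2)

theorem t2 (P : Par n N L l m) : av (fun ω : Om n L => ind (∃ u ∈ univ, ∃ v ∈ univ,
    ∃ q ∈ I2 (l ^ 2 / ep N m ^ 2) u v,
      Ev ω l m (exp (-405) / 32 / (64 * l ^ 2 * (ep N m ^ 3 * n))) u v q)) ≤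
      1200 * l ^ 12 / n * (2 / n * ((8 * ep N m * n) ^ 2 + n ^ 2 * (1 / n ^ 6))) := by
  classical
  have := P.ne
  have n0 := P.n0
  have l1 := P.l1
  have p1 : (m : ℝ) / L ≤ 2 / n := by
    rw [le_div_iff₀ n0, P.pn, ep_eq (by linarith [P.e20])]; linarith [P.e20]
  refine (av_mono fun ω => (ind_exists_le _ _).trans (sum_le_sum fun u _ => ind_exists_le _ _)).trans ?_
  simp only [av_sum]
  refine (sum_le_sum fun u _ => sum_le_sum fun v _ => (av_ev P P.mL (by positivity)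
    (fun q hq => (mem_filter.1 hq).2.1) fun q _ V v1 v2 v3 => b2 P v1 v2 v3 (by
      have : 0 < V := lt_of_lt_of_le (by positivity) v1
      positivity)).trans (mul_le_mul_of_nonneg_left (av_pair P.mL _ u v) (by positivity))).trans ?_
  simp only [← mul_sum, ← av_sum]
  gcongr
  · exact av_nonneg fun ω => sum_nonneg fun _ _ => mul_nonneg (ind_nonneg _)
      (sum_nonneg fun _ _ => ind_nonneg _)
  refine (av_mono fun ω => (le_of_eq (by rw [← sum_mul, ← sq])).trans (sum_big P ω)).trans ?_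
  rw [av_add, av_const, av_const_mul]
  gcongr
  exact av_not_good P

theorem upper (P : Par n N L l m) :
    av (fun ω : Om n L => ind (¬ Function.Injective ω ∨ Split ω)) ≤ 10 ^ 6 * l ^ 12 * ep N m ^ 2 := by
  have n0 := P.n0
  have e0 := P.e0 le_rfl
  refine (av_mono fun ω => ind_mono (Q := ¬ Function.Injective ω ∨ ¬ Good ω N l m ∨ _) fun h => by
    by_contra h1
    rw [not_or, not_or, not_not, not_not] at h1
    exact h1.2.2 (decomp P h1.1 h1.2.1 (h.resolve_left (not_not.2 h1.1)))).trans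
    ((av_or_le _ _).trans ((add_le_add (av_inj P) ((av_or_le _ _).trans (add_le_add (av_not_good P)
      ((av_or_le _ _).trans (add_le_add (t1 P) (t2 P)))))).trans ?_))
  have h1 : 1 / (n : ℝ) ^ 6 ≤ ep N m ^ 2 := by
    have h2 : (n : ℝ) ≤ n ^ 6 := le_self_pow₀ (by linarith [P.n9]) (by norm_num)
    have h3 : ep N m ^ 3 ≤ ep N m ^ 2 := pow_le_pow_of_le_one e0.le ep_le_one (by norm_num)
    rw [div_le_iff₀ (by positivity)]
    calc _ ≤ (l : ℝ) ^ 9 := one_le_pow₀ P.l1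
      _ ≤ _ := P.e1.trans (by gcongr)
  have h2 : (1 : ℝ) ≤ l ^ 12 := one_le_pow₀ P.l1
  have h3 : 1200 * (l : ℝ) ^ 12 / n * (2 / n * ((8 * ep N m * n) ^ 2 + n ^ 2 * (1 / n ^ 6))) =
      2400 * l ^ 12 * (64 * ep N m ^ 2 + 1 / n ^ 6) := by field_simp; ring
  rw [h3]
  nlinarith [mul_le_mul_of_nonneg_left h1 (show (0 : ℝ) ≤ l ^ 12 by positivity),
    mul_le_mul_of_nonneg_right h2 (sq_nonneg (ep N m))]

end

end Pool.Agent.P.MP_5fda20_pr
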