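import Pool.Agent.P.MP_5fda20_pr.Meas
import Pool.Agent.P.MP_5fda20_pr.Up2

/-! The choice of the parameters. -/

namespace Pool.Agent.P.MP_5fda20_pr

open Finset Real Filter

noncomputable section

theorem ceil_div {N : ℕ} {y : ℝ} (h : 1 ≤ y * N) :
    y ≤ (⌈y * N⌉₊ : ℝ) / N ∧ (⌈y * N⌉₊ : ℝ) / N ≤ 2 * y := by
  have hN : (0 : ℝ) < N := (Nat.cast_nonneg N).lt_of_ne fun e => by rw [← e] at h; linarith
  rw [le_div_iff₀ hN, div_le_iff₀ hN]
  exact ⟨Nat.le_ceil _, by linarith [Nat.ceil_lt_add_one (zero_le_one.trans h)]⟩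

theorem both {n l : ℕ} {x : ℝ} (x0 : 0 < x) (hx : x ^ 3 * n = 1) (l0 : exp 500 ≤ l)
    (ln : (n : ℝ) ≤ exp l) (nl : (l : ℝ) ^ 20 ≤ n) :
    exp (-(8 * 10 ^ 7)) / 10 ^ 4 * x ^ 2 ≤ 3 * pMST (⊤ : SimpleGraph (Fin n)) + 4 / n * x ^ 2 ∧
      pMST (⊤ : SimpleGraph (Fin n)) ≤ 4 * 10 ^ 6 * l ^ 18 * x ^ 2 := by
  have l1 : (500 : ℝ) ≤ l := by linarith [add_one_le_exp (500 : ℝ)]
  have l2 : (1 : ℝ) ≤ l := by linarith
  have n1 : (1 : ℝ) ≤ n := (one_le_pow₀ l2).trans nl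
  have x1 : x ≤ 1 := by
    by_contra h
    nlinarith [one_lt_pow₀ (not_le.1 h) three_ne_zero]
  have xn : 1 ≤ x ^ 2 * n := by
    rw [← hx]; gcongr ?_ * _; exact pow_le_pow_of_le_one x0.le x1 (by norm_num)
  have xN : 1 ≤ x * ((n ^ 9 : ℕ) : ℝ) := by
    rw [← hx, Nat.cast_pow]
    exact mul_le_mul (pow_le_of_le_one x0.le x1 three_ne_zero) (le_self_pow₀ n1 (by norm_num))
      (by positivity) x0.le
  have l3 : (100 : ℝ) ≤ l ^ 3 := le_trans (by linarith) (le_self_pow₀ l2 three_ne_zero)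
  have lx : (l : ℝ) ^ 3 * x ≤ 1 / 2 := by
    refine le_of_pow_le_pow_left₀ three_ne_zero (by norm_num) (le_of_mul_le_mul_right ?_
      (zero_lt_one.trans_le n1))
    have h1 : (8 : ℝ) ≤ l ^ 11 := le_trans (by linarith) (le_self_pow₀ l2 (by norm_num))
    calc ((l : ℝ) ^ 3 * x) ^ 3 * n = (1 / 2) ^ 3 * ((l : ℝ) ^ 9 * 8) := by
          linear_combination (l : ℝ) ^ 9 * hx
      _ ≤ (1 / 2) ^ 3 * ((l : ℝ) ^ 9 * l ^ 11) := by gcongr
      _ ≤ _ := by rw [← pow_add]; gcongr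
  obtain ⟨N, hN⟩ : ∃ N, N = n ^ 9 := ⟨_, rfl⟩
  rw [← hN] at xN
  have N0 : (0 : ℝ) < N := (Nat.cast_nonneg N).lt_of_ne fun e => by rw [← e] at xN; linarith
  obtain ⟨a1, a2⟩ := ceil_div (N := N) (y := l ^ 3 * x) (by nlinarith)
  obtain ⟨b1, b2⟩ := ceil_div (N := N) (y := 100 * x) (by nlinarith)
  have hjk : ⌈100 * x * N⌉₊ ≤ ⌈l ^ 3 * x * N⌉₊ := Nat.ceil_mono (by gcongr)
  generalize ⌈100 * x * N⌉₊ = j at *
  generalize ⌈l ^ 3 * x * N⌉₊ = k at *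
  have he : ep N (N + k) = k / N := by
    rw [ep, Nat.cast_add, add_div, div_self N0.ne', add_sub_cancel_left, min_eq_left (by linarith)]
  have P : Par n N (n * N) l (N + k) := by
    refine ⟨rfl, hN, l0, ln, nl, ?_, ?_⟩ <;> rw [he]
    · calc (l : ℝ) ^ 9 = (l ^ 3 * x) ^ 3 * n := by linear_combination (-(l : ℝ) ^ 9) * hx
        _ ≤ _ := by gcongr
    · calc _ ≤ (2 * (l ^ 3 * x)) ^ 3 * (n : ℝ) := by gcongr
        _ = _ := by linear_combination (8 * (l : ℝ) ^ 9) * hx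
  have := P.ne
  constructor
  · have h1 := lower P (j := j) (by omega) (by
      calc (10 : ℝ) ^ 6 = (100 * x) ^ 3 * n := by linear_combination (-10 ^ 6) * hx
        _ ≤ _ := by gcongr)
    have h2 := le_pMST (n := n) (L := n * N)
    have h3 : 4 / (n : ℝ) ^ 4 ≤ 4 / n * x ^ 2 := by
      rw [div_mul_eq_mul_div, div_le_div_iff₀ (by positivity) (by positivity)]
      have : (n : ℝ) ^ 2 ≤ n ^ 4 := pow_le_pow_right₀ n1 (by norm_num)
      nlinarith [mul_le_mul_of_nonneg_left this (sq_nonneg x)]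
    refine le_trans ?_ (h1.trans (by linarith))
    have j0 : 0 < (j : ℝ) / N := by linarith
    calc _ = exp (-(10 * ((2 * (100 * x)) ^ 3 * n))) / (50 * (2 * (100 * x) * n)) := by
          rw [eq_div_iff (by positivity), show 10 * ((2 * (100 * x)) ^ 3 * n) = 8 * 10 ^ 7 by
            linear_combination (8 * 10 ^ 7) * hx]
          linear_combination exp (-(8 * 10 ^ 7)) * hx
      _ ≤ _ := by gcongr
  · refine (pMST_le (L := n * N)).trans ((upper P).trans ?_)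
    rw [he]
    calc _ ≤ 10 ^ 6 * (l : ℝ) ^ 12 * (2 * (l ^ 3 * x)) ^ 2 := by gcongr
      _ = _ := by ring

theorem main : ∃ c : ℝ, 0 < c ∧ ∀ᶠ n : ℕ in atTop,
    c * (n : ℝ) ^ (-2 / 3 : ℝ) ≤ pMST (⊤ : SimpleGraph (Fin n)) ∧
      pMST (⊤ : SimpleGraph (Fin n)) ≤ (n : ℝ) ^ (-2 / 3 : ℝ) * log n ^ 19 := by
  obtain ⟨c, c0, hc⟩ : ∃ c : ℝ, 0 < c ∧ c = exp (-(8 * 10 ^ 7)) / 10 ^ 4 := ⟨_, by positivity, rfl⟩
  refine ⟨c / 6, by positivity, ?_⟩
  have t := tendsto_natCast_atTop_atTop (R := ℝ)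
  filter_upwards [(tendsto_log_atTop.comp t).eventually_ge_atTop (max (exp 500) (4 * 10 ^ 6 * 2 ^ 18)),
    t.eventually ((isLittleO_pow_log_id_atTop (n := 20)).bound (c := 1 / 2 ^ 20) (by positivity)),
    t.eventually_ge_atTop (8 / c), t.eventually_gt_atTop 0] with n h1 h2 h3 n0
  simp only [Function.comp, max_le_iff] at h1
  have l1 : (1 : ℝ) ≤ log n := le_trans (by norm_num) h1.2
  have l2 : (⌈log n⌉₊ : ℝ) ≤ 2 * log n := by linarith [Nat.ceil_lt_add_one (zero_le_one.trans l1)]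
  rw [id, norm_of_nonneg (by positivity), norm_of_nonneg n0.le] at h2
  have hx : ((n : ℝ) ^ (-1 / 3 : ℝ)) ^ 2 = n ^ (-2 / 3 : ℝ) := by
    rw [← rpow_natCast, ← rpow_mul n0.le]; norm_num
  obtain ⟨h4, h5⟩ := both (n := n) (l := ⌈log n⌉₊) (rpow_pos_of_pos n0 (-1 / 3))
    (by rw [← rpow_natCast, ← rpow_mul n0.le, ← rpow_add_one n0.ne']; norm_num)
    (h1.1.trans (Nat.le_ceil _)) ((log_le_iff_le_exp n0).1 (Nat.le_ceil _))
    (calc _ ≤ (2 * log n) ^ 20 := by gcongr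
      _ = 2 ^ 20 * log n ^ 20 := mul_pow _ _ _
      _ ≤ _ := by linarith)
  rw [hx, ← hc] at h4
  rw [hx] at h5
  have y0 := rpow_pos_of_pos n0 (-2 / 3)
  generalize (n : ℝ) ^ (-2 / 3 : ℝ) = y at *
  constructor
  · have : 4 / (n : ℝ) ≤ c / 2 := by
      rw [div_le_iff₀ c0] at h3
      rw [div_le_iff₀ n0]; linarith
    nlinarith
  · calc _ ≤ 4 * 10 ^ 6 * (2 * log n) ^ 18 * y := h5.trans (by gcongr)
      _ = y * (4 * 10 ^ 6 * 2 ^ 18 * log n ^ 18) := by ring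
      _ ≤ y * (log n * log n ^ 18) := by gcongr; exact h1.2
      _ = _ := by ring

end

end Pool.Agent.P.MP_5fda20_pr
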