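import Mathlib

/-! Averages over finite product spaces. -/

namespace Pool.Agent.P.MP_5fda20_pr

open Finset

noncomputable section

open Classical in
/-- Indicator of a proposition. -/
def ind (P : Prop) : ℝ := if P then 1 else 0

theorem ind_of {P : Prop} (h : P) : ind P = 1 := by simp [ind, h]

theorem ind_of_not {P : Prop} (h : ¬ P) : ind P = 0 := by simp [ind, h]

theorem ind_nonneg (P : Prop) : 0 ≤ ind P := by unfold ind; split_ifs <;> norm_num

theorem ind_le_one (P : Prop) : ind P ≤ 1 := by unfold ind; split_ifs <;> norm_num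

theorem ind_and (P Q : Prop) : ind (P ∧ Q) = ind P * ind Q := by
  by_cases hP : P <;> by_cases hQ : Q <;> simp [ind, hP, hQ]

theorem ind_not (P : Prop) : ind (¬ P) = 1 - ind P := by
  by_cases hP : P <;> simp [ind, hP]

theorem ind_congr {P Q : Prop} (h : P ↔ Q) : ind P = ind Q := by rw [propext h]

theorem ind_mono {P Q : Prop} (h : P → Q) : ind P ≤ ind Q := by
  by_cases hP : P
  · rw [ind_of hP, ind_of (h hP)]
  · rw [ind_of_not hP]; exact ind_nonneg _

theorem ind_or_le (P Q : Prop) : ind (P ∨ Q) ≤ ind P + ind Q := by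
  by_cases hP : P <;> by_cases hQ : Q <;> simp [ind, hP, hQ]

theorem ind_le {P : Prop} {x : ℝ} (h0 : 0 ≤ x) (h : P → 1 ≤ x) : ind P ≤ x := by
  by_cases hP : P
  · rw [ind_of hP]; exact h hP
  · rw [ind_of_not hP]; exact h0

theorem ind_mul_le {P : Prop} {x y : ℝ} (h0 : 0 ≤ y) (h : P → x ≤ y) : ind P * x ≤ y := by
  by_cases hP : P
  · rw [ind_of hP, one_mul]; exact h hP
  · rw [ind_of_not hP, zero_mul]; exact h0

theorem ind_mul_mono {P : Prop} {x y : ℝ} (h : P → x ≤ y) : ind P * x ≤ ind P * y := by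
  by_cases hP : P
  · rw [ind_of hP, one_mul, one_mul]; exact h hP
  · rw [ind_of_not hP, zero_mul, zero_mul]

theorem ind_mul_congr {P : Prop} {x y : ℝ} (h : P → x = y) : ind P * x = ind P * y :=
  le_antisymm (ind_mul_mono fun hP => (h hP).le) (ind_mul_mono fun hP => (h hP).ge)

theorem ind_exists_le {κ : Type*} (s : Finset κ) (P : κ → Prop) :
    ind (∃ k ∈ s, P k) ≤ ∑ k ∈ s, ind (P k) := by
  refine ind_le (sum_nonneg fun _ _ => ind_nonneg _) ?_
  rintro ⟨k, hk, h⟩
  rw [← ind_of h]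
  exact single_le_sum (f := fun k => ind (P k)) (fun _ _ => ind_nonneg _) hk

theorem ind_forall {κ : Type*} (s : Finset κ) (P : κ → Prop) :
    ind (∀ k ∈ s, P k) = ∏ k ∈ s, ind (P k) := by
  by_cases h : ∀ k ∈ s, P k
  · rw [ind_of h, prod_eq_one fun k hk => ind_of (h k hk)]
  · rw [ind_of_not h]
    push Not at h
    obtain ⟨k, hk, h⟩ := h
    exact (prod_eq_zero hk (ind_of_not h)).symm

theorem sum_ind_eq {κ : Type*} (s : Finset κ) {a : κ} (ha : a ∈ s) (f : κ → ℝ) :
    ∑ k ∈ s, ind (a = k) * f k = f a := by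
  rw [sum_eq_single_of_mem a ha, ind_of rfl, one_mul]
  intro b _ hb
  rw [ind_of_not (Ne.symm hb), zero_mul]

theorem sum_ind_le_one {κ : Type*} (s : Finset κ) (P : κ → Prop)
    (h : ∀ a ∈ s, ∀ b ∈ s, P a → P b → a = b) : ∑ k ∈ s, ind (P k) ≤ 1 := by
  by_cases h1 : ∃ a ∈ s, P a
  · obtain ⟨a, ha, hP⟩ := h1
    rw [sum_eq_single_of_mem a ha fun b hb hne => ind_of_not fun hb' => hne (h b hb a ha hb' hP)]
    exact ind_le_one _
  · rw [sum_eq_zero fun b hb => ind_of_not fun hb' => h1 ⟨b, hb, hb'⟩]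
    exact zero_le_one

theorem sum_ind_eq_card {κ : Type*} (s : Finset κ) (P : κ → Prop) [DecidablePred P] :
    ∑ k ∈ s, ind (P k) = (s.filter P).card := by
  rw [card_filter]
  push_cast
  exact sum_congr rfl fun k _ => by by_cases h : P k <;> simp [ind, h]

section av

variable {Ω : Type} [Fintype Ω]

/-- Average. -/
def av (f : Ω → ℝ) : ℝ := (∑ ω, f ω) / Fintype.card Ω

theorem av_mono {f g : Ω → ℝ} (h : ∀ ω, f ω ≤ g ω) : av f ≤ av g :=
  div_le_div_of_nonneg_right (sum_le_sum fun ω _ => h ω) (Nat.cast_nonneg _)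

theorem av_congr {f g : Ω → ℝ} (h : ∀ ω, f ω = g ω) : av f = av g := by rw [funext h]

theorem av_zero : av (fun _ : Ω => (0 : ℝ)) = 0 := by simp [av]

theorem av_nonneg {f : Ω → ℝ} (h : ∀ ω, 0 ≤ f ω) : 0 ≤ av f := av_zero.ge.trans (av_mono h)

theorem av_add (f g : Ω → ℝ) : av (fun ω => f ω + g ω) = av f + av g := by
  simp only [av, sum_add_distrib, add_div]

theorem av_sub (f g : Ω → ℝ) : av (fun ω => f ω - g ω) = av f - av g := by
  simp only [av, sum_sub_distrib, sub_div]

theorem av_neg (f : Ω → ℝ) : av (fun ω => -f ω) = -av f := by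
  simp only [av, sum_neg_distrib, neg_div]

theorem av_const_mul (c : ℝ) (f : Ω → ℝ) : av (fun ω => c * f ω) = c * av f := by
  simp only [av, ← mul_sum, mul_div_assoc]

theorem av_mul_const (f : Ω → ℝ) (c : ℝ) : av (fun ω => f ω * c) = av f * c := by
  simp only [mul_comm _ c, av_const_mul]

theorem av_sum {κ : Type*} (s : Finset κ) (f : κ → Ω → ℝ) :
    av (fun ω => ∑ k ∈ s, f k ω) = ∑ k ∈ s, av (f k) := by
  simp only [av, sum_div]
  rw [← sum_comm]

theorem av_const [Nonempty Ω] (c : ℝ) : av (fun _ : Ω => c) = c := by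
  have : (Fintype.card Ω : ℝ) ≠ 0 := Nat.cast_ne_zero.2 Fintype.card_ne_zero
  simp [av, mul_div_cancel_left₀ _ this]

theorem av_le [Nonempty Ω] {f : Ω → ℝ} {c : ℝ} (h : ∀ ω, f ω ≤ c) : av f ≤ c :=
  (av_mono h).trans_eq (av_const c)

theorem av_equiv (e : Ω ≃ Ω) (f : Ω → ℝ) : av (fun ω => f (e ω)) = av f := by
  simp only [av, e.sum_comp]

theorem av_exists_le {κ : Type*} (s : Finset κ) (P : κ → Ω → Prop) {c : ℝ}
    (h : ∀ k ∈ s, av (fun ω => ind (P k ω)) ≤ c) :
    av (fun ω => ind (∃ k ∈ s, P k ω)) ≤ s.card * c := by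
  refine (av_mono fun ω => ind_exists_le s fun k => P k ω).trans ?_
  rw [av_sum, ← nsmul_eq_mul]
  exact sum_le_card_nsmul _ _ _ h

theorem av_or_le (P Q : Ω → Prop) :
    av (fun ω => ind (P ω ∨ Q ω)) ≤ av (fun ω => ind (P ω)) + av (fun ω => ind (Q ω)) := by
  rw [← av_add]; exact av_mono fun ω => ind_or_le _ _

end av

section dep

variable {ι X : Type}

/-- `f` only depends on the coordinates in `I`. -/
def Dep {α : Sort*} (I : Set ι) (f : (ι → X) → α) : Prop :=
  ∀ ω ω', (∀ i ∈ I, ω i = ω' i) → f ω = f ω'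

theorem Dep.mono {α : Sort*} {I J : Set ι} {f : (ι → X) → α} (h : Dep I f) (hJ : I ⊆ J) :
    Dep J f := fun ω ω' e => h ω ω' fun i hi => e i (hJ hi)

theorem Dep.const {α : Sort*} (I : Set ι) (c : α) : Dep I fun _ : ι → X => c := fun _ _ _ => rfl

theorem Dep.comp {α β : Sort*} {I : Set ι} {f : (ι → X) → α} (h : Dep I f) (g : α → β) :
    Dep I fun ω => g (f ω) := fun ω ω' e => congrArg g (h ω ω' e)

theorem Dep.comp₂ {α β γ : Sort*} {I : Set ι} {f : (ι → X) → α} {f' : (ι → X) → β} (h : Dep I f)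
    (h' : Dep I f') (g : α → β → γ) : Dep I fun ω => g (f ω) (f' ω) := fun ω ω' e =>
  congrArg₂ g (h ω ω' e) (h' ω ω' e)

theorem Dep.mul {I : Set ι} {f g : (ι → X) → ℝ} (h : Dep I f) (h' : Dep I g) :
    Dep I fun ω => f ω * g ω := h.comp₂ h' (· * ·)

theorem Dep.and {I : Set ι} {f g : (ι → X) → Prop} (h : Dep I f) (h' : Dep I g) :
    Dep I fun ω => f ω ∧ g ω := h.comp₂ h' (· ∧ ·)

theorem Dep.ind {I : Set ι} {f : (ι → X) → Prop} (h : Dep I f) : Dep I fun ω => ind (f ω) :=
  h.comp _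

theorem Dep.apply {I : Set ι} {i : ι} (hi : i ∈ I) : Dep I fun ω : ι → X => ω i :=
  fun _ _ e => e i hi

theorem Dep.all {κ : Sort*} {I : Set ι} {f : κ → (ι → X) → Prop} (h : ∀ k, Dep I (f k)) :
    Dep I fun ω => ∀ k, f k ω := fun ω ω' e => by
  simp only [fun k => h k ω ω' e]

theorem Dep.ex {κ : Sort*} {I : Set ι} {f : κ → (ι → X) → Prop} (h : ∀ k, Dep I (f k)) :
    Dep I fun ω => ∃ k, f k ω := fun ω ω' e => by
  simp only [fun k => h k ω ω' e]

theorem Dep.sum {κ : Type*} {I : Set ι} (s : Finset κ) {f : κ → (ι → X) → ℝ}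
    (h : ∀ k ∈ s, Dep I (f k)) : Dep I fun ω => ∑ k ∈ s, f k ω := fun ω ω' e =>
  sum_congr rfl fun k hk => h k hk ω ω' e

variable [Fintype ι] [DecidableEq ι] [Fintype X]

theorem av_mul_of_dep [Nonempty X] {I J : Set ι} {f g : (ι → X) → ℝ} (hf : Dep I f) (hg : Dep J g)
    (h : Disjoint I J) : av (fun ω => f ω * g ω) = av f * av g := by
  classical
  let m : (ι → X) → (ι → X) → ι → X := fun a b i => if i ∈ I then a i else b i
  have hm : ∀ a b, m (m a b) (m b a) = a := fun a b => funext fun i => by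
    by_cases hi : i ∈ I <;> simp [m, hi]
  let e : (ι → X) × (ι → X) ≃ (ι → X) × (ι → X) :=
    ⟨fun p => (m p.1 p.2, m p.2 p.1), fun p => (m p.1 p.2, m p.2 p.1),
      fun p => Prod.ext (hm _ _) (hm _ _), fun p => Prod.ext (hm _ _) (hm _ _)⟩
  have h1 : ∀ p : (ι → X) × (ι → X), f p.1 * g p.2 = f (e p).1 * g (e p).1 := fun p => by
    congr 1
    · exact hf _ _ fun i hi => by simp [e, m, hi]
    · exact hg _ _ fun i hi => by
        have : i ∉ I := fun hi' => Set.disjoint_left.1 h hi' hi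
        simp [e, m, this]
  have h2 : (∑ a, f a) * ∑ b, g b = (∑ a, f a * g a) * Fintype.card (ι → X) := by
    rw [sum_mul_sum, ← sum_product', univ_product_univ, sum_congr rfl fun p _ => h1 p,
      e.sum_comp fun p => f p.1 * g p.1, ← univ_product_univ, sum_product, sum_mul]
    simp [mul_comm]
  have h3 : (Fintype.card (ι → X) : ℝ) ≠ 0 := Nat.cast_ne_zero.2 Fintype.card_ne_zero
  simp only [av]
  rw [div_mul_div_comm, h2]
  field_simp

theorem av_prod_of_dep [Nonempty X] {κ : Type*} (s : Finset κ) (I : κ → Set ι)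
    {f : κ → (ι → X) → ℝ} (hf : ∀ k ∈ s, Dep (I k) (f k))
    (h : ∀ k ∈ s, ∀ l ∈ s, k ≠ l → Disjoint (I k) (I l)) :
    av (fun ω => ∏ k ∈ s, f k ω) = ∏ k ∈ s, av (f k) := by
  classical
  induction s using Finset.induction_on with
  | empty => simpa using av_const 1
  | insert a s ha ih =>
    simp only [prod_insert ha]
    rw [← ih (fun k hk => hf k (mem_insert_of_mem hk))
      fun k hk l hl => h k (mem_insert_of_mem hk) l (mem_insert_of_mem hl)]
    refine av_mul_of_dep (J := ⋃ k ∈ s, I k) (hf a (mem_insert_self _ _)) (fun ω ω' e =>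
      prod_congr rfl fun k hk => hf k (mem_insert_of_mem hk) ω ω' fun i hi =>
        e i (Set.mem_biUnion hk hi)) ?_
    simp only [Set.disjoint_iUnion_right]
    exact fun k hk => h a (mem_insert_self _ _) k (mem_insert_of_mem hk) fun e => ha (e ▸ hk)

theorem av_apply [Nonempty X] (i : ι) (φ : X → ℝ) : av (fun ω : ι → X => φ (ω i)) = av φ := by
  have h3 : (Fintype.card X : ℝ) ≠ 0 := Nat.cast_ne_zero.2 Fintype.card_ne_zero
  have h4 : (Fintype.card ({j // j ≠ i} → X) : ℝ) ≠ 0 := Nat.cast_ne_zero.2 Fintype.card_ne_zero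
  have e := Equiv.funSplitAt i X
  simp only [av]
  rw [← (Equiv.funSplitAt i X).symm.sum_comp, Fintype.card_congr (Equiv.funSplitAt i X),
    Fintype.card_prod, Fintype.sum_prod_type]
  simp only [Equiv.funSplitAt_symm_apply, dite_true, sum_const, card_univ, nsmul_eq_mul,
    ← mul_sum, Nat.cast_mul]
  field_simp

theorem av_perm (π : Equiv.Perm ι) (f : (ι → X) → ℝ) : av (fun ω => f (ω ∘ π)) = av f :=
  av_equiv (π.symm.arrowCongr (Equiv.refl X)) f

theorem av_not_inj [Nonempty X] : av (fun ω : ι → X => ind (¬ Function.Injective ω)) ≤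
    (Fintype.card ι : ℝ) ^ 2 / Fintype.card X := by
  classical
  have h1 : ∀ p ∈ (univ : Finset (ι × ι)),
      av (fun ω : ι → X => ind (p.1 ≠ p.2 ∧ ω p.1 = ω p.2)) ≤ 1 / Fintype.card X := by
    rintro ⟨i, j⟩ -
    by_cases hij : i = j
    · refine av_le fun ω => ?_
      rw [ind_of_not fun h => h.1 hij]; positivity
    have h2 : ∀ x : X, av (fun y => ind (y = x)) = 1 / Fintype.card X := fun x => by
      simp [av, ind]
    calc _ ≤ av (fun ω : ι → X => ∑ x, ind (ω i = x) * ind (ω j = x)) := av_mono fun ω => by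
          rw [sum_ind_eq univ (mem_univ _)]; exact ind_mono fun h => h.2.symm
      _ = ∑ x : X, 1 / (Fintype.card X : ℝ) * (1 / Fintype.card X) := by
          rw [av_sum]
          refine sum_congr rfl fun x _ => ?_
          rw [av_mul_of_dep (I := {i}) (J := {j}) (f := fun ω => ind (ω i = x))
            (g := fun ω => ind (ω j = x))
            ((Dep.apply (Set.mem_singleton i)).comp fun y => ind (y = x))
            ((Dep.apply (Set.mem_singleton j)).comp fun y => ind (y = x)) (by simpa using hij),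
            av_apply i fun y => ind (y = x), av_apply j fun y => ind (y = x), h2]
      _ = _ := by
          have h3 : (Fintype.card X : ℝ) ≠ 0 := Nat.cast_ne_zero.2 Fintype.card_ne_zero
          simp only [sum_const, card_univ, nsmul_eq_mul]
          field_simp
  refine le_trans (av_mono fun ω => ind_mono fun h => ?_) ((av_exists_le _ _ h1).trans_eq ?_)
  · simp only [Function.Injective, not_forall] at h
    obtain ⟨i, j, h1, h2⟩ := h
    exact ⟨(i, j), mem_univ _, h2, h1⟩
  · simp only [card_univ, Fintype.card_prod, Nat.cast_mul]; ring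

end dep

end

end Pool.Agent.P.MP_5fda20_pr
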