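import Pool.Agent.P.MP_5fda20_pr.Good

/-! The good event. -/

namespace Pool.Agent.P.MP_5fda20_pr

open Finset Real

noncomputable section

/-- The distance from the critical level, cut at one. -/
def ep (N ℓ : ℕ) : ℝ := min ((ℓ : ℝ) / N - 1) 1

/-- The parameters. -/
structure Par (n N L l m : ℕ) : Prop where
  hL : L = n * N
  hN : N = n ^ 9
  l0 : exp 500 ≤ l
  ln : (n : ℝ) ≤ exp l
  nl : (l : ℝ) ^ 20 ≤ n
  e1 : (l : ℝ) ^ 9 ≤ ep N m ^ 3 * n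
  e2 : ep N m ^ 3 * n ≤ 8 * l ^ 9

variable {n N L l m ℓ i : ℕ} {ω : Om n L} {u y : Fin n}

theorem ep_le_one : ep N ℓ ≤ 1 := min_le_right _ _

theorem ep_le : 1 + ep N ℓ ≤ (ℓ : ℝ) / N := by linarith [min_le_left ((ℓ : ℝ) / N - 1) 1, ep.eq_1 N ℓ]

theorem ep_mono (h : ℓ ≤ i) : ep N ℓ ≤ ep N i := by unfold ep; gcongr

theorem ep_eq (h : ep N ℓ < 1) : (ℓ : ℝ) / N = 1 + ep N ℓ := by
  rw [ep, min_eq_left ((min_lt_iff.1 h).resolve_right (lt_irrefl _)).le]; ring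

theorem big_l (h : exp 500 ≤ l) : (10 : ℝ) ^ 9 ≤ l := by
  refine le_trans ?_ h
  have := exp_le_pow (x := exp 10) (y := 10) le_rfl 50
  calc (10 : ℝ) ^ 9 ≤ 10 ^ 50 := by norm_num
    _ ≤ exp 10 ^ 50 := by gcongr; linarith [add_one_le_exp 10]
    _ = _ := by rw [← exp_nat_mul]; norm_num

namespace Par

variable (P : Par n N L l m)
include P

theorem l9 : (10 : ℝ) ^ 9 ≤ l := big_l P.l0

theorem l1 : (1 : ℝ) ≤ l := le_trans (by norm_num) P.l9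

theorem pow_le {a : ℕ} (h : a ≤ 20) : (l : ℝ) ^ a ≤ n := (pow_le_pow_right₀ P.l1 h).trans P.nl

theorem n9 : (10 : ℝ) ^ 9 ≤ n := P.l9.trans (by simpa using P.pow_le (a := 1))

theorem n0 : (0 : ℝ) < n := lt_of_lt_of_le (by norm_num) P.n9

theorem N0 : (0 : ℝ) < N := by rw [P.hN]; push_cast; exact pow_pos P.n0 9

theorem ne : NeZero L := ⟨by
  rw [P.hL]; exact mul_ne_zero (Nat.cast_pos.1 P.n0).ne' (Nat.cast_pos.1 P.N0).ne'⟩

theorem pn (ℓ : ℕ) : (ℓ : ℝ) / L * n = ℓ / N := by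
  rw [P.hL]; push_cast; field_simp [P.n0.ne', P.N0.ne']

theorem e0 (h : m ≤ ℓ) : 0 < ep N ℓ := by
  refine lt_of_lt_of_le ?_ (ep_mono h)
  have : 0 < ep N m ^ 3 := (mul_pos_iff_of_pos_right P.n0).1
    ((pow_pos (lt_of_lt_of_le one_pos P.l1) 9).trans_le P.e1)
  exact (Odd.pow_pos_iff (by decide)).1 this

theorem e3 (h : m ≤ ℓ) : (l : ℝ) ^ 9 ≤ ep N ℓ ^ 3 * n :=
  P.e1.trans (by gcongr; exacts [(P.e0 le_rfl).le, ep_mono h])

theorem tiny : exp (-((l : ℝ) ^ 2 / 2000)) ≤ 1 / n ^ 20 := by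
  rw [exp_neg, one_div]
  refine inv_anti₀ (pow_pos P.n0 _) ((pow_le_pow_left₀ P.n0.le P.ln 20).trans ?_)
  rw [← exp_nat_mul]
  exact exp_le_exp.2 (by push_cast; nlinarith [P.l9])

theorem c3 : 10 ^ 9 ≤ exp (-405) / 32 * l := by
  have h1 : exp (-405) * exp 500 = exp 5 ^ 19 := by rw [← exp_add, ← exp_nat_mul]; norm_num
  have h2 : (6 : ℝ) ^ 19 ≤ exp 5 ^ 19 := by gcongr; linarith [add_one_le_exp 5]
  nlinarith [mul_le_mul_of_nonneg_left P.l0 (exp_pos (-405)).le]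

theorem icc : ((Icc m L).card : ℝ) ≤ 2 * n ^ 10 := by
  have : (Icc m L).card ≤ L + 1 := by rw [Nat.card_Icc]; omega
  have h2 : ((Icc m L).card : ℝ) ≤ n * n ^ 9 + 1 := by
    rw [P.hL, P.hN] at this ⊢; exact_mod_cast this
  linarith [one_le_pow₀ (show (1 : ℝ) ≤ n by linarith [P.n9]) (n := 10)]

end Par

/-- The bad events at one level. -/
def BadAt (ω : Om n L) (N l ℓ : ℕ) (u y : Fin n) : Prop :=
  (ep N ℓ < 1 ∧ 5 / 4 * ep N ℓ * n ≤ (cp ω ℓ u).card * (1 + ep N ℓ) ∧ y ∉ cp ω ℓ u ∧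
    (l : ℝ) ^ 2 / ep N ℓ ^ 2 ≤ (cp ω ℓ y).card) ∨
  ((l : ℝ) ^ 2 / ep N ℓ ^ 2 ≤ (cp ω ℓ u).card ∧
    (cp ω ℓ u).card * (1 + ep N ℓ) ≤ 5 / 4 * ep N ℓ * n) ∨
  (ep N ℓ ≤ 1 / 8 ∧ 8 * ep N ℓ * n ≤ (cp ω ℓ u).card) ∨
  (ep N ℓ ≤ 1 / 20 ∧ 5 / 4 * ep N ℓ * n ≤ (cp ω ℓ u).card * (1 + ep N ℓ) ∧
    ((cp ω ℓ u).card : ℝ) ≤ 8 * ep N ℓ * n ∧
    big ω ℓ (1 / ep N ℓ ^ 2) (univ \ cp ω ℓ u) ≤ exp (-405) / 32 * ep N ℓ * n)

/-- The good event. -/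
def Good (ω : Om n L) (N l m : ℕ) : Prop := ¬ ∃ ℓ ∈ Icc m L, ∃ u ∈ univ, ∃ y ∈ univ, BadAt ω N l ℓ u y

theorem av_and_le {Ω : Type} [Fintype Ω] {p : Prop} {Q : Ω → Prop} {c : ℝ} (h0 : 0 ≤ c)
    (h : p → av (fun w => ind (Q w)) ≤ c) : av (fun w => ind (p ∧ Q w)) ≤ c := by
  by_cases hp : p
  · simpa only [hp, true_and] using h hp
  · simpa only [hp, false_and, ind_of_not not_false, av_zero] using h0

theorem av_badAt (P : Par n N L l m) (h : ℓ ∈ Icc m L) (u y : Fin n) :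
    av (fun ω : Om n L => ind (BadAt ω N l ℓ u y)) ≤ 5 * n * exp (-((l : ℝ) ^ 2 / 2000)) := by
  have := P.ne
  obtain ⟨h1, h2⟩ := mem_Icc.1 h
  have e0 := P.e0 h1
  have e3 := P.e3 h1
  have l9 := P.l9
  have l2 : (l : ℝ) ^ 2 * l ≤ l ^ 9 := by rw [← pow_succ]; exact pow_le_pow_right₀ P.l1 (by norm_num)
  have l3 : 10 ^ 9 ≤ (l : ℝ) ^ 2 := by nlinarith
  have n9 := P.n9
  have e4 : ep N ℓ ^ 3 * n ≤ ep N ℓ ^ 2 * n := by
    gcongr ?_ * _; exact pow_le_pow_of_le_one e0.le ep_le_one (by norm_num)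
  set δ := exp (-((l : ℝ) ^ 2 / 2000))
  have d0 : 0 < δ := exp_pos _
  have d1 : δ ≤ n * δ := by nlinarith
  refine (av_or_le _ _).trans ((add_le_add (av_and_le (c := 2 * δ) (by positivity) fun h3 =>
    (av_E1 h2 u y e0 ep_le_one ((P.pn ℓ).trans (ep_eq h3)) _).trans ?_) ((av_or_le _ _).trans
      (add_le_add ((av_E2 h2 u e0 ep_le_one (ep_le.trans_eq (P.pn ℓ).symm) _).trans
        (show _ ≤ n * δ from ?_)) ((av_or_le _ _).trans (add_le_add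
          (av_and_le (c := n * δ) (by positivity) fun h3 =>
            (av_E3 h2 u e0 h3 ((P.pn ℓ).trans (ep_eq (by linarith))) (by nlinarith)).trans ?_)
          (av_and_le d0.le fun h3 =>
            (av_E4 h2 u e0 h3 ((P.pn ℓ).trans (ep_eq (by linarith))) (by nlinarith)).trans ?_)))))).trans
      (by linarith))
  · exact mul_le_mul_of_nonneg_left (exp_le_exp.2 (by linarith)) (by norm_num)
  · exact mul_le_mul_of_nonneg_left (exp_le_exp.2 (by linarith)) P.n0.le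
  · exact mul_le_mul_of_nonneg_left (exp_le_exp.2 (by nlinarith)) P.n0.le
  · have := mul_le_mul_of_nonneg_left (l2.trans e3) (show 0 ≤ exp (-405) / 32 by positivity)
    exact exp_le_exp.2 (by nlinarith [P.c3])

theorem av_not_good (P : Par n N L l m) :
    av (fun ω : Om n L => ind (¬ Good ω N l m)) ≤ 1 / n ^ 6 := by
  simp only [Good, not_not]
  refine (av_exists_le _ _ fun ℓ h => av_exists_le _ _ fun u _ => av_exists_le _ _ fun y _ =>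
    av_badAt P h u y).trans ?_
  have h1 := P.icc
  have n0 := P.n0
  rw [card_univ, Fintype.card_fin]
  calc _ ≤ 2 * (n : ℝ) ^ 10 * (n * (n * (5 * n * (1 / n ^ 20)))) := by gcongr; exact P.tiny
    _ = 10 / n * (1 / n ^ 6) := by field_simp; norm_num
    _ ≤ _ := mul_le_of_le_one_left (by positivity) ((div_le_one n0).2 (by linarith [P.n9]))

theorem av_inj (P : Par n N L l m) :
    av (fun ω : Om n L => ind (¬ Function.Injective ω)) ≤ 1 / n ^ 6 := by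
  have := P.ne
  refine av_not_inj.trans ?_
  have n0 := P.n0
  have h1 : (Fintype.card (Sym2 (Fin n)) : ℝ) ≤ n ^ 2 := by
    have := Fintype.card_le_of_surjective _ (Sym2.mk_surjective (α := Fin n))
    simp only [Fintype.card_prod, Fintype.card_fin] at this
    rw [sq]; exact_mod_cast this
  rw [Fintype.card_fin, P.hL, P.hN]
  push_cast
  calc _ ≤ ((n : ℝ) ^ 2) ^ 2 / (n * n ^ 9) := by gcongr
    _ = _ := by field_simp

namespace Good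

variable (G : Good ω N l m) (P : Par n N L l m) (h1 : m ≤ ℓ) (h2 : ℓ ≤ L)
include G h1 h2

theorem nb (u y : Fin n) : ¬ BadAt ω N l ℓ u y := fun h =>
  G ⟨ℓ, mem_Icc.2 ⟨h1, h2⟩, u, mem_univ _, y, mem_univ _, h⟩

theorem lo' (h : (l : ℝ) ^ 2 / ep N ℓ ^ 2 ≤ (cp ω ℓ u).card) :
    5 / 4 * ep N ℓ * n < (cp ω ℓ u).card * (1 + ep N ℓ) :=
  not_le.1 fun h3 => G.nb h1 h2 u u (Or.inr (Or.inl ⟨h, h3⟩))

theorem lo (h : (l : ℝ) ^ 2 / ep N ℓ ^ 2 ≤ (cp ω ℓ u).card) :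
    5 / 8 * ep N ℓ * n ≤ (cp ω ℓ u).card := by
  nlinarith [G.lo' h1 h2 h, ep_le_one (N := N) (ℓ := ℓ), Nat.cast_nonneg (α := ℝ) (cp ω ℓ u).card]

theorem mem (h : (l : ℝ) ^ 2 / ep N ℓ ^ 2 ≤ (cp ω ℓ u).card)
    (h' : (l : ℝ) ^ 2 / ep N ℓ ^ 2 ≤ (cp ω ℓ y).card) : y ∈ cp ω ℓ u := by
  by_contra h3
  rcases (ep_le_one (N := N) (ℓ := ℓ)).lt_or_eq with h4 | h4
  · exact G.nb h1 h2 u y (Or.inl ⟨h4, (G.lo' h1 h2 h).le, h3, h'⟩)
  have h5 := G.lo' h1 h2 h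
  have h6 := G.lo' h1 h2 h'
  have h7 := card_le_univ (cp ω ℓ u ∪ cp ω ℓ y)
  rw [card_union_of_disjoint (cp_disjoint h3), Fintype.card_fin] at h7
  have h8 : ((cp ω ℓ u).card : ℝ) + (cp ω ℓ y).card ≤ n := by exact_mod_cast h7
  rw [h4] at h5 h6
  linarith [Nat.cast_nonneg (α := ℝ) n]

theorem hi (u : Fin n) : ((cp ω ℓ u).card : ℝ) ≤ 8 * ep N ℓ * n := by
  rcases le_total (ep N ℓ) (1 / 8) with h3 | h3
  · exact (not_le.1 fun h4 => G.nb h1 h2 u u (Or.inr (Or.inr (Or.inl ⟨h3, h4⟩)))).le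
  · have : ((cp ω ℓ u).card : ℝ) ≤ n := by exact_mod_cast (card_le_univ _).trans_eq (Fintype.card_fin n)
    nlinarith [Nat.cast_nonneg (α := ℝ) n]

theorem out (h3 : ep N ℓ ≤ 1 / 20) (h : (l : ℝ) ^ 2 / ep N ℓ ^ 2 ≤ (cp ω ℓ u).card) :
    exp (-405) / 32 * ep N ℓ * n ≤ ∑ y ∈ univ \ cp ω ℓ u, ind (1 / ep N ℓ ^ 2 ≤ (cp ω ℓ y).card) :=
  (not_le.1 fun h4 => G.nb h1 h2 u u (Or.inr (Or.inr (Or.inr
    ⟨h3, (G.lo' h1 h2 h).le, G.hi h1 h2 u, h4⟩)))).le.trans_eq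
    (sum_congr rfl fun z hz => by rw [cp, cp, reach_peel hz])

end Good

end

end Pool.Agent.P.MP_5fda20_pr
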