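import Pool.Agent.P.MP_5fda20_pr.Bad

/-! The clock of the large component on the good event. -/

namespace Pool.Agent.P.MP_5fda20_pr

open Finset Real

noncomputable section

variable {n N L l m ℓ i : ℕ} {ω : Om n L} {u y : Fin n}

theorem ep_succ (h : 0 < ep N i) (hN : (0 : ℝ) < N) : ep N (i + 1) ≤ 2 * ep N i := by
  rcases (ep_le_one (N := N) (ℓ := i)).lt_or_eq with h1 | h1
  · have h2 := (div_eq_iff hN.ne').1 (ep_eq h1)
    have h3 : N < i := by
      have : (N : ℝ) < i := by nlinarith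
      exact_mod_cast this
    have h4 : (N : ℝ) + 1 ≤ i := by exact_mod_cast h3
    refine (min_le_left _ _).trans ?_
    rw [sub_le_iff_le_add, div_le_iff₀ hN]
    push_cast
    linarith
  · linarith [ep_le_one (N := N) (ℓ := i + 1)]

theorem sq_step (hI : Function.Injective ω) (i : ℕ) (u : Fin n) {k : ℝ} {B : Fin n → Prop}
    (hB : ∀ y, B y → k ≤ (cp ω i y).card) :
    k * ∑ y ∈ cp ω (i + 1) u, ind (B y) - k * ∑ y ∈ cp ω i u, ind (B y) ≤
      ((cs ω {u} (i + 1) : ℝ) - cs ω {u} i) ^ 2 := by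
  rcases cp_succ_cases hI i u with h | ⟨y, hy, h⟩
  · rw [h, sub_self]; exact sq_nonneg _
  have e : cs ω {u} (i + 1) = cs ω {u} i + (cp ω i y).card :=
    (congrArg card h).trans (card_union_of_disjoint (cp_disjoint hy))
  rw [h, sum_union (cp_disjoint hy), e, mul_add, add_sub_cancel_left, Nat.cast_add,
    add_sub_cancel_left, mul_sum, sq, ← nsmul_eq_mul]
  refine sum_le_card_nsmul _ _ _ fun z hz => ?_
  rw [mul_comm]
  exact ind_mul_le (by positivity) fun h1 => cp_eq hz ▸ hB z h1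

theorem cube_step {c s : ℝ} (hc : 0 < c) (hs : 0 ≤ s) (h : s ≤ c) :
    s / c ^ 4 ≤ 2 * (1 / c ^ 3 - 1 / (c + s) ^ 3) := by
  rw [div_sub_div _ _ (by positivity) (by positivity), ← mul_div_assoc,
    div_le_div_iff₀ (by positivity) (by positivity)]
  have h1 : 0 ≤ c ^ 3 * s * (5 * c ^ 3 + 3 * c ^ 2 * s - c * s ^ 2 - s ^ 3) := by
    have : c * s ^ 2 ≤ c ^ 3 := by nlinarith [mul_le_mul h h hs hc.le]
    have : s ^ 3 ≤ c ^ 3 := by gcongr
    have : 0 ≤ c ^ 2 * s := by positivity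
    have : 0 ≤ 5 * c ^ 3 + 3 * c ^ 2 * s - c * s ^ 2 - s ^ 3 := by nlinarith [pow_pos hc 3]
    positivity
  nlinarith

namespace Good

variable (G : Good ω N l m) (P : Par n N L l m) (hI : Function.Injective ω) (h1 : m ≤ ℓ)
  (hb : (l : ℝ) ^ 2 / ep N ℓ ^ 2 ≤ (cp ω ℓ u).card)

include P h1 hb in
theorem big_up (h : ℓ ≤ i) : (l : ℝ) ^ 2 / ep N i ^ 2 ≤ (cp ω i u).card := by
  have := P.e0 h1
  refine le_trans ?_ (hb.trans (by exact_mod_cast card_le_card (cp_mono h)))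
  gcongr
  exact ep_mono h

include G P hI h1 hb

omit P in
theorem step (h2 : ℓ ≤ L) : (cs ω {u} (ℓ + 1) : ℝ) - cs ω {u} ℓ ≤ l ^ 2 / ep N ℓ ^ 2 := by
  rcases cp_succ_cases hI ℓ u with h | ⟨y, hy, h⟩
  · rw [show cs ω {u} (ℓ + 1) = cs ω {u} ℓ from congrArg card h, sub_self]; positivity
  rw [show cs ω {u} (ℓ + 1) = cs ω {u} ℓ + (cp ω ℓ y).card from
    (congrArg card h).trans (card_union_of_disjoint (cp_disjoint hy)), Nat.cast_add,
    add_sub_cancel_left]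
  exact (not_le.1 fun h3 => hy (G.mem h1 h2 hb h3)).le

theorem sg_le (h2 : ℓ ≤ L) : sg (cs ω {u}) ℓ ^ 2 ≤ 3 * l ^ 4 / (ep N ℓ ^ 6 * n ^ 2) := by
  have e0 := P.e0 h1
  have n0 := P.n0
  have h3 : sg (cs ω {u}) ℓ ≤ l ^ 2 / ep N ℓ ^ 2 / (5 / 8 * ep N ℓ * n) :=
    div_le_div₀ (by positivity) (G.step hI h1 hb h2) (by positivity) (G.lo h1 h2 hb)
  have h4 : 0 ≤ sg (cs ω {u}) ℓ :=
    div_nonneg (sub_nonneg.2 (by exact_mod_cast cs_mono ℓ.le_succ)) (by positivity)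
  calc _ ≤ (l ^ 2 / ep N ℓ ^ 2 / (5 / 8 * ep N ℓ * n)) ^ 2 := by gcongr
    _ = 64 / 25 * l ^ 4 / (ep N ℓ ^ 6 * n ^ 2) := by field_simp; ring
    _ ≤ _ := by gcongr; norm_num

theorem clk_hi (h2 : ℓ ≤ L) : clk (cs ω {u}) ℓ L ≤ 525 / l ^ 7 := by
  have e0 := P.e0 h1
  have n0 := P.n0
  have l0 : (0 : ℝ) < l := one_pos.trans_le P.l1
  have c0 : ∀ i, (0 : ℝ) < cs ω {u} i := fun i => Nat.cast_pos.2 (card_pos.2 ⟨u, self_mem_cp⟩)
  calc _ ≤ ∑ i ∈ Ico ℓ L, 128 * l ^ 2 * n ^ 2 *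
        (-(1 / (cs ω {u} (i + 1) : ℝ) ^ 3) - -(1 / (cs ω {u} i : ℝ) ^ 3)) := by
        refine sum_le_sum fun i hi => ?_
        obtain ⟨i1, i2⟩ := mem_Ico.1 hi
        have h3 := big_up P h1 hb i1
        have h4 := G.step hI (h1.trans i1) h3 i2.le
        have h5 : (cs ω {u} i : ℝ) ≤ _ := G.hi (h1.trans i1) i2.le u
        have e1 := P.e0 (h1.trans i1)
        have h6 : (0 : ℝ) ≤ (cs ω {u} (i + 1) : ℝ) - cs ω {u} i :=
          sub_nonneg.2 (by exact_mod_cast cs_mono i.le_succ)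
        have h7 := cube_step (c0 i) h6 (h4.trans h3)
        have h8 : (l : ℝ) ^ 2 / ep N i ^ 2 ≤ 64 * l ^ 2 * n ^ 2 / (cs ω {u} i : ℝ) ^ 2 := by
          rw [div_le_div_iff₀ (by positivity) (by have := c0 i; positivity)]
          calc _ ≤ (l : ℝ) ^ 2 * (8 * ep N i * n) ^ 2 := by gcongr
            _ = _ := by ring
        rw [add_sub_cancel] at h7
        have := c0 i
        calc _ = ((cs ω {u} (i + 1) : ℝ) - cs ω {u} i) *
              (((cs ω {u} (i + 1) : ℝ) - cs ω {u} i) / (cs ω {u} i : ℝ) ^ 2) := by rw [sg]; ring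
          _ ≤ 64 * l ^ 2 * n ^ 2 / (cs ω {u} i : ℝ) ^ 2 *
              (((cs ω {u} (i + 1) : ℝ) - cs ω {u} i) / (cs ω {u} i : ℝ) ^ 2) := by
            gcongr; exact h4.trans h8
          _ = 64 * l ^ 2 * n ^ 2 * (((cs ω {u} (i + 1) : ℝ) - cs ω {u} i) /
              (cs ω {u} i : ℝ) ^ 4) := by ring
          _ ≤ _ := (mul_le_mul_of_nonneg_left h7 (by positivity)).trans_eq (by ring)
    _ ≤ 128 * l ^ 2 * n ^ 2 * (1 / (cs ω {u} ℓ : ℝ) ^ 3) := by
        rw [← mul_sum, sum_Ico_sub (fun i => -(1 / (cs ω {u} i : ℝ) ^ 3)) h2]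
        gcongr
        have := c0 L
        have : 0 ≤ 1 / (cs ω {u} L : ℝ) ^ 3 := by positivity
        linarith
    _ ≤ 128 * l ^ 2 * n ^ 2 * (1 / (5 / 8 * ep N ℓ * n) ^ 3) := by gcongr; exact G.lo h1 h2 hb
    _ = 65536 / 125 * l ^ 2 / (ep N ℓ ^ 3 * n) := by field_simp; norm_num
    _ ≤ 525 * l ^ 2 / l ^ 9 := by gcongr; exacts [by norm_num, P.e3 h1]
    _ = _ := by field_simp

theorem clk_lo (h2 : l * ep N ℓ ≤ 1) :
    exp (-405) / 32 / (64 * l ^ 2 * (ep N ℓ ^ 3 * n)) ≤ clk (cs ω {u}) ℓ L := by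
  have e0 := P.e0 h1
  have n0 := P.n0
  have N0 := P.N0
  have l9 := P.l9
  have e1 : ep N ℓ ≤ 1 / 20 := by nlinarith
  have e2 := (div_eq_iff N0.ne').1 (ep_eq (N := N) (ℓ := ℓ) (by linarith))
  obtain ⟨j, rfl⟩ : ∃ j, ℓ = N + j := Nat.exists_eq_add_of_le (by
    have : (N : ℝ) ≤ ℓ := by nlinarith
    exact_mod_cast this)
  have e3 : (j : ℝ) = ep N (N + j) * N := by push_cast at e2; linarith
  have e4 : ((N + l * j : ℕ) : ℝ) / N - 1 = l * ep N (N + j) := by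
    push_cast; rw [e3]; field_simp; ring
  have e5 : ep N (N + l * j) = l * ep N (N + j) := by rw [ep, e4, min_eq_left h2]
  have i1 : N + j ≤ N + l * j :=
    Nat.add_le_add_left (Nat.le_mul_of_pos_left _ (Nat.cast_pos.1 (one_pos.trans_le P.l1))) _
  have i2 : N + l * j ≤ L := by
    have : ((N + l * j : ℕ) : ℝ) ≤ (n * N : ℕ) := by
      rw [sub_eq_iff_eq_add, div_eq_iff N0.ne'] at e4
      rw [e4]; push_cast; nlinarith [P.n9]
    rw [P.hL]; exact_mod_cast this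
  set B : ℕ → ℝ := fun i => 1 / ep N (N + j) ^ 2 *
    ∑ y ∈ cp ω i u, ind (1 / ep N (N + j) ^ 2 ≤ (cp ω (N + j) y).card) with hB
  have h3 := G.hi (h1.trans i1) i2 u
  have h4 : exp (-405) / 32 * n / ep N (N + j) ≤ B (N + l * j) - B (N + j) := by
    rw [hB, ← mul_sub, ← sum_sdiff_eq_sub (cp_mono i1)]
    calc _ = 1 / ep N (N + j) ^ 2 * (exp (-405) / 32 * ep N (N + j) * n) := by field_simp
      _ ≤ _ := by
        refine mul_le_mul_of_nonneg_left ((G.out h1 (i1.trans i2) e1 hb).trans_eq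
          (sum_subset (sdiff_subset_sdiff (subset_univ _) Subset.rfl) fun y hy hy' =>
            ind_of_not fun h5 => hy' (mem_sdiff.2 ⟨?_, (mem_sdiff.1 hy).2⟩)).symm) (by positivity)
        refine G.mem (h1.trans i1) i2 (big_up P h1 hb i1) (le_trans (le_of_eq ?_)
          (h5.trans (by exact_mod_cast card_le_card (cp_mono i1))))
        rw [e5]; field_simp
  rw [clk_add i1 i2]
  refine le_add_of_le_of_nonneg ?_ clk_nonneg
  rw [e5] at h3
  calc _ = exp (-405) / 32 * n / ep N (N + j) / (8 * (l * ep N (N + j)) * n) ^ 2 := by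
        field_simp; norm_num
    _ ≤ (B (N + l * j) - B (N + j)) / (8 * (l * ep N (N + j)) * n) ^ 2 := by gcongr
    _ ≤ _ := by
        rw [← sum_Ico_sub B i1, sum_div]
        refine sum_le_sum fun i hi => ?_
        obtain ⟨i3, i4⟩ := mem_Ico.1 hi
        rw [sg, div_pow]
        refine div_le_div₀ (sq_nonneg _) (sq_step hI i u fun y hy =>
          hy.trans (by exact_mod_cast card_le_card (cp_mono i3)))
          (pow_pos (Nat.cast_pos.2 (card_pos.2 ⟨u, self_mem_cp⟩)) 2) (pow_le_pow_left₀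
            (by positivity) (le_trans (by exact_mod_cast card_le_card (cp_mono i4.le)) h3) 2)

theorem goodL (h2 : ℓ ≤ L) : GoodL (1 / l) (l ^ 12 / n ^ 2) (cs ω {u}) ℓ L := by
  have n0 := P.n0
  have l9 := P.l9
  have l0 : (0 : ℝ) < l := by linarith
  constructor
  · have h3 : (l : ℝ) ^ 12 / n ^ 2 ≤ 1 / l ^ 7 := by
      calc _ ≤ (l : ℝ) ^ 12 / (l ^ 10) ^ 2 := by gcongr; exact P.pow_le (by norm_num)
        _ = 1 / l ^ 8 := by field_simp
        _ ≤ _ := by gcongr; exacts [P.l1, by norm_num]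
    calc _ ≤ 1 / (l : ℝ) ^ 7 + 525 / l ^ 7 := add_le_add h3 (G.clk_hi P hI h1 hb h2)
      _ = 526 / l ^ 5 * (1 / l) ^ 2 := by field_simp; norm_num
      _ ≤ _ := mul_le_of_le_one_left (by positivity) ((div_le_one (by positivity)).2
          (le_trans (by linarith) (le_self_pow₀ P.l1 (by norm_num))))
  intro i i1 i2
  have h3 := big_up P h1 hb i1
  have h4 := G.sg_le P hI (h1.trans i1) h3 i2.le
  have e0 := P.e0 (h1.trans i1)
  have e1 := ep_succ e0 P.N0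
  refine ⟨cs_mono i.le_succ, ?_, h4.trans ?_⟩
  · have := (G.step hI (h1.trans i1) h3 i2.le).trans h3
    have : (cs ω {u} (i + 1) : ℝ) ≤ 2 * cs ω {u} i := by rw [two_mul]; exact sub_le_iff_le_add.1 this
    exact_mod_cast this
  rcases le_total (l * ep N (i + 1)) 1 with h5 | h5
  · have h6 := G.clk_lo P hI (h1.trans (i1.trans i.le_succ)) (big_up P h1 hb (i1.trans i.le_succ)) h5
    have e2 := P.e0 (h1.trans (i1.trans i.le_succ))
    have e3 := P.e3 (h1.trans i1)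
    calc _ = 3 * l ^ 4 / (ep N i ^ 3 * n) / (ep N i ^ 3 * n) := by field_simp
      _ ≤ 3 * l ^ 4 / l ^ 9 / (ep N i ^ 3 * n) := by gcongr
      _ = 4 * (1 / l) * (6144 / l ^ 2 / (64 * l ^ 2 * ((2 * ep N i) ^ 3 * n)) / 16) := by
        field_simp; norm_num
      _ ≤ 4 * (1 / l) * (exp (-405) / 32 / (64 * l ^ 2 * (ep N (i + 1) ^ 3 * n)) / 16) := by
        gcongr 4 * _ * (?_ / (64 * _ * (?_ ^ 3 * _)) / 16)
        rw [div_le_iff₀ (by positivity)]
        nlinarith [P.c3]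
      _ ≤ _ := by gcongr; exact le_add_of_nonneg_of_le (by positivity) (by gcongr)
  · have e2 : 1 / (2 * l) ≤ ep N i := by rw [div_le_iff₀ (by positivity)]; nlinarith
    calc _ ≤ (3 : ℝ) * l ^ 4 / ((1 / (2 * l)) ^ 6 * n ^ 2) := by gcongr
      _ = 4 * (1 / l) * (48 / l * (l ^ 12 / n ^ 2)) := by field_simp; norm_num
      _ ≤ _ := by
        gcongr
        exact le_add_of_le_of_nonneg (mul_le_of_le_one_left (by positivity)
          ((div_le_one l0).2 (by linarith))) (div_nonneg clk_nonneg (by norm_num))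

end Good

end

end Pool.Agent.P.MP_5fda20_pr
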