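import Mathlib

/-! The random minimum spanning tree and balanced splits. -/

namespace Pool.Agent.P.MP_5fda20_pr

open MeasureTheory

variable {V : Type} [Fintype V]

open Classical in
/-- The total weight of the edges of `G` that are edges of `T`. -/
noncomputable def weight (G : SimpleGraph V) (W : G.edgeSet → ℝ) (T : SimpleGraph V) : ℝ :=
  ∑ e : G.edgeSet, if e.1 ∈ T.edgeSet then W e else 0

/-- `T` is a spanning tree of `G` of least total weight. -/
def IsMST (G : SimpleGraph V) (W : G.edgeSet → ℝ) (T : SimpleGraph V) : Prop :=
  T ≤ G ∧ T.IsTree ∧ ∀ T' ≤ G, T'.IsTree → weight G W T ≤ weight G W T'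

/-- `T` has an edge whose removal leaves components with `⌊N/2⌋` and `⌈N/2⌉` vertices. -/
def Splittable (T : SimpleGraph V) : Prop :=
  ∃ u v, T.Adj u v ∧
    ((T.deleteEdges {s(u, v)}).connectedComponentMk u).supp.ncard = Fintype.card V / 2 ∧
    ((T.deleteEdges {s(u, v)}).connectedComponentMk v).supp.ncard = (Fintype.card V + 1) / 2

open Classical in
/-- The probability, for independent uniform weights in `[0, 1]` on the edges of `G`, that a
minimum spanning tree is splittable. -/
noncomputable def pMST (G : SimpleGraph V) : ℝ :=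
  (Measure.pi fun _ : G.edgeSet => volume.restrict (Set.Icc (0 : ℝ) 1)).real
    {W | ∃ T, IsMST G W T ∧ Splittable T}

end Pool.Agent.P.MP_5fda20_pr
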