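import Pool.Agent.P.MP_5fda20_pr.Reach

/-! Exploration by generations. -/

namespace Pool.Agent.P.MP_5fda20_pr

open Finset

noncomputable section

variable {n L : ℕ} [NeZero L]

/-- Probability that an edge is closed at level `ℓ`. -/
def qq (L ℓ : ℕ) : ℝ := 1 - (ℓ : ℝ) / L

theorem qq_nonneg {ℓ : ℕ} (h : ℓ ≤ L) : 0 ≤ qq L ℓ := by
  have : (0 : ℝ) < L := Nat.cast_pos.2 (NeZero.pos L)
  rw [qq, sub_nonneg, div_le_one this]; exact_mod_cast h

omit [NeZero L] in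
theorem qq_anti {ℓ ℓ' : ℕ} (h : ℓ' ≤ ℓ) : qq L ℓ ≤ qq L ℓ' := by
  unfold qq; gcongr

omit [NeZero L] in
theorem qq_zero : qq L 0 = 1 := by simp [qq]

omit [NeZero L] in
theorem qq_le_one (ℓ : ℕ) : qq L ℓ ≤ 1 := (qq_anti (Nat.zero_le _)).trans_eq qq_zero

theorem av_ge_one {ℓ : ℕ} (h : ℓ ≤ L) (e : Sym2 (Fin n)) :
    av (fun ω : Om n L => ind (ℓ ≤ (ω e).val)) = qq L ℓ := by
  have h0 : (L : ℝ) ≠ 0 := Nat.cast_ne_zero.2 (NeZero.ne L)
  rw [av_apply e fun x : Fin L => ind (ℓ ≤ x.val), av, Fin.sum_univ_eq_sum_range fun x => ind (ℓ ≤ x),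
    sum_ind_eq_card, Fintype.card_fin, qq]
  have : (range L).filter (fun x => ℓ ≤ x) = Ico ℓ L := by ext x; simp [and_comm]
  rw [this, Nat.card_Ico, Nat.cast_sub h]
  field_simp

theorem av_op {ℓ : ℕ} (h : ℓ ≤ L) (e : Sym2 (Fin n)) :
    av (fun ω : Om n L => ind (op ω ℓ e)) = (ℓ : ℝ) / L := by
  have : ∀ ω : Om n L, ind (op ω ℓ e) = 1 - ind (ℓ ≤ (ω e).val) := fun ω => by
    rw [← ind_not]; exact ind_congr (by simp [op])
  rw [av_congr this, av_sub, av_const, av_ge_one h, qq]; ring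

theorem av_ge_edges {ℓ : ℕ} (h : ℓ ≤ L) (E : Finset (Sym2 (Fin n))) :
    av (fun ω : Om n L => ind (∀ e ∈ E, ℓ ≤ (ω e).val)) = qq L ℓ ^ E.card := by
  simp only [ind_forall]
  rw [av_prod_of_dep E (fun e => {e}) (f := fun e (ω : Om n L) => ind (ℓ ≤ (ω e).val))
    (fun e _ => (Dep.apply (Set.mem_singleton e)).comp fun y : Fin L => ind (ℓ ≤ y.val))
    (fun _ _ _ _ h => by simpa using h), prod_congr rfl fun e _ => av_ge_one h e, prod_const]

theorem av_ge {ℓ : ℕ} (h : ℓ ≤ L) {R W : Finset (Fin n)} (hd : Disjoint R W) :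
    av (fun ω : Om n L => ind (Ge ω R W ℓ)) = qq L ℓ ^ (R.card * W.card) := by
  rw [← card_product, ← card_image_of_injOn (f := fun p : Fin n × Fin n => s(p.1, p.2)),
    ← av_ge_edges h]
  · refine av_congr fun ω => ind_congr ?_
    simp only [Ge, forall_mem_image, mem_product, and_imp]
    exact ⟨fun h p ha hb => h _ ha _ hb, fun h a ha b hb => h (x := (a, b)) ha hb⟩
  · rintro ⟨a, b⟩ h1 ⟨c, d⟩ h2 h3
    simp only [coe_product, Set.mem_prod, mem_coe] at h1 h2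
    rcases Sym2.eq_iff.1 h3 with ⟨rfl, rfl⟩ | ⟨rfl, rfl⟩
    · rfl
    · exact absurd h2.2 (disjoint_left.1 hd h1.1)

omit [NeZero L] in
theorem ge_zero (ω : Om n L) (R W : Finset (Fin n)) : Ge ω R W 0 := fun _ _ _ _ => Nat.zero_le _

/-- Binomial sums. -/
def bin (α β : ℝ) (m : ℕ) (f : ℕ → ℝ) : ℝ :=
  ∑ k ∈ range (m + 1), (m.choose k : ℝ) * (α ^ k * β ^ (m - k) * f k)

theorem bin_mono {α β : ℝ} (hα : 0 ≤ α) (hβ : 0 ≤ β) {m : ℕ} {f g : ℕ → ℝ}
    (h : ∀ k ≤ m, f k ≤ g k) : bin α β m f ≤ bin α β m g :=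
  sum_le_sum fun k hk => by
    have := h k (Nat.lt_succ_iff.1 (mem_range.1 hk))
    gcongr

theorem bin_pow (α β c x y : ℝ) (m : ℕ) :
    bin α β m (fun k => c * (x ^ k * y ^ (m - k))) = c * (α * x + β * y) ^ m := by
  rw [add_pow, mul_sum]
  exact sum_congr rfl fun k _ => by rw [mul_pow, mul_pow]; ring

theorem bin_neg (α β : ℝ) (m : ℕ) (f : ℕ → ℝ) : bin α β m (fun k => -f k) = -bin α β m f := by
  simp only [bin, mul_neg, sum_neg_distrib]

theorem strike {R W : Finset (Fin n)} (hd : Disjoint R W) {ℓ' ℓ : ℕ} (h1 : ℓ' ≤ ℓ) (h2 : ℓ ≤ L)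
    {J : Set (Sym2 (Fin n))} (hJ : Disjoint (crs R W) J) {Φ : Finset (Fin n) → Om n L → ℝ}
    (hΦ : ∀ Y ⊆ W, Dep J (Φ Y)) {f : ℕ → ℝ} (hf : ∀ Y ⊆ W, av (Φ Y) ≤ f Y.card) :
    av (fun ω => ind (Ge ω R W ℓ') * Φ (nbr (op ω ℓ) R W) ω) ≤
      bin (qq L ℓ' ^ R.card - qq L ℓ ^ R.card) (qq L ℓ ^ R.card) W.card f := by
  set α := qq L ℓ' ^ R.card - qq L ℓ ^ R.card
  set β := qq L ℓ ^ R.card
  have hβ : 0 ≤ β := pow_nonneg (qq_nonneg h2) _
  have hα : 0 ≤ α := sub_nonneg.2 (pow_le_pow_left₀ (qq_nonneg h2) (qq_anti h1) _)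
  let F : Finset (Fin n) → Fin n → Om n L → ℝ := fun Y y ω =>
    if y ∈ Y then ind (Ge ω R {y} ℓ') - ind (Ge ω R {y} ℓ) else ind (Ge ω R {y} ℓ)
  have hFd : ∀ Y y, Dep (crs R {y}) (F Y y) := fun Y y => by
    by_cases hy : y ∈ Y
    · simp only [F, if_pos hy]
      exact (dep_ge R {y} ℓ').ind.comp₂ (dep_ge R {y} ℓ).ind (· - ·)
    · simp only [F, if_neg hy]
      exact (dep_ge R {y} ℓ).ind
  have hF : ∀ Y ⊆ W, ∀ ω, ind (nbr (op ω ℓ) R W = Y) * ind (Ge ω R W ℓ') = ∏ y ∈ W, F Y y ω := by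
    intro Y hY ω
    have h3 : ∀ y, F Y y ω = ind (Ge ω R {y} ℓ' ∧ (y ∈ Y ↔ ∃ a ∈ R, op ω ℓ s(a, y))) := fun y => by
      have h4 : (∃ a ∈ R, op ω ℓ s(a, y)) ↔ ¬ Ge ω R {y} ℓ := by simp [Ge, op]
      have h5 : Ge ω R {y} ℓ → Ge ω R {y} ℓ' := fun h => h.mono Subset.rfl Subset.rfl h1
      by_cases hy : y ∈ Y <;> by_cases h6 : Ge ω R {y} ℓ <;> by_cases h7 : Ge ω R {y} ℓ' <;>
        simp_all [F, ind]
    rw [prod_congr rfl fun y _ => h3 y, ← ind_forall, ← ind_and]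
    refine ind_congr ⟨?_, fun h => ⟨?_, fun a ha b hb => (h b hb).1 a ha b (mem_singleton_self b)⟩⟩
    · rintro ⟨rfl, h⟩ y hy
      exact ⟨h.mono Subset.rfl (singleton_subset_iff.2 hy) le_rfl, by simp [mem_nbr, hy]⟩
    · ext y
      rw [mem_nbr]
      exact ⟨fun h' => (h y h'.1).2.2 h'.2, fun h' => ⟨hY h', (h y (hY h')).2.1 h'⟩⟩
  have hav : ∀ Y ⊆ W, av (fun ω => ∏ y ∈ W, F Y y ω) = α ^ Y.card * β ^ (W.card - Y.card) := by
    intro Y hY
    rw [av_prod_of_dep W (fun y => crs R {y}) (fun y _ => hFd Y y)]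
    · have h4 : ∀ y ∈ W, av (F Y y) = if y ∈ Y then α else β := fun y hy => by
        have h5 : Disjoint R {y} := hd.mono_right (singleton_subset_iff.2 hy)
        by_cases hy : y ∈ Y
        · simp only [F, if_pos hy]
          rw [av_sub, av_ge (h1.trans h2) h5, av_ge h2 h5, card_singleton, mul_one]
        · simp only [F, if_neg hy]
          rw [av_ge h2 h5, card_singleton, mul_one]
      rw [prod_congr rfl h4, prod_ite, prod_const, prod_const, filter_mem_eq_inter,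
        inter_eq_right.2 hY, filter_not, filter_mem_eq_inter, inter_eq_right.2 hY,
        card_sdiff_of_subset hY]
    · intro y hy z hz hyz
      refine Set.disjoint_left.2 ?_
      rintro _ ⟨a, ha, b, hb, rfl⟩ ⟨c, hc, d, hd', h⟩
      rw [mem_singleton] at hb hd'
      subst hb hd'
      rcases Sym2.eq_iff.1 h with ⟨-, rfl⟩ | ⟨rfl, rfl⟩
      · exact hyz rfl
      · exact disjoint_left.1 hd ha hz
  calc _ = av (fun ω => ∑ Y ∈ W.powerset, (∏ y ∈ W, F Y y ω) * Φ Y ω) := av_congr fun ω => by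
        rw [← sum_ind_eq W.powerset (mem_powerset.2 (nbr_sub (O := op ω ℓ) (R := R)))
          fun Y => ind (Ge ω R W ℓ') * Φ Y ω]
        exact sum_congr rfl fun Y hY => by rw [← hF Y (mem_powerset.1 hY), mul_assoc]
    _ ≤ ∑ Y ∈ W.powerset, α ^ Y.card * β ^ (W.card - Y.card) * f Y.card := by
        rw [av_sum]
        refine sum_le_sum fun Y hY => ?_
        rw [av_mul_of_dep (I := crs R W) (fun ω ω' e => prod_congr rfl fun y hy => hFd Y y ω ω'
          fun i ⟨a, ha, b, hb, h⟩ => e i ⟨a, ha, b, (mem_singleton.1 hb) ▸ hy, h⟩)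
          (hΦ Y (mem_powerset.1 hY)) hJ, hav Y (mem_powerset.1 hY)]
        exact mul_le_mul_of_nonneg_left (hf Y (mem_powerset.1 hY)) (by positivity)
    _ = _ := by
        rw [sum_powerset_apply_card fun k => α ^ k * β ^ (W.card - k) * f k]
        simp only [bin, nsmul_eq_mul]

theorem struck {ℓ' ℓ : ℕ} (h1 : ℓ' ≤ ℓ) (h2 : ℓ ≤ L) {U R : Finset (Fin n)} (hR : R ⊆ U)
    {φ f : ℕ → ℝ}
    (hf : ∀ Y ⊆ U \ R, av (fun ω : Om n L => φ (R.card + (reach (op ω ℓ) (U \ R) Y).card)) ≤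
      f Y.card) :
    av (fun ω : Om n L => ind (Ge ω R (U \ R) ℓ') * φ (reach (op ω ℓ) U R).card) ≤
      bin (qq L ℓ' ^ R.card - qq L ℓ ^ R.card) (qq L ℓ ^ R.card) (U.card - R.card) f := by
  rw [← card_sdiff_of_subset hR]
  simp only [card_reach_step hR]
  exact strike disjoint_sdiff h1 h2 (crs_disjoint_left disjoint_sdiff)
    (Φ := fun Y ω => φ (R.card + (reach (op ω ℓ) (U \ R) Y).card))
    (fun Y _ => (dep_reach ℓ _ Y).comp fun D => φ (R.card + D.card)) hf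

theorem expl {ℓ : ℕ} (h2 : ℓ ≤ L) (φ : ℕ → ℝ) (F : ℕ → ℕ → ℕ → ℝ) (M : ℕ)
    (h0 : ∀ t m, t + m = M → φ t ≤ F t 0 m)
    (hs : ∀ t j m, 0 < j → t + j + m = M →
      bin (1 - qq L ℓ ^ j) (qq L ℓ ^ j) m (fun k => F (t + j) k (m - k)) ≤ F t j m)
    (U Y : Finset (Fin n)) (t : ℕ) (hY : Y ⊆ U) (ht : t + U.card = M) :
    av (fun ω : Om n L => φ (t + (reach (op ω ℓ) U Y).card)) ≤ F t Y.card (U.card - Y.card) := by
  induction hU : U.card using Nat.strong_induction_on generalizing U Y t with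
  | _ u ih =>
  subst hU
  rcases Y.eq_empty_or_nonempty with rfl | hne
  · simp only [reach_empty, card_empty, add_zero, Nat.sub_zero]
    exact av_le fun _ => h0 _ _ ht
  have hc := card_le_card hY
  have hp := hne.card_pos
  have hc' := card_sdiff_of_subset hY
  refine le_trans ?_ (hs t Y.card (U.card - Y.card) hp (by omega))
  have := struck (Nat.zero_le ℓ) h2 hY (φ := fun x => φ (t + x))
    (f := fun k => F (t + Y.card) k (U.card - Y.card - k)) fun Z hZ => by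
      simp only [← add_assoc]
      exact ih _ (by omega) (U \ Y) Z (t + Y.card) hZ (by omega) hc'
  rw [qq_zero, one_pow] at this
  refine le_trans (av_congr fun ω => ?_).le this
  rw [ind_of (ge_zero _ _ _), one_mul]

theorem peel {ℓ : ℕ} {U Y : Finset (Fin n)} (hY : Y ⊆ U) {B : Finset (Fin n) → Om n L → ℝ}
    {b : Finset (Fin n) → ℝ} (hB : ∀ D ⊆ U, Dep (inn (U \ D)) (B D))
    (hb : ∀ D ⊆ U, Y ⊆ D → av (B D) ≤ b D) :
    av (fun ω => B (reach (op ω ℓ) U Y) ω) ≤ av (fun ω : Om n L => b (reach (op ω ℓ) U Y)) := by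
  have h1 : ∀ (G : Finset (Fin n) → Om n L → ℝ), av (fun ω => G (reach (op ω ℓ) U Y) ω) =
      ∑ D ∈ U.powerset, av (fun ω => ind (reach (op ω ℓ) U Y = D) * G D ω) := fun G => by
    rw [← av_sum]
    exact av_congr fun ω => (sum_ind_eq _ (mem_powerset.2 reach_sub) fun D => G D ω).symm
  rw [h1 B, h1 fun D _ => b D]
  refine sum_le_sum fun D hD => ?_
  have hD := mem_powerset.1 hD
  by_cases hYD : Y ⊆ D
  · rw [av_mul_const, av_mul_of_dep (I := inn D ∪ crs D (U \ D)) _ (hB D hD)]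
    · exact mul_le_mul_of_nonneg_left (hb D hD hYD) (av_nonneg fun _ => ind_nonneg _)
    · exact Set.disjoint_union_left.2 ⟨inn_disjoint disjoint_sdiff, crs_disjoint_left disjoint_sdiff⟩
    · simp only [reach_op_eq_iff hYD hD]
      exact ((((dep_reach ℓ D Y).comp (· = D)).mono Set.subset_union_left).and
        ((dep_ge _ _ _).mono Set.subset_union_right)).ind
  · refine (av_congr fun ω => ?_).le
    rw [ind_of_not fun h => hYD ((sub_reach hY).trans_eq h), zero_mul, zero_mul]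

end

end Pool.Agent.P.MP_5fda20_pr
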