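import Pool.Agent.P.MP_5fda20_pr.Num

/-! Lower bounds from the exploration. -/

namespace Pool.Agent.P.MP_5fda20_pr

open Finset Real

noncomputable section

theorem bin_id (α β : ℝ) (m : ℕ) :
    bin α β (m + 1) (fun k => (k : ℝ)) = (m + 1) * α * (α + β) ^ m := by
  rw [bin, sum_range_succ', add_pow, mul_sum]
  simp only [Nat.cast_zero, mul_zero, add_zero, Nat.add_sub_add_right]
  refine sum_congr rfl fun k _ => ?_
  have : ((m + 1 : ℕ) : ℝ) * m.choose k = (m + 1).choose (k + 1) * (k + 1 : ℕ) := by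
    exact_mod_cast Nat.add_one_mul_choose_eq m k
  push_cast at this ⊢
  rw [pow_succ]
  linear_combination (-(α ^ k * α * β ^ (m - k))) * this

/-- The number of forests with `j` given roots and `a` further points. -/
def fo (j a : ℕ) : ℝ := if a = 0 then 1 else j * ((j : ℝ) + a) ^ (a - 1)

theorem fo_nonneg (j a : ℕ) : 0 ≤ fo j a := by unfold fo; split_ifs <;> positivity

theorem fo_sum (j a : ℕ) :
    ∑ k ∈ range (a + 1), (a.choose k : ℝ) * ((j : ℝ) ^ k * fo k (a - k)) = fo j a := by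
  rcases a with _ | b
  · simp [fo]
  have h0 : ((b : ℝ) + 1) ≠ 0 := by positivity
  refine mul_left_cancel₀ h0 ?_
  have h1 := bin_id j (b + 1) b
  rw [fo, if_neg b.succ_ne_zero, Nat.add_sub_cancel, mul_sum, ← mul_assoc]
  push_cast
  rw [← h1, bin]
  refine sum_congr rfl fun k hk => ?_
  obtain ⟨c, hc⟩ := Nat.exists_eq_add_of_le (Nat.lt_succ_iff.1 (mem_range.1 hk))
  have h2 : (b : ℝ) + 1 = k + c := by exact_mod_cast hc
  rw [show b + 1 - k = c by omega, fo]
  rcases c with _ | c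
  · rw [if_pos rfl, h2]; push_cast; ring
  · rw [if_neg c.succ_ne_zero, Nat.add_sub_cancel, ← h2]; ring

variable {n L : ℕ} [NeZero L] {ℓ : ℕ}

theorem le_of_half (h : (ℓ : ℝ) / L ≤ 1 / 2) : ℓ ≤ L := by
  have : (0 : ℝ) < L := Nat.cast_pos.2 (NeZero.pos L)
  rw [div_le_iff₀ this] at h
  exact_mod_cast (show (ℓ : ℝ) ≤ L by linarith)

theorem le_one_sub_qq_pow (h : ℓ ≤ L) (j : ℕ) :
    j * ((ℓ : ℝ) / L) * qq L ℓ ^ j ≤ 1 - qq L ℓ ^ j := by
  rw [← mul_neg_geom_sum, show 1 - qq L ℓ = (ℓ : ℝ) / L by simp [qq], mul_comm (j : ℝ), mul_assoc]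
  refine mul_le_mul_of_nonneg_left ?_ (by positivity)
  have := card_nsmul_le_sum (range j) (fun i => qq L ℓ ^ i) (qq L ℓ ^ j) fun i hi =>
    pow_le_pow_of_le_one (qq_nonneg h) (qq_le_one _) (mem_range.1 hi).le
  simpa using this

theorem av_card_ge (h : (ℓ : ℝ) / L ≤ 1 / 2) {U Y : Finset (Fin n)} (hY : Y ⊆ U) (a : ℕ) :
    ((U.card - Y.card).choose a : ℝ) * fo Y.card a * ((ℓ : ℝ) / L) ^ a *
      exp (-(((ℓ : ℝ) / L + ((ℓ : ℝ) / L) ^ 2) * ((Y.card + a : ℝ) * ((U.card - Y.card : ℕ) - a) +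
        Y.card * a + a ^ 2 / 2))) ≤
    av (fun ω : Om n L => ind ((reach (op ω ℓ) U Y).card = Y.card + a)) := by
  have hL := le_of_half h
  have hq := exp_le_qq_pow h
  have hα := le_one_sub_qq_pow hL
  have hp : 0 ≤ (ℓ : ℝ) / L := by positivity
  generalize (ℓ : ℝ) / L = p at *
  have hp' : 0 ≤ p + p ^ 2 := by positivity
  generalize p + p ^ 2 = p' at *
  let G : ℕ → ℕ → ℕ → ℝ := fun j a m => (m.choose a : ℝ) * fo j a * p ^ a *
    exp (-(p' * ((j + a : ℝ) * (m - a) + j * a + a ^ 2 / 2)))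
  have hG : ∀ j a m, 0 ≤ G j a m := fun j a m => by have := fo_nonneg j a; positivity
  generalize hi : Y.card + a = i
  have := expl hL (fun t => -ind (t = i))
    (fun t j m => -if t + j ≤ i then G j (i - (t + j)) m else 0) U.card
    (fun t m _ => neg_le_neg ?_) (fun t j m _ _ => ?_) U Y 0 hY (zero_add _)
  · rw [av_neg, neg_le_neg_iff] at this
    simpa [← hi, G] using this
  · rcases lt_trichotomy t i with h1 | rfl | h1
    · rw [if_pos (by omega)]
      simp only [G, fo, if_neg (show i - (t + 0) ≠ 0 by omega), Nat.cast_zero, zero_mul, mul_zero]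
      exact ind_nonneg _
    · simp [G, fo, ind]
    · rw [if_neg (by omega)]; exact ind_nonneg _
  rw [bin_neg, neg_le_neg_iff]
  have hβ := pow_nonneg (qq_nonneg hL) j
  have hα' := sub_nonneg.2 (qq_pow_le_one hL j)
  have hb : ∀ k, 0 ≤ (m.choose k : ℝ) * ((1 - qq L ℓ ^ j) ^ k * (qq L ℓ ^ j) ^ (m - k) *
      if t + j + k ≤ i then G k (i - (t + j + k)) (m - k) else 0) := fun k => by
    have := hG k (i - (t + j + k)) (m - k)
    split_ifs <;> positivity
  split_ifs with h1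
  swap
  · exact sum_nonneg fun k _ => hb k
  obtain ⟨b, rfl⟩ := Nat.exists_eq_add_of_le h1
  rw [Nat.add_sub_cancel_left]
  rcases lt_or_ge m b with h2 | h2
  · simp only [G, Nat.choose_eq_zero_of_lt h2, Nat.cast_zero, zero_mul]
    exact sum_nonneg fun k _ => hb k
  refine le_trans ?_ (sum_le_sum_of_subset_of_nonneg (range_mono (Nat.succ_le_succ h2))
    fun k _ _ => hb k)
  simp only [G]
  rw [← fo_sum, mul_sum, sum_mul, sum_mul]
  refine sum_le_sum fun k hk => ?_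
  obtain ⟨c, rfl⟩ := Nat.exists_eq_add_of_le (Nat.lt_succ_iff.1 (mem_range.1 hk))
  obtain ⟨d, rfl⟩ := Nat.exists_eq_add_of_le h2
  rw [if_pos (by omega), show t + j + (k + c) - (t + j + k) = c by omega, Nat.add_sub_cancel_left,
    show k + c + d - k = c + d by omega]
  have h3 : ((k + c + d).choose (k + c) : ℝ) * (k + c).choose k =
      (k + c + d).choose k * (c + d).choose c := by
    have := Nat.choose_mul (n := k + c + d) (Nat.le_add_right k c)
    rw [show k + c + d - k = c + d by omega, Nat.add_sub_cancel_left] at this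
    exact_mod_cast this
  have h4 : j * p * exp (-(j * p')) ≤ 1 - qq L ℓ ^ j := le_trans (by gcongr; exact hq j) (hα j)
  have h5 := fo_nonneg k c
  calc _ = ((k + c + d).choose k : ℝ) * (c + d).choose c * fo k c * (j * p) ^ k * p ^ c *
        exp (-(p' * ((j + (k + c : ℕ) : ℝ) * ((k + c + d : ℕ) - (k + c : ℕ)) + j * (k + c : ℕ) +
          (k + c : ℕ) ^ 2 / 2))) := by rw [← h3]; ring
    _ ≤ ((k + c + d).choose k : ℝ) * (c + d).choose c * fo k c * (j * p) ^ k * p ^ c *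
        (exp (-(j * p')) ^ k * exp (-(j * p')) ^ (c + d) *
          exp (-(p' * ((k + c : ℝ) * ((c + d : ℕ) - c) + k * c + c ^ 2 / 2)))) := by
        rw [← exp_nat_mul, ← exp_nat_mul, ← exp_add, ← exp_add]
        gcongr
        push_cast
        nlinarith [mul_nonneg hp' (sq_nonneg (k : ℝ))]
    _ = ((k + c + d).choose k : ℝ) * ((j * p * exp (-(j * p'))) ^ k * exp (-(j * p')) ^ (c + d) *
        (((c + d).choose c : ℝ) * fo k c * p ^ c *
          exp (-(p' * ((k + c : ℝ) * ((c + d : ℕ) - c) + k * c + c ^ 2 / 2))))) := by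
        rw [mul_pow (j * p)]; ring
    _ ≤ _ := by gcongr; exact hq j

theorem desc_ge {M : ℕ} {p w : ℝ} (hp : 0 ≤ p) (hw : w ≤ 1 / 2) (i : ℕ)
    (h : ∀ k < i, |((M : ℝ) - k) * p - 1| ≤ w) :
    exp (p * (i * M - i * (i - 1) / 2) - i - i * w ^ 2) ≤ (M.descFactorial i : ℝ) * p ^ i := by
  induction i with
  | zero => simp
  | succ i ih =>
    have h1 := h i i.lt_succ_self
    have h2 : i ≤ M := by
      by_contra h3
      have : (M : ℝ) ≤ i := by exact_mod_cast (not_le.1 h3).le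
      nlinarith [(abs_le.1 h1).1]
    have h3 := exp_le_of_abs h1 hw
    have h4 := ih fun k hk => h k (hk.trans i.lt_succ_self)
    rw [Nat.descFactorial_succ, Nat.cast_mul, Nat.cast_sub h2]
    calc _ = exp (((M : ℝ) - i) * p - 1 - w ^ 2) *
          exp (p * (i * M - i * (i - 1) / 2) - i - i * w ^ 2) := by
          rw [← exp_add]; push_cast; congr 1; ring
      _ ≤ ((M : ℝ) - i) * p * (M.descFactorial i * p ^ i) :=
          mul_le_mul h3 h4 (exp_pos _).le ((exp_pos _).le.trans h3)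
      _ = _ := by ring

theorem tw_ge {M : ℕ} {p w : ℝ} (hp : 0 ≤ p) (hw : w ≤ 1 / 2) (i : ℕ)
    (h : ∀ k < i, |((M : ℝ) - k) * p - 1| ≤ w) :
    exp (-(i * (w ^ 2 + p ^ 2 * M))) ≤
      (M.descFactorial i : ℝ) * p ^ i * exp i * exp (-((p + p ^ 2) * (i * M - i ^ 2 / 2))) := by
  refine le_trans ?_ (mul_le_mul_of_nonneg_right (mul_le_mul_of_nonneg_right (desc_ge hp hw i h)
    (exp_pos _).le) (exp_pos _).le)
  rw [← exp_add, ← exp_add]
  refine exp_le_exp.2 ?_
  nlinarith [mul_nonneg hp (Nat.cast_nonneg (α := ℝ) i), sq_nonneg (p * i)]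

theorem fo_ge (a : ℕ) :
    exp (a + 1) * a.factorial ≤ 3 * √(a + 1) * (a + 1) * fo 1 a := by
  have h1 := Stirling.stirlingSeq'_antitone (Nat.zero_le a)
  simp only [Function.comp, Nat.succ_eq_add_one, zero_add, Stirling.stirlingSeq_one] at h1
  rw [Stirling.stirlingSeq, div_le_iff₀ (by positivity), sqrt_mul zero_le_two, div_pow,
    ← exp_nat_mul, mul_one, Nat.factorial_succ] at h1
  push_cast at h1
  have h2 : ((a : ℝ) + 1) * fo 1 a = (a + 1) ^ a := by
    rcases a with _ | a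
    · simp [fo]
    · rw [fo, if_neg a.succ_ne_zero, Nat.add_sub_cancel]; push_cast; ring
  rw [mul_assoc, h2]
  have h3 : (0 : ℝ) < a + 1 := by positivity
  have h4 : exp 1 ≤ 3 := exp_one_lt_three.le
  refine le_of_mul_le_mul_left ?_ h3
  calc _ = exp (a + 1) * ((a + 1) * a.factorial) := by ring
    _ ≤ exp (a + 1) * (exp 1 / √2 * (√2 * √(a + 1) * ((a + 1) ^ (a + 1) / exp (a + 1)))) := by
        gcongr
    _ = exp 1 * √(a + 1) * (a + 1) ^ (a + 1) := by field_simp
    _ ≤ 3 * √(a + 1) * (a + 1) ^ (a + 1) := by gcongr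
    _ = _ := by ring

theorem av_point_ge (h : (ℓ : ℝ) / L ≤ 1 / 2) {U : Finset (Fin n)} {y : Fin n} (hy : y ∈ U)
    {w : ℝ} (hw : w ≤ 1 / 2) (a : ℕ)
    (hk : ∀ k < a + 1, |((U.card : ℝ) - k) * ((ℓ : ℝ) / L) - 1| ≤ w)
    (hU : U.card * ((ℓ : ℝ) / L) ≤ 1) :
    exp (-((a + 1) * (w ^ 2 + ((ℓ : ℝ) / L) ^ 2 * U.card))) / (3 * √(a + 1) * (a + 1)) ≤
      av (fun ω : Om n L => ind ((reach (op ω ℓ) U {y}).card = a + 1)) := by
  have h1 := av_card_ge h (singleton_subset_iff.2 hy) a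
  have hp : 0 ≤ (ℓ : ℝ) / L := by positivity
  have h2 := tw_ge hp hw (a + 1) hk
  rw [card_singleton, add_comm 1 a] at h1
  refine le_trans ?_ h1
  obtain ⟨m, hm⟩ := Nat.exists_eq_add_one_of_ne_zero (card_ne_zero_of_mem hy)
  rw [hm] at h2 hU ⊢
  generalize (ℓ : ℝ) / L = p at *
  rw [Nat.succ_descFactorial_succ, Nat.descFactorial_eq_factorial_mul_choose] at h2
  rw [div_le_iff₀ (by positivity), Nat.add_sub_cancel]
  push_cast at h2 hU ⊢
  refine h2.trans ?_
  have h3 := fo_ge a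
  have h4 := fo_nonneg 1 a
  calc _ = ((m + 1) * p) * (m.choose a * p ^ a) * (exp (a + 1) * a.factorial) *
        exp (-((p + p ^ 2) * ((a + 1) * (m + 1) - (a + 1) ^ 2 / 2))) := by ring
    _ ≤ 1 * (m.choose a * p ^ a) * (3 * √(a + 1) * (a + 1) * fo 1 a) *
        exp (-((p + p ^ 2) * ((1 + a) * (m - a) + 1 * a + a ^ 2 / 2))) := by
        gcongr ?_ * _ * ?_ * exp ?_
        nlinarith [sq_nonneg p]
    _ = _ := by ring

theorem av_conn_ge (h : (ℓ : ℝ) / L ≤ 1 / 2) {U : Finset (Fin n)} {y : Fin n} (hy : y ∈ U) {a : ℕ}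
    (ha : U.card = a + 1) :
    fo 1 a * ((ℓ : ℝ) / L) ^ a * exp (-(((ℓ : ℝ) / L + ((ℓ : ℝ) / L) ^ 2) * ((a + 1) ^ 2 / 2))) ≤
      av (fun ω : Om n L => ind (reach (op ω ℓ) U {y} = U)) := by
  have h1 := av_card_ge h (singleton_subset_iff.2 hy) a
  rw [card_singleton, ha, Nat.add_sub_cancel, Nat.choose_self, Nat.cast_one, one_mul] at h1
  refine le_trans ?_ (h1.trans (av_mono fun ω => ind_mono fun h2 =>
    eq_of_subset_of_card_le reach_sub (by omega)))
  have hp : 0 ≤ (ℓ : ℝ) / L := by positivity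
  have h4 := fo_nonneg 1 a
  gcongr _ * exp ?_
  nlinarith [sq_nonneg ((ℓ : ℝ) / L)]

end

end Pool.Agent.P.MP_5fda20_pr
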