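import Pool.Agent.P.MP_5fda20_pr.Run
import Pool.Agent.P.MP_5fda20_pr.Tree

/-! Component sizes above the critical window. -/

namespace Pool.Agent.P.MP_5fda20_pr

open Finset Real

noncomputable section

variable {n L : ℕ} [NeZero L] {ℓ : ℕ} {ε : ℝ}

theorem lo_one (h : ℓ ≤ L) (u : Fin n) (h0 : 0 < ε) (h1 : ε ≤ 1) (hp : 1 + ε ≤ (ℓ : ℝ) / L * n)
    (i : ℕ) (hs : (i + 1) * (1 + ε) ≤ 5 / 4 * ε * n) :
    av (fun ω : Om n L => ind ((cp ω ℓ u).card = i + 1)) ≤ exp (-(i * ε ^ 2 / 1600)) := by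
  refine (av_card_lo h u (γ := ε / 20) (by positivity) (by linarith) i ?_).trans_eq (by ring_nf)
  have hn : (1 : ℝ) ≤ n := by exact_mod_cast u.pos
  have hi : (0 : ℝ) ≤ i := i.cast_nonneg
  obtain ⟨y, hy⟩ : ∃ y : ℝ, y = (i + 1) * (1 + ε) / n := ⟨_, rfl⟩
  have y0 : 0 ≤ y := by rw [hy]; positivity
  have y1 : y ≤ 5 / 4 * ε := by rw [hy, div_le_iff₀ (by linarith)]; exact hs
  have y2 : y * n = (i + 1) * (1 + ε) := by rw [hy]; field_simp
  have h2 : qq L ℓ ^ (i + 1) ≤ 1 / (1 + y + y ^ 2 / 2) := by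
    refine (qq_pow_le_exp h _).trans ?_
    rw [exp_neg, one_div]
    refine inv_anti₀ (by positivity) ((quadratic_le_exp_of_nonneg y0).trans (exp_le_exp.2 ?_))
    rw [hy, div_le_iff₀ (by linarith), mul_assoc]
    push_cast
    gcongr
  have h3 : (1 + ε / 20) * (1 + y + y ^ 2 / 2) ≤ (1 + ε) * (1 + y / 2) := by
    nlinarith [mul_nonneg y0 (sub_nonneg.2 y1), mul_nonneg h0.le (sub_nonneg.2 y1),
      mul_nonneg (mul_nonneg y0 h0.le) (sub_nonneg.2 y1), mul_nonneg h0.le (sub_nonneg.2 h1),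
      mul_nonneg (mul_nonneg y0 h0.le) (sub_nonneg.2 h1)]
  have h4 : (i : ℝ) * (1 + ε) ≤ (n - 1) * y := by nlinarith
  have hD : 0 < 1 + y + y ^ 2 / 2 := by positivity
  refine le_trans ?_ (mul_le_mul_of_nonneg_left (sub_le_sub_left h2 1) (by linarith))
  rw [one_sub_div hD.ne', ← mul_div_assoc, le_div_iff₀ hD]
  nlinarith [mul_le_mul_of_nonneg_left h3 hi, mul_le_mul_of_nonneg_right h4 (by positivity : 0 ≤ 1 + y / 2)]

theorem hi_one (h : ℓ ≤ L) (u : Fin n) (h0 : 0 < ε) (h1 : ε ≤ 1 / 8)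
    (hp : (ℓ : ℝ) / L * n = 1 + ε) (hn : 8 ≤ ε ^ 2 * n) (i : ℕ) (hs : 8 * ε * n ≤ i + 1)
    (hs' : i + 1 ≤ n) :
    av (fun ω : Om n L => ind ((cp ω ℓ u).card = i + 1)) ≤ exp (-(i * ε ^ 2 / 8)) := by
  refine (av_card_hi h u (γ := ε / 2) (by positivity) i ?_).trans_eq (by ring_nf)
  have hq := fun h => exp_le_qq_pow (L := L) (ℓ := ℓ) h (i + 1)
  have p0 : 0 ≤ (ℓ : ℝ) / L := by positivity
  generalize (ℓ : ℝ) / L = p at *
  have hs2 : (i : ℝ) + 1 ≤ n := by exact_mod_cast hs'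
  have hi : (0 : ℝ) ≤ i := i.cast_nonneg
  have n0 : (0 : ℝ) < n := by linarith
  have n1 : 64 ≤ ε * n := by nlinarith
  have p1 : p ≤ ε / 4 := by
    refine le_of_mul_le_mul_right ?_ n0
    linarith
  have hq := hq (by linarith)
  push_cast at hq
  obtain ⟨y, hy⟩ : ∃ y : ℝ, y = (i + 1) * (p + p ^ 2) := ⟨_, rfl⟩
  rw [← hy] at hq
  have y0 : y * n = (i + 1) * ((1 + ε) * (1 + p)) := by rw [hy, ← hp]; ring
  have y3 : (1 + ε) * (1 + p) ≤ 2 := by nlinarith
  have y1 : y ≤ 2 := le_of_mul_le_mul_right (by rw [y0]; nlinarith) n0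
  have y2 : 8 * ε ≤ y := le_of_mul_le_mul_right (by
    rw [y0]; nlinarith [mul_nonneg h0.le p0]) n0
  have h2 : (1 - y / 2) ^ 2 ≤ exp (-y) := by
    have := pow_le_exp (x := -(y / 2)) (by linarith) 2
    exact this.trans_eq (by push_cast; ring_nf)
  have h3 : 1 - qq L ℓ ^ (i + 1) ≤ y * (1 - 2 * ε) := by nlinarith
  have h4 : (1 + ε) * (1 + p) * (1 - 2 * ε) ≤ 1 - 3 / 4 * ε := by
    nlinarith [mul_nonneg h0.le p0, mul_nonneg (mul_nonneg h0.le h0.le) p0]
  have h5 : 0 ≤ y * (1 - 2 * ε) := mul_nonneg (by linarith) (by linarith)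
  have h6 := qq_pow_le_one h (i + 1)
  calc _ ≤ (n : ℝ) * (y * (1 - 2 * ε)) := mul_le_mul (by linarith) h3 (by linarith) n0.le
    _ = (i + 1) * ((1 + ε) * (1 + p) * (1 - 2 * ε)) := by rw [← mul_assoc, mul_comm _ y, y0]; ring
    _ ≤ (i + 1) * (1 - 3 / 4 * ε) := by gcongr
    _ ≤ _ := by nlinarith

omit [NeZero L] in
theorem av_size_le (u : Fin n) (P : ℕ → Prop) {δ : ℝ} (h0 : 0 ≤ δ)
    (h : ∀ i, i + 1 ≤ n → P (i + 1) → av (fun ω : Om n L => ind ((cp ω ℓ u).card = i + 1)) ≤ δ) :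
    av (fun ω : Om n L => ind (P (cp ω ℓ u).card)) ≤ n * δ := by
  have := av_exists_le (range n) (fun i (ω : Om n L) => P (i + 1) ∧ (cp ω ℓ u).card = i + 1)
    (c := δ) fun i hi => by
      by_cases hP : P (i + 1)
      · exact (av_mono fun ω => ind_mono fun a => a.2).trans (h i (mem_range.1 hi) hP)
      · exact (av_congr fun ω => ind_of_not fun a => hP a.1).trans_le (av_zero.trans_le h0)
  rw [card_range] at this
  refine (av_mono fun ω => ind_mono fun hP => ?_).trans this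
  obtain ⟨i, hi⟩ := Nat.exists_eq_add_one_of_ne_zero (card_ne_zero_of_mem (self_mem_cp (ω := ω)
    (ℓ := ℓ) (u := u)))
  have := card_le_univ (cp ω ℓ u)
  rw [Fintype.card_fin] at this
  exact ⟨i, mem_range.2 (by omega), hi ▸ hP, hi⟩

theorem av_E2 (h : ℓ ≤ L) (u : Fin n) (h0 : 0 < ε) (h1 : ε ≤ 1) (hp : 1 + ε ≤ (ℓ : ℝ) / L * n)
    (K : ℝ) : av (fun ω : Om n L => ind (K / ε ^ 2 ≤ (cp ω ℓ u).card ∧
      (cp ω ℓ u).card * (1 + ε) ≤ 5 / 4 * ε * n)) ≤ n * exp (-((K - 1) / 1600)) :=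
  av_size_le u (fun s => K / ε ^ 2 ≤ s ∧ s * (1 + ε) ≤ 5 / 4 * ε * n) (exp_pos _).le
    fun i _ hi => by
      push_cast at hi
      refine (lo_one h u h0 h1 hp i hi.2).trans (exp_le_exp.2 ?_)
      have := (div_le_iff₀ (by positivity)).1 hi.1
      nlinarith

theorem av_E3 (h : ℓ ≤ L) (u : Fin n) (h0 : 0 < ε) (h1 : ε ≤ 1 / 8)
    (hp : (ℓ : ℝ) / L * n = 1 + ε) (hn : 8 ≤ ε ^ 2 * n) :
    av (fun ω : Om n L => ind (8 * ε * n ≤ (cp ω ℓ u).card)) ≤ n * exp (-(ε ^ 3 * n - 1)) :=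
  av_size_le u (fun s => 8 * ε * n ≤ s) (exp_pos _).le fun i hi' hi => by
    push_cast at hi
    refine (hi_one h u h0 h1 hp hn i hi hi').trans (exp_le_exp.2 ?_)
    nlinarith [mul_le_mul_of_nonneg_left hi (sq_nonneg ε)]

omit [NeZero L] in
theorem sub_crit (hp : (ℓ : ℝ) / L * n = 1 + ε) (h0 : 0 < ε) {D U : Finset (Fin n)}
    (hD : 5 / 4 * ε * n ≤ D.card * (1 + ε)) (hU : U ⊆ univ \ D) :
    U.card * ((ℓ : ℝ) / L) ≤ 1 - ε / 4 := by
  have h1 : U.card + D.card ≤ n := by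
    have := card_le_card hU
    rw [card_univ_sdiff, Fintype.card_fin] at this
    have h2 := card_le_univ D
    rw [Fintype.card_fin] at h2
    omega
  have h2 : (U.card : ℝ) ≤ n - D.card := by
    rw [le_sub_iff_add_le]; exact_mod_cast h1
  have n0 : (0 : ℝ) < n := by
    rcases (Nat.cast_nonneg (α := ℝ) n).eq_or_lt with h | h
    · rw [← h] at hp; linarith
    · exact h
  refine le_of_mul_le_mul_right ?_ n0
  rw [mul_assoc, hp]
  nlinarith

theorem av_E1 (h : ℓ ≤ L) (u y : Fin n) (h0 : 0 < ε) (h1 : ε ≤ 1)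
    (hp : (ℓ : ℝ) / L * n = 1 + ε) (K : ℝ) :
    av (fun ω : Om n L => ind (5 / 4 * ε * n ≤ (cp ω ℓ u).card * (1 + ε) ∧ y ∉ cp ω ℓ u ∧
      K / ε ^ 2 ≤ (cp ω ℓ y).card)) ≤ 2 * exp (-(K / 32)) := by
  have := peel (ℓ := ℓ) (L := L) (subset_univ {u}) (B := fun D ω => ind (5 / 4 * ε * n ≤ D.card * (1 + ε) ∧
    y ∉ D ∧ K / ε ^ 2 ≤ (reach (op ω ℓ) (univ \ D) {y}).card)) (b := fun _ => 2 * exp (-(K / 32)))
    (fun D _ => (dep_reach ℓ _ _).comp fun E => ind (5 / 4 * ε * n ≤ D.card * (1 + ε) ∧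
      y ∉ D ∧ K / ε ^ 2 ≤ (E.card : ℝ))) fun D _ _ => by
      by_cases hD : 5 / 4 * ε * n ≤ D.card * (1 + ε) ∧ y ∉ D
      · refine (av_mono fun ω => ind_mono fun a => a.2.2).trans ((av_tail h (mem_sdiff.2
          ⟨mem_univ _, hD.2⟩) (η := ε / 4) (by positivity) (sub_crit hp h0 hD.1 Subset.rfl) _).trans ?_)
        rw [show (ε / 4) ^ 2 / 2 * (K / ε ^ 2) = K / 32 by field_simp; ring]
        gcongr; linarith
      · exact av_le fun ω => by rw [ind_of_not fun a => hD ⟨a.1, a.2.1⟩]; positivity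
  rw [av_const] at this
  refine (av_mono fun ω => ind_mono fun a => ⟨a.1, a.2.1, ?_⟩).trans this
  rw [reach_peel (mem_sdiff.2 ⟨mem_univ _, a.2.1⟩)]
  exact a.2.2

/-- The number of points of `U` in components of size at least `k`. -/
def big (ω : Om n L) (ℓ : ℕ) (k : ℝ) (U : Finset (Fin n)) : ℝ :=
  ∑ y ∈ U, ind (k ≤ (reach (op ω ℓ) U {y}).card)

omit [NeZero L] in
theorem big_nonneg (ω : Om n L) (k : ℝ) (U : Finset (Fin n)) : 0 ≤ big ω ℓ k U :=
  sum_nonneg fun _ _ => ind_nonneg _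

omit [NeZero L] in
theorem dep_big (k : ℝ) (U : Finset (Fin n)) : Dep (inn U) fun ω : Om n L => big ω ℓ k U :=
  Dep.sum U fun y _ => (dep_reach ℓ U {y}).comp fun E => ind (k ≤ (E.card : ℝ))

omit [NeZero L] in
theorem big_peel (ω : Om n L) (k : ℝ) {U : Finset (Fin n)} {y : Fin n} (hy : y ∈ U) :
    big ω ℓ k U = (reach (op ω ℓ) U {y}).card * ind (k ≤ (reach (op ω ℓ) U {y}).card) +
      big ω ℓ k (U \ reach (op ω ℓ) U {y}) := by
  rw [big, ← sum_sdiff (reach_sub (O := op ω ℓ) (Y := {y})), add_comm, big,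
    sum_congr rfl fun z hz => by rw [reach_eq_of_mem hy hz], sum_const, nsmul_eq_mul]
  exact congrArg _ (sum_congr rfl fun z hz => by rw [reach_peel hz])

theorem av_big_point (h0 : 0 < ε) (h1 : ε ≤ 1 / 20) (hp : (ℓ : ℝ) / L * n = 1 + ε)
    (hn : 8 ≤ ε ^ 3 * n) {U : Finset (Fin n)} {y : Fin n} (hy : y ∈ U)
    (hU : U.card * ((ℓ : ℝ) / L) ≤ 1) (hU' : (1 - 9 * ε) * n ≤ U.card) :
    exp (-405) * ε ≤ av (fun ω : Om n L => ind (1 / ε ^ 2 ≤ (reach (op ω ℓ) U {y}).card)) := by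
  have hpt := fun h a hk => av_point_ge (n := n) (L := L) (ℓ := ℓ) h hy (w := 10 * ε)
    (by linarith) a hk hU
  have p0 : 0 ≤ (ℓ : ℝ) / L := by positivity
  generalize (ℓ : ℝ) / L = p at *
  have n0 : (0 : ℝ) < n := by
    have : 0 < ε ^ 3 * n := by linarith
    exact pos_of_mul_pos_left this (by positivity) |> fun h => by
      rcases (Nat.cast_nonneg (α := ℝ) n).eq_or_lt with h' | h'
      · rw [← h'] at hp; linarith
      · exact h'
  have e3 : ε ^ 3 ≤ ε ^ 2 / 20 := by nlinarith [sq_nonneg ε]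
  have e2 : ε ^ 2 ≤ 1 / 400 := by nlinarith
  have p1 : p ≤ ε ^ 3 / 4 := le_of_mul_le_mul_right (by linarith) n0
  obtain ⟨m, m1, m2⟩ : ∃ m : ℕ, 1 ≤ (m + 1) * ε ^ 2 ∧ (m + 1) * ε ^ 2 ≤ 2 := by
    refine ⟨⌊1 / ε ^ 2⌋₊, ?_, ?_⟩
    · exact (div_le_iff₀ (by positivity)).1 (Nat.lt_floor_add_one _).le
    · have := (le_div_iff₀ (by positivity)).1 (Nat.floor_le (a := 1 / ε ^ 2) (by positivity))
      nlinarith
  have hm : (0 : ℝ) ≤ m := m.cast_nonneg
  calc _ ≤ ∑ _a ∈ Ico m (m + (m + 1)), exp (-405) * ε / (m + 1) := by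
        rw [sum_const, Nat.card_Ico, Nat.add_sub_cancel_left, nsmul_eq_mul]
        push_cast
        rw [mul_div_cancel₀ _ (by positivity)]
    _ ≤ ∑ a ∈ Ico m (m + (m + 1)),
        av (fun ω : Om n L => ind ((reach (op ω ℓ) U {y}).card = a + 1)) := by
        refine sum_le_sum fun a ha => le_trans ?_ (hpt (by nlinarith) a fun k hk => ?_)
        · have a1 : (a : ℝ) + 1 ≤ 2 * (m + 1) := by
            have : a + 1 ≤ 2 * (m + 1) := by have := (mem_Ico.1 ha).2; omega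
            exact_mod_cast this
          have a0 : (0 : ℝ) ≤ a := a.cast_nonneg
          have a2 : √(a + 1 : ℝ) ≤ 2 / ε := by
            rw [sqrt_le_left (by positivity), div_pow, le_div_iff₀ (by positivity)]
            nlinarith [sq_nonneg ε]
          have a3 : p ^ 2 * U.card ≤ ε ^ 2 / 4 := by nlinarith
          have a4 : exp (-402) ≤ exp (-((a + 1) * ((10 * ε) ^ 2 + p ^ 2 * U.card))) := by
            refine exp_le_exp.2 (neg_le_neg ?_)
            calc _ ≤ (2 * (m + 1)) * ((10 * ε) ^ 2 + ε ^ 2 / 4) := by gcongr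
              _ ≤ _ := by nlinarith
          have a5 : 12 * exp (-405) ≤ exp (-402) := by
            rw [show (-402 : ℝ) = 3 + -405 by norm_num, exp_add]
            gcongr
            have := pow_le_pow_left₀ (by norm_num) exp_one_gt_d9.le 3
            rw [← exp_nat_mul] at this
            norm_num at this ⊢
            linarith
          rw [div_le_div_iff₀ (by positivity) (by positivity)]
          calc _ ≤ exp (-405) * ε * (3 * (2 / ε) * (2 * (m + 1))) := by gcongr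
            _ = 12 * exp (-405) * (m + 1) := by field_simp; norm_num
            _ ≤ _ := by gcongr; exact a5.trans a4
        · have a1 : (k : ℝ) ≤ 2 * (m + 1) := by
            have : k ≤ 2 * (m + 1) := by have := (mem_Ico.1 ha).2; omega
            exact_mod_cast this
          have a0 : (0 : ℝ) ≤ k := k.cast_nonneg
          have a2 : k * p ≤ ε := by
            calc _ ≤ 2 * (m + 1) * (ε ^ 3 / 4) := by gcongr
              _ ≤ _ := by nlinarith
          have a3 : 1 - 9 * ε ≤ U.card * p := by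
            calc _ ≤ (1 - 9 * ε) * (p * n) := by rw [hp]; nlinarith
              _ = (1 - 9 * ε) * n * p := by ring
              _ ≤ _ := by gcongr
          rw [abs_le]
          constructor <;> nlinarith [mul_nonneg a0 p0]
    _ ≤ _ := by
        rw [← av_sum]
        refine av_mono fun ω => ?_
        rw [sum_ind_unique _ _ fun a _ b _ h h' => by omega]
        refine ind_mono fun ⟨a, ha, h⟩ => ?_
        have a1 : (m : ℝ) ≤ a := by exact_mod_cast (mem_Ico.1 ha).1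
        rw [h, div_le_iff₀ (by positivity)]
        push_cast
        nlinarith [sq_nonneg ε]

theorem av_exp_big (h : ℓ ≤ L) (h0 : 0 < ε) (h1 : ε ≤ 1 / 20) (hp : (ℓ : ℝ) / L * n = 1 + ε)
    (hn : 8 ≤ ε ^ 3 * n) (U : Finset (Fin n)) (hU : U.card * ((ℓ : ℝ) / L) ≤ 1 - ε / 4) :
    av (fun ω : Om n L => exp (-(ε ^ 2 * big ω ℓ (1 / ε ^ 2) U))) ≤
      exp (-(exp (-405) * ε ^ 2 / 16 * (U.card - (1 - 9 * ε) * n))) := by
  have c0 : 0 < exp (-405) := exp_pos _
  have c1 : exp (-405) ≤ 1 / 2 := by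
    rw [exp_neg, one_div]
    exact inv_anti₀ two_pos (by linarith [add_one_le_exp 405])
  have hpt := fun U y hy hU hU' => av_big_point (L := L) (U := U) (y := y) h0 h1 hp hn hy hU hU'
  generalize exp (-405) = c at *
  obtain ⟨γ, hγ⟩ : ∃ γ, γ = c * ε ^ 2 / 16 := ⟨_, rfl⟩
  have g0 : 0 < γ := by rw [hγ]; positivity
  rw [← hγ]
  induction U using Finset.strongInduction with
  | _ U ih =>
  rcases le_or_gt (U.card : ℝ) ((1 - 9 * ε) * n) with h2 | h2
  · refine av_le fun ω => exp_le_exp.2 ?_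
    nlinarith [mul_nonneg (sq_nonneg ε) (big_nonneg (ℓ := ℓ) ω (1 / ε ^ 2) U)]
  obtain ⟨y, hy⟩ : U.Nonempty := card_pos.1 (by
    have : (0 : ℝ) ≤ (1 - 9 * ε) * n := mul_nonneg (by linarith) n.cast_nonneg
    exact_mod_cast this.trans_lt h2)
  have := peel (ℓ := ℓ) (L := L) (singleton_subset_iff.2 hy)
    (B := fun D ω => exp (-(ε ^ 2 * (D.card * ind (1 / ε ^ 2 ≤ (D.card : ℝ))))) *
      exp (-(ε ^ 2 * big ω ℓ (1 / ε ^ 2) (U \ D))))
    (b := fun D => exp (-(γ * (U.card - (1 - 9 * ε) * n))) *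
      (exp (γ * D.card) - ind (1 / ε ^ 2 ≤ (D.card : ℝ)) / 2))
    (fun D _ => (dep_big _ _).comp fun t => exp (-(ε ^ 2 * (D.card *
      ind (1 / ε ^ 2 ≤ (D.card : ℝ))))) * exp (-(ε ^ 2 * t))) fun D hD hyD => by
      rw [av_const_mul]
      have h3 := ih (U \ D) (sdiff_ssubset hD ⟨y, singleton_subset_iff.1 hyD⟩)
        (le_trans (by gcongr; exact sdiff_subset) hU)
      rw [card_sdiff_of_subset hD, Nat.cast_sub (card_le_card hD)] at h3
      refine (mul_le_mul_of_nonneg_left h3 (exp_pos _).le).trans ?_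
      rw [show -(γ * ((U.card : ℝ) - D.card - (1 - 9 * ε) * n)) =
        -(γ * (U.card - (1 - 9 * ε) * n)) + γ * D.card by ring, exp_add, mul_left_comm]
      refine mul_le_mul_of_nonneg_left ?_ (exp_pos _).le
      have h4 : 1 ≤ exp (γ * D.card) := one_le_exp (by positivity)
      by_cases h5 : 1 / ε ^ 2 ≤ (D.card : ℝ)
      · have h6 : exp (-(ε ^ 2 * (D.card * 1))) ≤ 1 / 2 := by
          rw [exp_neg, one_div]
          refine inv_anti₀ two_pos (le_trans ?_ (add_one_le_exp _))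
          have := (div_le_iff₀ (by positivity)).1 h5
          linarith
        rw [ind_of h5]
        nlinarith
      · rw [ind_of_not h5]; simp
  refine le_trans (av_congr fun ω => ?_).le (this.trans ?_)
  · rw [big_peel ω _ hy, ← exp_add]; ring_nf
  rw [av_const_mul, av_sub]
  refine mul_le_of_le_one_right (exp_pos _).le ?_
  have h3 := av_exp_small (L := L) h hy (η := ε / 4) (by positivity) hU g0.le (by
    rw [hγ]; nlinarith [sq_nonneg ε])
  have h4 := hpt U y hy (by linarith) h2.le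
  simp only [div_eq_mul_inv _ (2 : ℝ), av_mul_const]
  have h5 : 2 * γ / (ε / 4) = c * ε / 2 := by rw [hγ]; field_simp; norm_num
  linarith

theorem av_E4 (h : ℓ ≤ L) (u : Fin n) (h0 : 0 < ε) (h1 : ε ≤ 1 / 20)
    (hp : (ℓ : ℝ) / L * n = 1 + ε) (hn : 8 ≤ ε ^ 3 * n) :
    av (fun ω : Om n L => ind (5 / 4 * ε * n ≤ (cp ω ℓ u).card * (1 + ε) ∧
      ((cp ω ℓ u).card : ℝ) ≤ 8 * ε * n ∧
      big ω ℓ (1 / ε ^ 2) (univ \ cp ω ℓ u) ≤ exp (-405) / 32 * ε * n)) ≤
      exp (-(exp (-405) / 32 * (ε ^ 3 * n))) := by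
  have := peel (ℓ := ℓ) (L := L) (subset_univ {u})
    (B := fun D ω => ind (5 / 4 * ε * n ≤ D.card * (1 + ε) ∧ (D.card : ℝ) ≤ 8 * ε * n ∧
      big ω ℓ (1 / ε ^ 2) (univ \ D) ≤ exp (-405) / 32 * ε * n))
    (b := fun _ => exp (-(exp (-405) / 32 * (ε ^ 3 * n))))
    (fun D _ => (dep_big _ _).comp fun t => ind (5 / 4 * ε * n ≤ D.card * (1 + ε) ∧
      (D.card : ℝ) ≤ 8 * ε * n ∧ t ≤ exp (-405) / 32 * ε * n)) fun D _ _ => by
      by_cases hD : 5 / 4 * ε * n ≤ D.card * (1 + ε) ∧ (D.card : ℝ) ≤ 8 * ε * n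
      · have h2 := av_exp_big h h0 h1 hp hn _ (sub_crit hp h0 hD.1 Subset.rfl)
        rw [card_univ_sdiff, Fintype.card_fin, Nat.cast_sub (by simpa using card_le_univ D)] at h2
        have c0 : 0 < exp (-405) := exp_pos _
        generalize exp (-405) = c at *
        calc _ ≤ av (fun ω : Om n L => exp (c / 32 * (ε ^ 3 * n)) *
              exp (-(ε ^ 2 * big ω ℓ (1 / ε ^ 2) (univ \ D)))) :=
              av_mono fun ω => ind_le (by positivity) fun a => by
                rw [← exp_add]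
                exact one_le_exp (by nlinarith [mul_le_mul_of_nonneg_left a.2.2 (sq_nonneg ε)])
          _ ≤ exp (c / 32 * (ε ^ 3 * n)) * _ :=
              (av_const_mul _ _).trans_le (mul_le_mul_of_nonneg_left h2 (exp_pos _).le)
          _ ≤ _ := by
              rw [← exp_add]
              refine exp_le_exp.2 ?_
              nlinarith [mul_le_mul_of_nonneg_left hD.2 (mul_nonneg c0.le (sq_nonneg ε))]
      · exact av_le fun ω => by rw [ind_of_not fun a => hD ⟨a.1, a.2.1⟩]; positivity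
  rwa [av_const] at this

end

end Pool.Agent.P.MP_5fda20_pr
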