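import Pool.Agent.P.MP_5fda20_pr.Up

/-! The clock of a large component near the critical window. -/

namespace Pool.Agent.P.MP_5fda20_pr

open Finset Real

noncomputable section

variable {n N L l m ℓ ℓ' : ℕ} {ω : Om n L} {u : Fin n} {R : Finset (Fin n)} {ε ε' : ℝ}

/-- Sum of the squared sizes of the blocks attached to `R`. -/
def XX (ω : Om n L) (ℓ : ℕ) (R : Finset (Fin n)) : ℝ :=
  ∑ z ∈ nbr (op ω ℓ) R Rᶜ, ((reach (op ω ℓ) Rᶜ {z}).card : ℝ) ^ 2

theorem XX_nonneg : 0 ≤ XX ω ℓ R := sum_nonneg fun _ _ => sq_nonneg _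

theorem clk_le_XX (hI : Function.Injective ω) (hR : cp ω ℓ u = R) (h : ℓ ≤ ℓ') :
    clk (cs ω R) ℓ ℓ' ≤ XX ω ℓ' R / R.card ^ 2 := by
  have c1 : ∀ i, ℓ ≤ i → cs ω R i = (cp ω i u).card := fun i hi => by rw [cs, ← hR, reach_cp hi]
  let B : ℕ → ℝ := fun i => ∑ y ∈ cp ω i u \ R, (reach (op ω ℓ') Rᶜ {y}).card
  have h1 : B ℓ' ≤ XX ω ℓ' R := by
    have e : cp ω ℓ' u \ R ⊆ reach (op ω ℓ') Rᶜ (nbr (op ω ℓ') R Rᶜ) := by
      rw [← reach_cp h, hR, reach_step (subset_univ R), union_sdiff_left]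
      exact sdiff_subset
    calc _ ≤ ∑ y ∈ cp ω ℓ' u \ R, ∑ z ∈ nbr (op ω ℓ') R Rᶜ, ind (y ∈ reach (op ω ℓ') Rᶜ {z}) *
          (reach (op ω ℓ') Rᶜ {z}).card := by
          refine sum_le_sum fun y hy => ?_
          obtain ⟨h2, z, hz, h3⟩ := mem_reach.1 (e hy)
          have h4 : y ∈ reach (op ω ℓ') Rᶜ {z} := mem_reach.2 ⟨h2, z, mem_singleton_self z, h3⟩
          refine le_trans (le_of_eq ?_) (single_le_sum (fun z _ =>
            mul_nonneg (ind_nonneg _) (Nat.cast_nonneg _)) hz)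
          rw [ind_of h4, one_mul, reach_eq_of_mem (nbr_sub hz) h4]
      _ ≤ _ := by
          rw [sum_comm]
          refine sum_le_sum fun z _ => ?_
          rw [← sum_mul, sq, sum_ind_eq_card]
          gcongr
          exact fun y hy => (mem_filter.1 hy).2
  refine le_trans ?_ (div_le_div_of_nonneg_right ((sub_le_self _ (show 0 ≤ B ℓ by positivity)).trans h1)
    (sq_nonneg _))
  rw [← sum_Ico_sub B h, sum_div]
  refine sum_le_sum fun i hi => ?_
  obtain ⟨i1, i2⟩ := mem_Ico.1 hi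
  have r1 : R ⊆ cp ω i u := hR ▸ cp_mono i1
  have h2 : ((cs ω R (i + 1) : ℝ) - cs ω R i) ^ 2 ≤ B (i + 1) - B i := by
    rw [c1 i i1, c1 (i + 1) (by omega)]
    rcases cp_succ_cases hI i u with h2 | ⟨y, hy, h2⟩
    · simp only [B, h2, sub_self]; norm_num
    have d1 := cp_disjoint hy
    have d2 : Disjoint (cp ω i y) R := (d1.mono_left r1).symm
    simp only [B]
    rw [h2, card_union_of_disjoint d1, union_sdiff_distrib, sum_union
      (d1.mono sdiff_subset sdiff_subset), Nat.cast_add, add_sub_cancel_left,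
      add_sub_cancel_left, sdiff_eq_self_of_disjoint d2, sq, ← nsmul_eq_mul]
    refine card_nsmul_le_sum _ _ _ fun z hz => Nat.cast_le.2 (card_le_card ?_)
    rw [← cp_eq hz, cp, ← reach_local (D := Rᶜ) (subset_compl_iff_disjoint_right.2
      (cp_eq hz ▸ d2 : Disjoint (cp ω i z) R)) (subset_univ _)]
    exact reach_op_mono i2.le Subset.rfl Subset.rfl
  rw [sg, div_pow]
  exact div_le_div₀ ((sq_nonneg _).trans h2) h2 (pow_pos (Nat.cast_pos.2 (card_pos.2
    ⟨u, hR ▸ self_mem_cp⟩)) 2) (by rw [c1 i i1]; gcongr)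

theorem dep_XX : Dep (inn R)ᶜ fun ω : Om n L => XX ω ℓ R := fun ω ω' e => by
  have h1 : nbr (op ω ℓ) R Rᶜ = nbr (op ω' ℓ) R Rᶜ := Finset.ext fun b => by
    simp only [mem_nbr, op]
    exact and_congr_right fun hb => exists_congr fun a => by
      rw [e _ fun h => mem_compl.1 hb (mk_mem_inn.1 h).2]
  simp only [XX, h1, fun z => (dep_reach ℓ Rᶜ {z}).mono (Set.subset_compl_iff_disjoint_right.2
    (inn_disjoint disjoint_compl_left)) ω ω' e]

theorem dep_ge_out : Dep (inn R)ᶜ fun ω : Om n L => ind (Ge ω R Rᶜ ℓ) :=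
  ((dep_ge R Rᶜ ℓ).mono (Set.subset_compl_iff_disjoint_right.2
    (crs_disjoint_right disjoint_compl_left))).ind

/-- One step of the ladder. -/
structure Rung (n L ℓ ℓ' : ℕ) (ε ε' : ℝ) : Prop where
  le : ℓ ≤ ℓ'
  lt : ℓ' < L
  p : (ℓ : ℝ) / L * n = 1 + ε
  p' : (ℓ' : ℝ) / L * n = 1 + ε'
  e0 : 0 < ε
  e1 : ε ≤ 1 / 100
  e2 : 10 / 9 * ε ≤ ε'
  e3 : ε' ≤ 9 / 8 * ε
  big : 10 ^ 6 ≤ ε ^ 3 * n

theorem Rung.en (h : Rung n L ℓ ℓ' ε ε') : 10 ^ 6 ≤ ε * n :=
  h.big.trans (by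
    gcongr ?_ * _
    simpa using pow_le_pow_of_le_one h.e0.le (h.e1.trans (by norm_num)) (show 1 ≤ 3 by norm_num))

theorem Rung.n0 (h : Rung n L ℓ ℓ' ε ε') : (10 : ℝ) ^ 8 ≤ n := by
  nlinarith [h.en, h.e1, Nat.cast_nonneg (α := ℝ) n]

theorem Rung.pe (h : Rung n L ℓ ℓ' ε ε') : (ℓ : ℝ) / L = (1 + ε) / n :=
  eq_div_of_mul_eq (by linarith [h.n0]) h.p

theorem Rung.pe' (h : Rung n L ℓ ℓ' ε ε') : (ℓ' : ℝ) / L = (1 + ε') / n :=
  eq_div_of_mul_eq (by linarith [h.n0]) h.p'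

theorem Rung.small (h : Rung n L ℓ ℓ' ε ε') : (ℓ : ℝ) / L ≤ 1 / 100 := by
  rw [h.pe, div_le_iff₀ (by linarith [h.n0])]; linarith [h.n0, h.e1]

variable [NeZero L]

theorem av_XX (h : Rung n L ℓ ℓ' ε ε') (hr : 6 / 5 * ε * n ≤ R.card) :
    av (fun ω : Om n L => ind (Ge ω R Rᶜ ℓ) * (XX ω ℓ' R / R.card ^ 2)) ≤
      3500 / (ε ^ 3 * n) * av (fun ω : Om n L => ind (Ge ω R Rᶜ ℓ)) := by
  have e0 := h.e0
  have n0 := h.n0
  have r0 : (0 : ℝ) < R.card := lt_of_lt_of_le (by positivity) hr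
  have hc : (Rᶜ.card : ℝ) = n - R.card := by
    rw [card_compl, Nat.cast_sub (card_le_univ R), Fintype.card_fin]
  have hU : Rᶜ.card * ((ℓ' : ℝ) / L) ≤ 1 - ε / 16 := by
    rw [hc, h.pe', ← mul_div_assoc, div_le_iff₀ (by linarith)]
    have : (n - R.card) * (1 + ε') ≤ (n - 6 / 5 * ε * n) * (1 + 9 / 8 * ε) :=
      mul_le_mul (by linarith) (by linarith [h.e3]) (by linarith [h.e2]) (by nlinarith [h.e1])
    nlinarith [mul_nonneg (mul_nonneg e0.le e0.le) (show (0 : ℝ) ≤ n by linarith)]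
  have h1 := strike (R := R) (W := Rᶜ) disjoint_compl_right h.le h.lt.le (J := inn Rᶜ)
    (crs_disjoint_left disjoint_compl_right)
    (Φ := fun Y ω => (∑ z ∈ Y, ((reach (op ω ℓ') Rᶜ {z}).card : ℝ) ^ 2) * (ε ^ 3 / 32768))
    (fun Y _ => (Dep.sum Y fun z _ => (dep_reach ℓ' Rᶜ {z}).comp
      fun D => (D.card : ℝ) ^ 2).comp (· * (ε ^ 3 / 32768))) (f := fun k => k) fun Y hY => by
      rw [av_mul_const, av_sum]
      refine (mul_le_mul_of_nonneg_right (sum_le_card_nsmul _ _ _ fun z hz =>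
        av_sq h.lt.le (hY hz) (by positivity) hU) (by positivity)).trans_eq ?_
      rw [nsmul_eq_mul]; field_simp; ring
  have q0 : 99 / 100 ≤ qq L ℓ := by rw [qq]; linarith [h.small]
  have h2 : qq L ℓ ^ R.card - qq L ℓ' ^ R.card ≤ qq L ℓ ^ R.card * (R.card * (ε / (8 * n) / (99 / 100))) := by
    have h3 : qq L ℓ' = qq L ℓ * (1 + (qq L ℓ' / qq L ℓ - 1)) := by field_simp; ring
    have h4 := one_add_mul_le_pow (a := qq L ℓ' / qq L ℓ - 1) (by
      linarith [div_nonneg (qq_nonneg h.lt.le) (show 0 ≤ qq L ℓ by linarith)]) R.card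
    have h5 : 1 - qq L ℓ' / qq L ℓ ≤ ε / (8 * n) / (99 / 100) := by
      rw [one_sub_div (by linarith)]
      refine div_le_div₀ (by positivity) ?_ (by norm_num) q0
      rw [qq, qq, h.pe, h.pe', sub_sub_sub_cancel_left, ← sub_div, ← div_div]
      gcongr
      linarith [h.e3]
    rw [h3, mul_pow, ← mul_one_sub]
    exact mul_le_mul_of_nonneg_left (by nlinarith) (by positivity)
  rw [av_ge (h.le.trans h.lt.le) disjoint_compl_right]
  have h3 : bin (qq L ℓ ^ R.card - qq L ℓ' ^ R.card) (qq L ℓ' ^ R.card) Rᶜ.card (fun k => k) ≤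
      n * (R.card * (ε / (8 * n) / (99 / 100))) * qq L ℓ ^ (R.card * Rᶜ.card) := by
    rcases hk : Rᶜ.card with _ | k
    · simp only [bin, zero_add, range_one, sum_singleton, Nat.cast_zero, mul_zero]; positivity
    rw [bin_id, sub_add_cancel, ← pow_mul, mul_add, mul_one, pow_add]
    have : (k : ℝ) + 1 ≤ n := by rw [← Nat.cast_add_one, ← hk, hc]; linarith
    calc _ ≤ n * (qq L ℓ ^ R.card * (R.card * (ε / (8 * n) / (99 / 100)))) * qq L ℓ ^ (R.card * k) := by
          gcongr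
          exact sub_nonneg.2 (pow_le_pow_left₀ (qq_nonneg h.lt.le) (qq_anti h.le) _)
      _ = _ := by ring
  calc _ = av (fun ω : Om n L => ind (Ge ω R Rᶜ ℓ) * (XX ω ℓ' R * (ε ^ 3 / 32768))) *
        (32768 / ε ^ 3 / R.card ^ 2) := by
        rw [← av_mul_const]; exact av_congr fun ω => by field_simp
    _ ≤ n * (R.card * (ε / (8 * n) / (99 / 100))) * qq L ℓ ^ (R.card * Rᶜ.card) *
        (32768 / ε ^ 3 / R.card ^ 2) := by gcongr; exact h1.trans h3
    _ = 409600 / 99 / (ε ^ 2 * R.card) * qq L ℓ ^ (R.card * Rᶜ.card) := by field_simp; norm_num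
    _ ≤ 409600 / 99 / (ε ^ 2 * (6 / 5 * ε * n)) * qq L ℓ ^ (R.card * Rᶜ.card) := by gcongr
    _ = 1024000 / 297 / (ε ^ 3 * n) * qq L ℓ ^ (R.card * Rᶜ.card) := by field_simp; norm_num
    _ ≤ _ := by gcongr; norm_num

theorem fail_num {d x γ : ℝ} (e0 : 0 < ε) (e1 : ε ≤ 1 / 100) (d0 : 0 ≤ d) (d1 : d ≤ 3 / 20 * ε)
    (x1 : x ≤ 27 / 20 * ε)
    (hγ : γ = ε / 10 * (d * (1 + ε) + 13 / 100 * ε ^ 2) * (1 - ε / 10)) :
    ε ^ 3 / 200 + d * (ε / 10) ≤ (1 - x) * (γ - γ ^ 2 / 2) := by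
  obtain ⟨δ, hδ⟩ : ∃ δ, δ = d * (1 + ε) + 13 / 100 * ε ^ 2 := ⟨_, rfl⟩
  rw [← hδ] at hγ
  have δ0 : 0 ≤ δ := by rw [hδ]; positivity
  have δ1 : δ ≤ 1 := by rw [hδ]; nlinarith
  have g0 : 0 ≤ γ := by rw [hγ]; exact mul_nonneg (by positivity) (by linarith)
  have g1 : γ ≤ ε / 50 := by
    have : δ ≤ 1 / 5 := by rw [hδ]; nlinarith
    rw [hγ]; nlinarith [mul_nonneg e0.le δ0]
  have h1 : 1 - 146 / 100 * ε ≤ (1 - ε / 10) * ((1 - x) * (1 - γ / 2)) := by
    have : 1 - 136 / 100 * ε ≤ (1 - x) * (1 - γ / 2) := by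
      nlinarith [mul_le_mul_of_nonneg_right (show 1 - 27 / 20 * ε ≤ 1 - x by linarith)
        (show 0 ≤ 1 - γ / 2 by linarith), mul_nonneg e0.le g0]
    nlinarith
  have h2 : ε ^ 2 / 20 + d ≤ δ * (1 - 146 / 100 * ε) := by
    rw [hδ]; nlinarith [mul_nonneg d0 e0.le, mul_le_mul_of_nonneg_right d1 e0.le,
      mul_le_mul_of_nonneg_left e1 (mul_nonneg d0 e0.le), mul_le_mul_of_nonneg_left e1 (sq_nonneg ε)]
  calc _ = ε / 10 * (ε ^ 2 / 20 + d) := by ring
    _ ≤ ε / 10 * (δ * ((1 - ε / 10) * ((1 - x) * (1 - γ / 2)))) := by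
      gcongr; exact h2.trans (by gcongr)
    _ = (1 - x) * (γ * (1 - γ / 2)) := by rw [hγ]; ring
    _ = _ := by ring

theorem av_fail (h : Rung n L ℓ ℓ' ε ε') (hr : 6 / 5 * ε * n ≤ R.card) :
    av (fun ω : Om n L => ind (Ge ω R Rᶜ ℓ) * ind (cs ω R ℓ' < 6 / 5 * ε' * n)) ≤
      200 / (ε ^ 3 * n) * av (fun ω : Om n L => ind (Ge ω R Rᶜ ℓ)) := by
  have e0 := h.e0
  have e1 := h.e1
  have n0 := h.n0
  have q0 : 0 < qq L ℓ := by rw [qq]; linarith [h.small]
  have q1 : 0 < qq L ℓ' := by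
    rw [qq, h.pe', sub_pos, div_lt_one (by linarith)]; linarith [h.e3]
  have h1 := av_rf h.le h.lt R (ε / 10 * qq L ℓ ^ R.card)
  rw [← one_add_mul, mul_pow, ← pow_mul] at h1
  rw [av_ge (h.le.trans h.lt.le) disjoint_compl_right, card_compl, Fintype.card_fin]
  have k0 : 0 < exp (ε ^ 3 * n / 200) * (1 + ε / 10) ^ (n - R.card) := by positivity
  calc _ ≤ (1 + ε / 10) ^ (n - R.card) * qq L ℓ ^ (R.card * (n - R.card)) *
        (exp (ε ^ 3 * n / 200) * (1 + ε / 10) ^ (n - R.card))⁻¹ := by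
        refine le_trans (av_mono fun ω => ?_) ((av_mul_const _ _).trans_le
          (mul_le_mul_of_nonneg_right h1 (by positivity)))
        rw [mul_assoc (ind _)]
        refine mul_le_mul_of_nonneg_left (ind_le (by positivity) fun h2 => ?_) (ind_nonneg _)
        rw [← div_eq_mul_inv, one_le_div k0]
        obtain ⟨d, hd⟩ : ∃ d, cs ω R ℓ' = R.card + d :=
          Nat.exists_eq_add_of_le (card_le_card (sub_reach (subset_univ R)))
        obtain ⟨k, hk⟩ : ∃ k, n = cs ω R ℓ' + k := Nat.exists_eq_add_of_le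
          ((card_le_univ _).trans_eq (Fintype.card_fin n))
        change _ ≤ (1 + _ / qq L ℓ' ^ cs ω R ℓ') ^ (n - cs ω R ℓ')
        rw [show n - R.card = k + d by omega, show n - cs ω R ℓ' = k by omega, hd]
        rw [hd, Nat.cast_add] at h2
        obtain ⟨γ, hγ⟩ : ∃ γ, γ = ε / 10 * (d / n * (1 + ε) + 13 / 100 * ε ^ 2) * (1 - ε / 10) :=
          ⟨_, rfl⟩
        have x1 : ((R.card : ℝ) + d) / n ≤ 27 / 20 * ε := by
          rw [div_le_iff₀ (by linarith)]; nlinarith [h.e3]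
        have h3 := fail_num e0 e1 (d := d / n) (by positivity)
          (by rw [div_le_iff₀ (by linarith)]; nlinarith [h.e3]) x1 hγ
        have g0 : 0 ≤ γ := by rw [hγ]; exact mul_nonneg (by positivity) (by linarith)
        have h4 : 1 + (d / n * (1 + ε) + 13 / 100 * ε ^ 2) ≤
            qq L ℓ ^ R.card / qq L ℓ' ^ (R.card + d) := by
          refine le_trans ?_ (div_le_div₀ (by positivity)
            (exp_le_qq_pow (h.small.trans (by norm_num)) _) (by positivity) (qq_pow_le_exp h.lt.le _))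
          rw [← exp_sub, add_comm]
          refine le_trans ?_ (add_one_le_exp _)
          rw [h.pe, h.pe', Nat.cast_add]
          have x0 : 6 / 5 * ε ≤ (R.card : ℝ) / n := by rw [le_div_iff₀ (by linarith)]; exact hr
          have d0 : 0 ≤ (d : ℝ) / n := by positivity
          have x2 : (R.card : ℝ) / n ≤ 27 / 20 * ε := by rw [add_div] at x1; linarith
          have x3 : (1 + ε) ^ 2 / n ≤ ε / 1000 := by
            rw [div_le_iff₀ (by linarith)]; nlinarith [h.en]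
          have x4 : -(R.card * ((1 + ε) / n + ((1 + ε) / n) ^ 2)) - -((R.card + d) * ((1 + ε') / n)) =
              d / n * (1 + ε') + R.card / n * (ε' - ε) - R.card / n * ((1 + ε) ^ 2 / n) := by
            field_simp; ring
          rw [x4]
          nlinarith [mul_le_mul x2 x3 (by positivity) (by positivity),
            mul_le_mul x0 (show ε / 9 ≤ ε' - ε by linarith [h.e2]) (by positivity) (by positivity),
            mul_le_mul_of_nonneg_left (show ε ≤ ε' by linarith [h.e2]) d0]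
        have h5 : (k : ℝ) = n * (1 - (R.card + d) / n) := by
          have : (n : ℝ) = R.card + d + k := by exact_mod_cast hk.trans (by rw [hd])
          field_simp; linarith
        calc _ ≤ exp (ε ^ 3 * n / 200) * ((1 + ε / 10) ^ k * exp (d * (ε / 10))) := by
              rw [pow_add]; gcongr; exact pow_le_exp (by positivity) d
          _ = (1 + ε / 10) ^ k * exp (n * (ε ^ 3 / 200 + d / n * (ε / 10))) := by
              rw [mul_left_comm, ← exp_add]; congr 2; field_simp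
          _ ≤ (1 + ε / 10) ^ k * exp (k * (γ - γ ^ 2 / 2)) := by
              rw [h5, mul_assoc (n : ℝ)]; gcongr
          _ ≤ (1 + ε / 10) ^ k * (1 + γ) ^ k := by gcongr; exact exp_le_pow (exp_le_one_add g0) k
          _ ≤ _ := by
              rw [← mul_pow, mul_div_assoc]
              refine pow_le_pow_left₀ (by positivity) (le_trans ?_ (add_le_add le_rfl
                (mul_le_mul_of_nonneg_left h4 (by positivity)))) k
              have : 0 ≤ ε / 10 * (d / n * (1 + ε) + 13 / 100 * ε ^ 2) * (ε / 10) ^ 2 := by positivity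
              rw [hγ]; linarith
    _ = (exp (ε ^ 3 * n / 200))⁻¹ * qq L ℓ ^ (R.card * (n - R.card)) := by field_simp
    _ ≤ _ := by
        gcongr
        rw [← inv_div (ε ^ 3 * n) 200]
        exact inv_anti₀ (by positivity) (by linarith [add_one_le_exp (ε ^ 3 * n / 200)])

end

end Pool.Agent.P.MP_5fda20_pr
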