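import Pool.Agent.P.MP_5fda20_pr.Lad

/-! The ladder. -/

namespace Pool.Agent.P.MP_5fda20_pr

open Finset Real

noncomputable section

variable {n N L l m ℓ ℓ' j : ℕ} {ω : Om n L} {u : Fin n} {R R' : Finset (Fin n)}

theorem av_cond [NeZero L] {g X : Om n L → ℝ} {c : ℝ} (hg : Dep (inn R) g) (g0 : ∀ ω, 0 ≤ g ω)
    (hX : Dep (inn R)ᶜ X) (h : av (fun ω => ind (Ge ω R Rᶜ ℓ) * X ω) ≤
      c * av (fun ω : Om n L => ind (Ge ω R Rᶜ ℓ))) :
    av (fun ω => ind (Ge ω R Rᶜ ℓ) * g ω * X ω) ≤ c * av (fun ω => ind (Ge ω R Rᶜ ℓ) * g ω) := by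
  simp only [mul_comm (ind _) (g _), mul_assoc]
  rw [av_mul_of_dep hg (dep_ge_out.mul hX) disjoint_compl_right,
    av_mul_of_dep hg dep_ge_out disjoint_compl_right, mul_left_comm]
  exact mul_le_mul_of_nonneg_left h (av_nonneg g0)

theorem grow_iff (h : ℓ ≤ ℓ') (hR : R ⊆ R') :
    Ge ω R' R'ᶜ ℓ' ∧ Ge ω R (R' \ R) ℓ ∧ reach (op ω ℓ') R' R = R' ↔
      reach (op ω ℓ') univ R = R' ∧ Ge ω R Rᶜ ℓ := by
  rw [reach_op_eq_iff hR (subset_univ _)]
  refine ⟨fun ⟨h1, h2, h3⟩ => ⟨⟨h3, h1⟩, fun a ha b hb => ?_⟩, fun ⟨⟨h1, h2⟩, h3⟩ =>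
    ⟨h2, h3.mono Subset.rfl (fun b hb => mem_compl.2 (mem_sdiff.1 hb).2) le_rfl, h1⟩⟩
  by_cases h4 : b ∈ R'
  · exact h2 a ha b (mem_sdiff.2 ⟨h4, mem_compl.1 hb⟩)
  · exact h.trans (h1 a (hR ha) b (mem_compl.2 h4))

theorem Par.lev (P : Par n N L l m) (j : ℕ) : ((N + j : ℕ) : ℝ) / L * n = 1 + j / N := by
  rw [P.pn]; push_cast; field_simp [P.N0.ne']

theorem Par.rung (P : Par n N L l m) (h1 : N + j ≤ m) (h2 : 10 ^ 6 ≤ ((j : ℝ) / N) ^ 3 * n) :
    72 ≤ j ∧ Rung n L (N + j) (N + (j + j / 8)) (j / N) ((j + j / 8 : ℕ) / N) := by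
  have N0 := P.N0
  have n9 := P.n9
  have e1 : (j : ℝ) / N ≤ 1 / 100 := by
    have h3 := ep_eq (N := N) (ℓ := m) (by linarith [P.e20])
    have h4 : ((N + j : ℕ) : ℝ) / N ≤ m / N := by gcongr
    push_cast at h4
    rw [add_div, div_self N0.ne'] at h4
    nlinarith [P.small, P.l9, P.e0 le_rfl]
  have j0 : 72 ≤ j := by
    by_contra h3
    have h4 : (j : ℝ) / N ≤ 72 / n := by
      refine div_le_div₀ (by norm_num) (by exact_mod_cast (not_le.1 h3).le) P.n0 ?_
      rw [P.hN]; push_cast; exact le_self_pow₀ (by linarith) (by norm_num)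
    have h5 : ((j : ℝ) / N) ^ 3 ≤ j / N := by
      simpa using pow_le_pow_of_le_one (by positivity) (e1.trans (by norm_num))
        (show 1 ≤ 3 by norm_num)
    rw [le_div_iff₀ P.n0] at h4
    nlinarith [P.n0]
  have j1 : (72 : ℝ) ≤ j := by exact_mod_cast j0
  have j2 : 8 * ((j / 8 : ℕ) : ℝ) ≤ j := by exact_mod_cast Nat.mul_div_le j 8
  have j3 : (j : ℝ) ≤ 8 * ((j / 8 : ℕ) : ℝ) + 8 := by exact_mod_cast (show j ≤ 8 * (j / 8) + 8 by omega)
  refine ⟨j0, by omega, ?_, P.lev j, P.lev _, by positivity, e1, ?_, ?_, h2⟩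
  · rw [div_le_iff₀ N0] at e1
    have : ((N + (j + j / 8) : ℕ) : ℝ) < (n * N : ℕ) := by push_cast; nlinarith
    rw [P.hL]; exact_mod_cast this
  · rw [← mul_div_assoc]; gcongr; push_cast; linarith
  · rw [← mul_div_assoc]; gcongr; push_cast; linarith

theorem ladder (P : Par n N L l m) (k : ℕ) {g : Om n L → ℝ} (hk : m ≤ N + j + k) (hL : N + j ≤ L)
    (hj : 10 ^ 6 ≤ ((j : ℝ) / N) ^ 3 * n) (hr : 6 / 5 * ((j : ℝ) / N) * n ≤ R.card) (hu : u ∈ R)
    (hg : Dep (inn R) g) (g0 : ∀ ω, 0 ≤ g ω) (hc : ∀ ω, g ω ≠ 0 → reach (op ω (N + j)) R {u} = R) :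
    av (fun ω => ind (Ge ω R Rᶜ (N + j)) * g ω *
      (ind (Function.Injective ω ∧ Good ω N l m) * min 1 (clk (cs ω R) (N + j) L))) ≤
      (15000 / (((j : ℝ) / N) ^ 3 * n) + 525 / l ^ 7) * av (fun ω => ind (Ge ω R Rᶜ (N + j)) * g ω) := by
  classical
  have := P.ne
  have l9 := P.l9
  have n0 := P.n0
  have pw : ∀ {j : ℕ} {R : Finset (Fin n)} {g : Om n L → ℝ} {X : Om n L → ℝ}, u ∈ R → (∀ ω, 0 ≤ g ω) →
      (∀ ω, g ω ≠ 0 → reach (op ω (N + j)) R {u} = R) → (∀ ω, 0 ≤ X ω) →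
      (∀ ω, Function.Injective ω → Good ω N l m → cp ω (N + j) u = R →
        min 1 (clk (cs ω R) (N + j) L) ≤ X ω) → ∀ ω, ind (Ge ω R Rᶜ (N + j)) * g ω *
      (ind (Function.Injective ω ∧ Good ω N l m) * min 1 (clk (cs ω R) (N + j) L)) ≤
      ind (Ge ω R Rᶜ (N + j)) * g ω * X ω := fun {j R g X} hu g0 hc X0 h ω => by
    rw [mul_assoc, mul_assoc]
    refine ind_mul_mono fun h1 => ?_
    by_cases h2 : g ω = 0
    · rw [h2, zero_mul, zero_mul]
    exact mul_le_mul_of_nonneg_left (ind_mul_le (X0 ω) fun h3 =>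
      h ω h3.1 h3.2 ((cp_eq_iff hu).2 ⟨hc ω h2, h1⟩)) (g0 ω)
  induction k generalizing j R g with
  | zero =>
    rw [add_zero] at hk
    refine (av_mono (pw hu g0 hc (X := fun _ => 15000 / (((j : ℝ) / N) ^ 3 * n) + 525 / l ^ 7)
      (fun _ => by positivity) fun ω hI G h => ?_)).trans_eq ((av_mul_const _ _).trans (mul_comm _ _))
    have e0 := P.e0 le_rfl
    have e1 := ep_mono (N := N) hk
    have e2 : ep N (N + j) ≤ j / N := by
      have := ep_le (N := N) (ℓ := N + j)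
      rw [← P.pn, P.lev] at this
      linarith
    have h1 := G.clk_hi P hI hk (u := u) (by
      rw [h]
      calc _ ≤ (l : ℝ) ^ 2 / ep N m ^ 2 := by gcongr
        _ ≤ 6 / 5 * ep N m * n := by
          nlinarith [P.k4, mul_pos e0 n0, show 0 ≤ (l : ℝ) ^ 2 / ep N m ^ 2 by positivity]
        _ ≤ _ := le_trans (by gcongr; exact e1.trans e2) hr) hL
    rw [clk_congr (c' := cs ω R) fun i hi => by rw [← h, cs, cs, reach_cp hi]; rfl] at h1
    exact (min_le_right _ _).trans (le_add_of_nonneg_of_le (by positivity) h1)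
  | succ k ih =>
    rcases le_total m (N + j) with h1 | h1
    · exact ih (by omega) hL hj hr hu hg g0 hc
    obtain ⟨j0, hR⟩ := P.rung h1 hj
    set j' := j + j / 8
    let T : Finset (Finset (Fin n)) := univ.filter fun R' => R ⊆ R' ∧ 6 / 5 * ((j' : ℝ) / N) * n ≤ R'.card
    let g' : Finset (Fin n) → Om n L → ℝ := fun R' ω =>
      g ω * ind (Ge ω R (R' \ R) (N + j) ∧ reach (op ω (N + j')) R' R = R')
    have e1 : ∀ R' ∈ T, ∀ ω, ind (Ge ω R' R'ᶜ (N + j')) * g' R' ω =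
        ind (Ge ω R Rᶜ (N + j)) * g ω * ind (reach (op ω (N + j')) univ R = R') := fun R' h ω => by
      rw [mul_left_comm, ← ind_and, ind_congr (grow_iff hR.le (mem_filter.1 h).2.1), ind_and]; ring
    have e0 := hR.e0
    have e2 : 0 < (j' : ℝ) / N := by linarith [hR.e2]
    have e3 : (10 / 9 * ((j : ℝ) / N)) ^ 3 * n ≤ ((j' : ℝ) / N) ^ 3 * n := by gcongr; exact hR.e2
    have h2 : ∀ R' ∈ T, av (fun ω => ind (Ge ω R' R'ᶜ (N + j')) * g' R' ω *
        (ind (Function.Injective ω ∧ Good ω N l m) * min 1 (clk (cs ω R') (N + j') L))) ≤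
        (15000 / (((j' : ℝ) / N) ^ 3 * n) + 525 / l ^ 7) *
          av (fun ω => ind (Ge ω R' R'ᶜ (N + j')) * g' R' ω) := fun R' h => by
      obtain ⟨r1, r2⟩ := (mem_filter.1 h).2
      refine ih (by omega) hR.lt.le (by nlinarith [pow_pos e0 3]) r2 (r1 hu)
        ((hg.mono (inn_mono r1)).mul (((dep_ge _ _ _).mono (crs_sub_inn r1 sdiff_subset)).and
          ((dep_reach _ _ _).comp (· = R'))).ind) (fun ω => mul_nonneg (g0 ω) (ind_nonneg _))
        fun ω h => Subset.antisymm reach_sub ?_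
      have h3 : Ge ω R (R' \ R) (N + j) ∧ reach (op ω (N + j')) R' R = R' :=
        by_contra fun h1 => right_ne_zero_of_mul h (ind_of_not h1)
      exact h3.2.ge.trans (reach_reach ((hc ω (left_ne_zero_of_mul h)).ge.trans
        (reach_op_mono hR.le r1 Subset.rfl)))
    have h3 := av_cond hg g0 (dep_XX.comp (· / (R.card : ℝ) ^ 2)) (av_XX hR hr)
    have h4 := av_cond hg g0 ((dep_cs R).comp fun c => ind ((c (N + j') : ℝ) < 6 / 5 * ((j' : ℝ) / N) * n))
      (av_fail hR hr)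
    have h5 := (sum_le_sum h2).trans ((mul_sum _ _ _).symm.trans_le (mul_le_mul_of_nonneg_left
      ((av_sum _ _).symm.trans_le (av_mono (g := fun ω => ind (Ge ω R Rᶜ (N + j)) * g ω) fun ω => by
        rw [sum_congr rfl fun R' h => e1 R' h ω, ← mul_sum]
        exact mul_le_of_le_one_right (mul_nonneg (ind_nonneg _) (g0 ω))
          (sum_ind_le_one _ _ fun a _ b _ ha hb => ha.symm.trans hb))) (by positivity)))
    have m0 : ∀ (ω : Om n L) R' i, 0 ≤ ind (Function.Injective ω ∧ Good ω N l m) *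
        min 1 (clk (cs ω R') i L) := fun ω R' i =>
      mul_nonneg (ind_nonneg _) (le_min zero_le_one clk_nonneg)
    refine (av_mono (pw hu g0 hc (X := fun ω => XX ω (N + j') R / (R.card : ℝ) ^ 2 +
      ind ((cs ω R (N + j') : ℝ) < 6 / 5 * ((j' : ℝ) / N) * n) +
      ∑ R' ∈ T, ind (reach (op ω (N + j')) univ R = R') *
        (ind (Function.Injective ω ∧ Good ω N l m) * min 1 (clk (cs ω R') (N + j') L)))
      (fun ω => add_nonneg (add_nonneg (div_nonneg XX_nonneg (sq_nonneg _)) (ind_nonneg _))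
        (sum_nonneg fun _ _ => mul_nonneg (ind_nonneg _) (m0 _ _ _))) fun ω hI G h => ?_)).trans ?_
    · have x0 : 0 ≤ XX ω (N + j') R / (R.card : ℝ) ^ 2 := div_nonneg XX_nonneg (sq_nonneg _)
      by_cases h6 : (cs ω R (N + j') : ℝ) < 6 / 5 * ((j' : ℝ) / N) * n
      · rw [ind_of h6]
        exact (min_le_left _ _).trans (le_add_of_le_of_nonneg (by linarith)
          (sum_nonneg fun _ _ => mul_nonneg (ind_nonneg _) (m0 _ _ _)))
      rw [ind_of_not h6, add_zero, sum_ind_eq T (mem_filter.2 ⟨mem_univ _, sub_reach (subset_univ R),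
        not_lt.1 h6⟩), ind_of ⟨hI, G⟩, one_mul, clk_add hR.le hR.lt.le,
        clk_congr (c := cs ω (reach _ _ _)) (c' := cs ω R) fun i hi =>
          congrArg card (reach_eq_of_sub (sub_reach (subset_univ R)) Subset.rfl hi)]
      have h7 := clk_le_XX hI h hR.le
      rcases le_total 1 (clk (cs ω R) (N + j') L) with h8 | h8
      · rw [min_eq_left h8]; exact (min_le_left _ _).trans (by linarith)
      · rw [min_eq_right h8]; exact (min_le_right _ _).trans (by linarith)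
    simp only [mul_add, av_add, mul_sum, av_sum]
    refine (add_le_add (add_le_add h3 h4) ((sum_congr rfl fun R' h => av_congr fun ω => by
      rw [e1 R' h]; ring).trans_le h5)).trans ?_
    rw [← add_mul, ← add_mul]
    refine mul_le_mul_of_nonneg_right ?_ (av_nonneg fun ω => mul_nonneg (ind_nonneg _) (g0 ω))
    have : 15000 / (((j' : ℝ) / N) ^ 3 * n) ≤ 10935 / (((j : ℝ) / N) ^ 3 * n) :=
      (div_le_div_of_nonneg_left (by norm_num) (by positivity) e3).trans_eq (by field_simp; ring)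
    have h9 : 0 ≤ (((j : ℝ) / N) ^ 3 * n)⁻¹ := by positivity
    simp only [div_eq_mul_inv _ (((j : ℝ) / N) ^ 3 * n)] at this ⊢
    linarith

end

end Pool.Agent.P.MP_5fda20_pr
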