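import Pool.Agent.P.MP_5fda20_pr.Lad2

/-! The lower bound, combinatorial part. -/

namespace Pool.Agent.P.MP_5fda20_pr

open Finset Real

noncomputable section

variable {n L ℓ : ℕ} {ω : Om n L} {u v u' v' x y : Fin n} {R S S' A B : Finset (Fin n)}

theorem sum_ind_le_of_inj {κ J : Type*} [Fintype κ] [Fintype J] (P : κ → Prop) (Q : J → Prop)
    (f : κ → J) (h1 : ∀ k, P k → Q (f k)) (h2 : ∀ k k', P k → P k' → f k = f k' → k = k') :
    ∑ k, ind (P k) ≤ ∑ j, ind (Q j) := by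
  classical
  rw [sum_ind_eq_card, sum_ind_eq_card, Nat.cast_le]
  exact card_le_card_of_injOn f (fun k hk => mem_filter.2 ⟨mem_univ _, h1 k (mem_filter.1 hk).2⟩)
    fun k hk k' hk' => h2 k k' (mem_filter.1 hk).2 (mem_filter.1 hk').2

theorem kr_ind {P : Fin n → Prop} (h0 : P u) (hs : ∀ a b, Kr ω a b → P a → P b) (b : Fin n) : P b :=
  cp_ind (ℓ := L) h0 (fun a _ b h _ => hs a b h) (cp_top (ω := ω) u ▸ mem_univ b)

theorem kr_ind₂ {P : Fin n → Prop} (h1 : P u) (h2 : P v) (h3 : P u') (h4 : P v')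
    (hs : ∀ a b, Kr ω a b → s(a, b) ≠ s(u, v) → s(a, b) ≠ s(u', v') → P a → P b) (b : Fin n) :
    P b := kr_ind (ω := ω) h1 (fun a b h ha => by
  by_cases h5 : s(a, b) = s(u, v)
  · rcases Sym2.eq_iff.1 h5 with ⟨-, rfl⟩ | ⟨-, rfl⟩ <;> assumption
  by_cases h6 : s(a, b) = s(u', v')
  · rcases Sym2.eq_iff.1 h6 with ⟨-, rfl⟩ | ⟨-, rfl⟩ <;> assumption
  exact hs a b h h5 h6 ha) b

theorem spl_unique (h : Spl ω A u v) (h' : Spl ω B u' v') (hA : n / 2 = A.card)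
    (hB : n / 2 = B.card) (hx : x ∈ A) (hx' : x ∈ B) : (A, u, v) = (B, u', v') := by
  obtain ⟨a1, a2, a3, a4⟩ := h
  obtain ⟨b1, b2, b3, b4⟩ := h'
  have key : ∀ P : Prop → Prop → Prop, P (u ∈ A) (u ∈ B) → P (v ∈ A) (v ∈ B) →
      P (u' ∈ A) (u' ∈ B) → P (v' ∈ A) (v' ∈ B) → ∀ z, P (z ∈ A) (z ∈ B) :=
    fun P h1 h2 h3 h4 => kr_ind₂ h1 h2 h3 h4 fun a b h h5 h6 h7 => by
      rwa [← a4 a b h h5, ← b4 a b h h6]
  by_cases h1 : s(u, v) = s(u', v')
  · rcases Sym2.eq_iff.1 h1 with ⟨rfl, rfl⟩ | ⟨rfl, rfl⟩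
    · rw [Finset.ext (key (· ↔ ·) (by tauto) (by tauto) (by tauto) (by tauto))]
    · exact absurd ⟨hx, hx'⟩ (key (fun p q => ¬ (p ∧ q)) (by tauto) (by tauto) (by tauto) (by tauto) x)
  exfalso
  have h2 := b4 u v a3 h1
  have h3 := a4 u' v' b3 (Ne.symm h1)
  by_cases h4 : u ∈ B <;> by_cases h5 : u' ∈ A
  · have h6 : A ∪ B = univ := eq_univ_of_forall fun z =>
      mem_union.2 (key (· ∨ ·) (by tauto) (by tauto) (by tauto) (by tauto) z)
    have h7 := card_union_add_card_inter A B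
    have h8 := card_pos.2 ⟨x, mem_inter.2 ⟨hx, hx'⟩⟩
    rw [h6, card_univ, Fintype.card_fin] at h7
    omega
  · have h6 : A = B := eq_of_subset_of_card_le
      (key (· → ·) (by tauto) (by tauto) (by tauto) (by tauto)) (by omega)
    exact a2 (h6 ▸ h2.1 h4)
  · have h6 : B = A := eq_of_subset_of_card_le
      (key (fun p q => q → p) (by tauto) (by tauto) (by tauto) (by tauto)) (by omega)
    exact h4 (h6 ▸ a1)
  · exact key (fun p q => ¬ (p ∧ q)) (by tauto) (by tauto) (by tauto) (by tauto) x ⟨hx, hx'⟩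

theorem spl_count (hn : 2 ≤ n) (ω : Om n L) :
    ∑ q : Finset (Fin n) × Fin n × Fin n, ind (n / 2 = q.1.card ∧ Spl ω q.1 q.2.1 q.2.2) ≤
      3 * ind (Split ω) := by
  classical
  by_cases h : Split ω
  swap
  · rw [ind_of_not h, mul_zero]
    exact (sum_eq_zero fun q _ => ind_of_not fun h1 => h ⟨_, _, _, h1⟩).le
  have h0 : (0 : ℝ) < (n / 2 : ℕ) := Nat.cast_pos.2 (by omega)
  refine le_of_mul_le_mul_right ?_ h0
  calc _ = ∑ q : Finset (Fin n) × Fin n × Fin n, ∑ x : Fin n,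
        ind ((n / 2 = q.1.card ∧ Spl ω q.1 q.2.1 q.2.2) ∧ x ∈ q.1) := by
        rw [sum_mul]
        refine sum_congr rfl fun q _ => ?_
        simp only [ind_and _ (_ ∈ q.1), ← mul_sum]
        refine ind_mul_congr fun h1 => ?_
        rw [sum_ind_eq_card, filter_mem_eq_inter, univ_inter, h1.1]
    _ ≤ ∑ _x : Fin n, (1 : ℝ) := by
        rw [sum_comm]
        exact sum_le_sum fun x _ => sum_ind_le_one _ _ fun a _ b _ ha hb =>
          spl_unique ha.1.2 hb.1.2 ha.1.1 hb.1.1 ha.2 hb.2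
    _ ≤ _ := by
        rw [ind_of h, sum_const, card_univ, Fintype.card_fin, nsmul_eq_mul, mul_one, mul_one]
        exact_mod_cast (show n ≤ 3 * (n / 2) by omega)

/-- `R` is made of two connected pieces joined by the single open edge `uv`. -/
def Br (ω : Om n L) (ℓ : ℕ) (R S : Finset (Fin n)) (u v : Fin n) : Prop :=
  Idx u v (R, S) ∧ reach (op ω ℓ) S {u} = S ∧ reach (op ω ℓ) (R \ S) {v} = R \ S ∧
    op ω ℓ s(u, v) ∧ ∀ x ∈ S, ∀ y ∈ R \ S, s(x, y) ≠ s(u, v) → ℓ ≤ (ω s(x, y)).val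

theorem Br.conn (h : Br ω ℓ R S u v) : reach (op ω ℓ) R {u} = R := by
  obtain ⟨⟨i1, i2, i3, i4⟩, h1, h2, h3, -⟩ := h
  refine Subset.antisymm reach_sub fun x hx => ?_
  by_cases h4 : x ∈ S
  · exact reach_op_mono le_rfl i1 Subset.rfl (h1.ge h4)
  · exact reach_reach (singleton_subset_iff.2 (reach_closed (self_mem_reach (i1 i2)) i3 h3))
      (reach_op_mono le_rfl sdiff_subset Subset.rfl (h2.ge (mem_sdiff.2 ⟨hx, h4⟩)))

theorem Br.comp (h : Br ω ℓ R S u v) (hG : Ge ω R Rᶜ ℓ) : cp ω ℓ u = R :=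
  (cp_eq_iff (h.1.1 h.1.2.1)).2 ⟨h.conn, hG⟩

theorem Br.sub (h : Br ω ℓ R S u v) (h' : Br ω ℓ R S' u v) : S ⊆ S' :=
  h.2.1.ge.trans (reach_min (singleton_subset_iff.2 h'.1.2.1) fun a ha b hb h1 => by
    by_contra h2
    refine absurd (h'.2.2.2.2 a ha b (mem_sdiff.2 ⟨h.1.1 hb, h2⟩) fun h3 => ?_) (not_le.2 h1)
    exact h.1.2.2.2 ((eq_of_mk_eq h'.1.2.2.2 ha h3).2 ▸ hb))

theorem Br.spl (h : Br ω ℓ R S u v) (hG : Ge ω R Rᶜ ℓ) (hF : Fn ω R S A) : Spl ω A u v := by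
  have h0 := h.comp hG
  obtain ⟨⟨i1, i2, i3, i4⟩, -, -, h3, h4⟩ := h
  have h5 : ∀ x ∈ R, x ∈ A ↔ x ∈ S := fun x hx => by rw [← hF.1, mem_inter, and_iff_left hx]
  have h6 : ∀ x ∈ S, ∀ y ∈ R, Kr ω x y → s(x, y) ≠ s(u, v) → y ∈ S := fun x hx y hy h6 h7 => by
    by_contra h8
    refine h6 (cp_mono (h4 x hx y (mem_sdiff.2 ⟨hy, h8⟩) h7) ?_)
    rwa [cp_eq (h0 ▸ i1 hx : x ∈ cp ω ℓ u), h0]
  refine ⟨(h5 u (i1 i2)).2 i2, fun h => i4 ((h5 v i3).1 h), fun h => i4 ?_, fun x y h7 h8 => ?_⟩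
  · refine reach_min (singleton_subset_iff.2 i2) (fun a ha b _ h7 => ?_) h
    have h8 : (ω s(a, b)).val < ℓ := lt_trans h7 h3
    by_contra h9
    refine absurd (h4 a ha b (mem_sdiff.2 ⟨h0 ▸ cp_closed (h0 ▸ i1 ha) h8, h9⟩) fun h10 => ?_)
      (not_le.2 h8)
    exact lt_irrefl _ (h10 ▸ h7 : (ω s(u, v)).val < _)
  by_cases h9 : x ∈ R ∧ y ∈ R
  · rw [h5 x h9.1, h5 y h9.2]
    exact ⟨fun h => h6 x h y h9.2 h7 h8, fun h => h6 y h x h9.1 h7.symm (by rwa [Sym2.eq_swap])⟩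
  · exact hF.2 x y h7 (not_and_or.1 h9)

theorem br_le (ω : Om n L) (ℓ : ℕ) : ∑ R : Finset (Fin n), ∑ q : Finset (Fin n) × Fin n × Fin n,
    ind (Ge ω R Rᶜ ℓ) * ind (Br ω ℓ R q.1 q.2.1 q.2.2) ≤ n ^ 2 := by
  simp only [← ind_and]
  rw [← Fintype.sum_prod_type']
  refine (sum_ind_le_of_inj _ (fun _ => True) (fun k => k.2.2) (fun _ _ => trivial) ?_).trans_eq
    (by simp [ind, sq])
  rintro ⟨R, S, u, v⟩ ⟨R', S', u', v'⟩ h h' ⟨⟩
  obtain rfl : R = R' := (h.2.comp h.1).symm.trans (h'.2.comp h'.1)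
  rw [show S = S' from Subset.antisymm (h.2.sub h'.2) (h'.2.sub h.2)]

theorem br_split (hn : 2 ≤ n) (ω : Om n L) (ℓ : ℕ) :
    ∑ R : Finset (Fin n), ∑ q : Finset (Fin n) × Fin n × Fin n,
      ind (Function.Injective ω ∧ Ge ω R Rᶜ ℓ) * ind (Br ω ℓ R q.1 q.2.1 q.2.2) *
        (1 * ∑ A, ind (Fn ω R q.1 A) * ind (n / 2 = A.card)) ≤
      3 * ind (Function.Injective ω ∧ Split ω) := by
  by_cases hI : Function.Injective ω
  swap
  · simp [hI, ind]
  simp only [hI, true_and, one_mul, mul_sum, ← ind_and]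
  simp only [← Fintype.sum_prod_type']
  refine (sum_ind_le_of_inj _ _ (fun k => (k.2.2, k.2.1.2)) ?_ ?_).trans (spl_count hn ω)
  · rintro ⟨R, ⟨S, u, v⟩, A⟩ h
    exact ⟨h.2.2, h.1.2.spl h.1.1 h.2.1⟩
  · rintro ⟨R, ⟨S, u, v⟩, A⟩ ⟨R', ⟨S', u', v'⟩, A'⟩ h h' ⟨⟩
    obtain rfl : R = R' := (h.1.2.comp h.1.1).symm.trans (h'.1.2.comp h'.1.1)
    rw [show S = S' from Subset.antisymm (h.1.2.sub h'.1.2) (h'.1.2.sub h.1.2)]

theorem dep_br : Dep (inn R) fun ω : Om n L => Br ω ℓ R S u v := fun ω ω' e => by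
  by_cases h : Idx u v (R, S)
  swap
  · simp only [Br, h, false_and]
  obtain ⟨i1, i2, i3, i4⟩ := id h
  have e1 : reach (op ω ℓ) S {u} = reach (op ω' ℓ) S {u} :=
    (dep_reach ℓ S {u}).mono (inn_mono i1) ω ω' e
  have e2 : reach (op ω ℓ) (R \ S) {v} = reach (op ω' ℓ) (R \ S) {v} :=
    (dep_reach ℓ (R \ S) {v}).mono (inn_mono sdiff_subset) ω ω' e
  change Br ω ℓ R S u v = Br ω' ℓ R S u v
  rw [Br, Br, e1, e2, op, op, e _ (mk_mem_inn.2 ⟨i1 i2, i3⟩)]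
  refine congrArg (fun t => _ ∧ _ ∧ _ ∧ _ ∧ t) (propext (forall₂_congr fun x hx =>
    forall₂_congr fun y hy => ?_))
  rw [e _ (mk_mem_inn.2 ⟨i1 hx, sdiff_subset hy⟩)]

theorem av_br [NeZero L] (hp : (ℓ : ℝ) / L ≤ 1 / 2) (h : Idx u v (R, S)) {a b : ℕ}
    (ha : S.card = a + 1) (hb : (R \ S).card = b + 1) :
    fo 1 a * fo 1 b * ((ℓ : ℝ) / L) ^ (a + b + 1) *
      exp (-(((ℓ : ℝ) / L + ((ℓ : ℝ) / L) ^ 2) * ((a + b + 2) ^ 2 / 2))) ≤
      av (fun ω : Om n L => ind (Br ω ℓ R S u v)) := by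
  classical
  obtain ⟨i1, i2, i3, i4⟩ := id h
  have i5 := mem_sdiff.2 ⟨i3, i4⟩
  have hL := le_of_half hp
  let E := ((S ×ˢ (R \ S)).image fun p : Fin n × Fin n => s(p.1, p.2)).erase s(u, v)
  have hE : E.card ≤ (a + 1) * (b + 1) :=
    card_erase_le.trans (card_image_le.trans_eq (by rw [card_product, ha, hb]))
  have d4 : Dep (E : Set (Sym2 (Fin n))) fun ω : Om n L => ind (∀ e ∈ E, ℓ ≤ (ω e).val) :=
    fun ω ω' e => ind_congr (forall₂_congr fun x hx => by rw [e x hx])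
  have d3 : Dep {s(u, v)} fun ω : Om n L => ind (op ω ℓ s(u, v)) :=
    (Dep.apply (Set.mem_singleton _)).comp fun t : Fin L => ind (t.val < ℓ)
  have d5 : Dep (crs S (R \ S)) fun ω : Om n L => ind (op ω ℓ s(u, v)) *
      ind (∀ e ∈ E, ℓ ≤ (ω e).val) := (d3.mono (Set.singleton_subset_iff.2 (mk_mem_crs i2 i5))).mul
    (d4.mono fun e he => by
      obtain ⟨p, h1, rfl⟩ := mem_image.1 (mem_of_mem_erase he)
      exact mk_mem_crs (mem_product.1 h1).1 (mem_product.1 h1).2)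
  have d2 := ((dep_reach (L := L) ℓ (R \ S) {v}).comp (· = R \ S)).ind
  have e : av (fun ω : Om n L => ind (Br ω ℓ R S u v)) =
      av (fun ω : Om n L => ind (reach (op ω ℓ) S {u} = S)) *
      (av (fun ω : Om n L => ind (reach (op ω ℓ) (R \ S) {v} = R \ S)) *
      ((ℓ : ℝ) / L * qq L ℓ ^ E.card)) := by
    rw [← av_op hL s(u, v), ← av_ge_edges hL E, ← av_mul_of_dep d3 d4 (by simp [E]),
      ← av_mul_of_dep d2 d5 (crs_disjoint_left disjoint_sdiff).symm,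
      ← av_mul_of_dep ((dep_reach ℓ S {u}).comp (· = S)).ind
        ((d2.mono Set.subset_union_left).mul (d5.mono Set.subset_union_right))
        (Set.disjoint_union_right.2 ⟨inn_disjoint disjoint_sdiff,
          (crs_disjoint_right sdiff_disjoint).symm⟩)]
    refine av_congr fun ω => ?_
    simp only [← ind_and, Br, h, true_and]
    refine ind_congr (and_congr_right fun _ => and_congr_right fun _ => and_congr_right fun _ =>
      ⟨fun h1 e he => ?_, fun h1 x hx y hy h2 => h1 _ (mem_erase.2 ⟨h2,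
        mem_image.2 ⟨(x, y), mem_product.2 ⟨hx, hy⟩, rfl⟩⟩)⟩)
    obtain ⟨p, h2, rfl⟩ := mem_image.1 (mem_of_mem_erase he)
    exact h1 _ (mem_product.1 h2).1 _ (mem_product.1 h2).2 (ne_of_mem_erase he)
  have h1 := av_conn_ge hp i2 ha
  have h2 := av_conn_ge hp i5 hb
  have h3 := (exp_le_qq_pow hp _).trans (pow_le_pow_of_le_one (qq_nonneg hL) (qq_le_one _) hE)
  have p0 : 0 ≤ (ℓ : ℝ) / L := by positivity
  have f1 := fo_nonneg 1 a
  have f2 := fo_nonneg 1 b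
  rw [e]
  refine le_trans (le_of_eq ?_) (mul_le_mul h1 (mul_le_mul h2 (mul_le_mul_of_nonneg_left h3 p0)
    (by positivity) (av_nonneg fun _ => ind_nonneg _)) (by positivity)
    (av_nonneg fun _ => ind_nonneg _))
  generalize (ℓ : ℝ) / L = p
  rw [show -((p + p ^ 2) * (((a : ℝ) + b + 2) ^ 2 / 2)) = -((p + p ^ 2) * ((a + 1) ^ 2 / 2)) +
    (-((p + p ^ 2) * ((b + 1) ^ 2 / 2)) + -(((a + 1) * (b + 1) : ℕ) * (p + p ^ 2))) by
      push_cast; ring, exp_add, exp_add]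
  ring

/-- The lower bound for the weight of the splits of a given size. -/
def H0 (p : ℝ) (r : ℕ) : ℝ :=
  8 / (9 * r ^ 3) * (r.factorial * exp r) * (p ^ (r - 1) * exp (-((p + p ^ 2) * (r ^ 2 / 2))))

theorem fo_two (a b : ℕ) : 8 / (9 * ((a + b + 2 : ℕ) : ℝ) ^ 3) *
    ((a + b + 2).factorial * exp (a + b + 2 : ℕ)) ≤
      (a + b + 2).choose (a + 1) * ((a + 1) * ((b + 1) * (fo 1 a * fo 1 b))) := by
  have h1 := mul_le_mul (fo_ge a) (fo_ge b) (by positivity)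
    (le_trans (by positivity) (fo_ge a))
  have h2 : ((a + b + 2).factorial : ℝ) =
      (a + b + 2).choose (a + 1) * ((a + 1) * a.factorial) * ((b + 1) * b.factorial) := by
    have := Nat.add_choose_mul_factorial_mul_factorial (b + 1) (a + 1)
    rw [show b + 1 + (a + 1) = a + b + 2 by ring, Nat.factorial_succ a, Nat.factorial_succ b] at this
    rw [← this]; push_cast; ring
  have h3 : √(a + 1) * √(b + 1) ≤ ((a : ℝ) + b + 2) / 2 := by
    nlinarith [sq_nonneg (√(a + 1) - √(b + 1)), sq_sqrt (show (0 : ℝ) ≤ a + 1 by positivity),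
      sq_sqrt (show (0 : ℝ) ≤ b + 1 by positivity)]
  have h4 : ((a : ℝ) + 1) * (b + 1) ≤ (a + b + 2) ^ 2 / 4 := by nlinarith [sq_nonneg ((a : ℝ) - b)]
  have f1 := fo_nonneg 1 a
  have f2 := fo_nonneg 1 b
  rw [div_mul_eq_mul_div, div_le_iff₀ (by positivity), h2]
  push_cast
  calc _ = 8 * ((a + b + 2).choose (a + 1) * ((a + 1) * (b + 1))) *
        (exp (a + 1) * a.factorial * (exp (b + 1) * b.factorial)) := by
        rw [show (a : ℝ) + b + 2 = a + 1 + (b + 1) by ring, exp_add]; ring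
    _ ≤ 8 * ((a + b + 2).choose (a + 1) * ((a + 1) * (b + 1))) * (9 * (√(a + 1) * √(b + 1)) *
        ((a + 1) * (b + 1)) * (fo 1 a * fo 1 b)) :=
        mul_le_mul_of_nonneg_left (h1.trans_eq (by ring)) (by positivity)
    _ ≤ 8 * ((a + b + 2).choose (a + 1) * ((a + 1) * (b + 1))) * (9 * ((a + b + 2) / 2) *
        ((a + b + 2) ^ 2 / 4) * (fo 1 a * fo 1 b)) := by gcongr
    _ = _ := by ring

theorem br_count [NeZero L] (hp : (ℓ : ℝ) / L ≤ 1 / 2) (R : Finset (Fin n)) {F : ℕ → ℝ}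
    (F0 : ∀ a ≤ R.card, 0 ≤ F a) (F1 : F 0 = 0) (F2 : F R.card = 0) :
    H0 ((ℓ : ℝ) / L) R.card * ∑ a ∈ range (R.card + 1), F a ≤
      ∑ S ∈ R.powerset, ∑ q : Fin n × Fin n,
        av (fun ω : Om n L => ind (Br ω ℓ R S q.1 q.2)) * F S.card := by
  have p0 : 0 ≤ (ℓ : ℝ) / L := by positivity
  let G : ℕ → ℝ := fun a => a * ((R.card - a : ℕ) * (fo 1 (a - 1) * fo 1 (R.card - a - 1) *
    ((ℓ : ℝ) / L) ^ (R.card - 1) *
      exp (-(((ℓ : ℝ) / L + ((ℓ : ℝ) / L) ^ 2) * (R.card ^ 2 / 2))) * F a))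
  calc _ ≤ ∑ S ∈ R.powerset, G S.card := by
        rw [sum_powerset_apply_card G, mul_sum]
        refine sum_le_sum fun a ha => ?_
        have h1 := Nat.lt_succ_iff.1 (mem_range.1 ha)
        rcases a with _ | a
        · simp [G, F1]
        rcases h1.eq_or_lt with h2 | h2
        · simp [G, h2, F2]
        obtain ⟨b, hb⟩ : ∃ b, R.card = a + b + 2 := ⟨R.card - a - 2, by omega⟩
        have := F0 _ h1
        simp only [G, H0, hb, nsmul_eq_mul, Nat.add_sub_cancel, show a + b + 2 - (a + 1) = b + 1 by omega]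
        refine (mul_le_mul_of_nonneg_right (mul_le_mul_of_nonneg_right (fo_two a b)
          (by positivity)) this).trans_eq ?_
        push_cast; ring
    _ ≤ _ := by
        refine sum_le_sum fun S hS => ?_
        have h1 := mem_powerset.1 hS
        have h2 := F0 _ (card_le_card h1)
        refine le_trans ?_ (sum_le_sum_of_subset_of_nonneg (subset_univ (S ×ˢ (R \ S))) fun _ _ _ =>
          mul_nonneg (av_nonneg fun _ => ind_nonneg _) h2)
        simp only [G]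
        rw [← mul_assoc, ← card_sdiff_of_subset h1, ← Nat.cast_mul, ← card_product, ← nsmul_eq_mul]
        refine card_nsmul_le_sum _ _ _ fun q hq => mul_le_mul_of_nonneg_right ?_ h2
        obtain ⟨q1, q2⟩ := mem_product.1 hq
        obtain ⟨a, ha⟩ := Nat.exists_eq_add_one_of_ne_zero (card_ne_zero_of_mem q1)
        obtain ⟨b, hb⟩ := Nat.exists_eq_add_one_of_ne_zero (card_ne_zero_of_mem q2)
        have h3 : R.card = a + b + 2 := by have := card_sdiff_add_card_eq_card h1; omega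
        have := av_br hp ⟨h1, q1, (mem_sdiff.1 q2).1, (mem_sdiff.1 q2).2⟩ ha hb
        rw [ha, hb, h3]
        push_cast
        exact this

end

end Pool.Agent.P.MP_5fda20_pr
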