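import Pool.Agent.P.MP_5fda20_pr.Low

/-! The lower bound, numerical part. -/

namespace Pool.Agent.P.MP_5fda20_pr

open Finset Real

noncomputable section

variable {n N L l m ℓ j : ℕ} {R : Finset (Fin n)}

theorem av_ind_split [NeZero L] {g X : Om n L → ℝ} (hg : Dep (inn R) g) (hX : Dep (inn R)ᶜ X) :
    av (fun ω => ind (Ge ω R Rᶜ ℓ) * g ω * X ω) = av g * av (fun ω => ind (Ge ω R Rᶜ ℓ) * X ω) := by
  simp only [mul_comm (ind _) (g _), mul_assoc]
  exact av_mul_of_dep hg (dep_ge_out.mul hX) disjoint_compl_right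

theorem H0_nonneg {p : ℝ} (hp : 0 ≤ p) (r : ℕ) : 0 ≤ H0 p r := by unfold H0; positivity

theorem low_R (P : Par n N L l m) (h1 : N + j ≤ m) (hj : 10 ^ 6 ≤ ((j : ℝ) / N) ^ 3 * n)
    (hr : 6 / 5 * ((j : ℝ) / N) * n ≤ R.card) :
    1 / 3 * (R.card / n) * H0 (((N + j : ℕ) : ℝ) / L) R.card *
      av (fun ω : Om n L => ind (Ge ω R Rᶜ (N + j))) ≤
    ∑ q : Finset (Fin n) × Fin n × Fin n, av (fun ω : Om n L =>
      ind (Function.Injective ω ∧ Ge ω R Rᶜ (N + j)) * ind (Br ω (N + j) R q.1 q.2.1 q.2.2) *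
        (1 * ∑ A, ind (Fn ω R q.1 A) * ind (n / 2 = A.card))) +
    2 * ∑ q : Finset (Fin n) × Fin n × Fin n, av (fun ω : Om n L => ind (Ge ω R Rᶜ (N + j)) *
      ind (Br ω (N + j) R q.1 q.2.1 q.2.2) * ind (¬ (Function.Injective ω ∧ Good ω N l m))) := by
  have := P.ne
  have n9 := P.n9
  have l9 := P.l9
  obtain ⟨-, hR⟩ := P.rung h1 hj
  have hL := h1.trans P.mL
  have r2 : 2 ≤ R.card := by
    have : (2 : ℝ) ≤ R.card := by nlinarith [hR.en]
    exact_mod_cast this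
  have r0 : (0 : ℝ) < R.card := Nat.cast_pos.2 (by omega)
  have r1 : (R.card : ℝ) / n ≤ 1 := (div_le_one P.n0).2
    (by exact_mod_cast (card_le_univ R).trans_eq (Fintype.card_fin n))
  have hp := hR.small.trans (show 1 / 100 ≤ 1 / 2 by norm_num)
  generalize hℓ : N + j = ℓ at hp hR hL ⊢
  let b : Finset (Fin n) × Fin n × Fin n → Om n L → ℝ := fun q ω => ind (Br ω ℓ R q.1 q.2.1 q.2.2)
  let h : ℕ → Om n L → ℝ := fun a ω => hh (fun i => ind (n / 2 = i)) (cs ω R) (L - ℓ) ℓ a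
  let E : Finset (Fin n) × Fin n × Fin n → ℝ := fun q => av (fun ω : Om n L => ind (Ge ω R Rᶜ ℓ) *
      b q ω * ind (¬ (Function.Injective ω ∧ Good ω N l m)))
  let w : ℕ → ℝ := fun a => max 0 (1 / 16 - ((a : ℝ) / R.card - 1 / 2) ^ 2)
  have b0 : ∀ q ω, 0 ≤ b q ω := fun _ _ => ind_nonneg _
  have b1 : ∀ q ω, b q ω ≠ 0 → Br ω ℓ R q.1 q.2.1 q.2.2 := fun q ω h =>
    by_contra fun h1 => h (ind_of_not h1)
  have b2 : ∀ q, ¬ Idx q.2.1 q.2.2 (R, q.1) → ∀ ω, b q ω = 0 := fun q h ω => ind_of_not fun h1 => h h1.1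
  have E0 : ∀ q, 0 ≤ E q := fun q => av_nonneg fun ω =>
    mul_nonneg (mul_nonneg (ind_nonneg _) (b0 _ _)) (ind_nonneg _)
  have c0 : ∀ ω : Om n L, Ge ω R Rᶜ ℓ → cs ω R ℓ = R.card := fun ω h => by rw [cs, reach_of_ge h]
  have h0 : ∀ a ≤ R.card, ∀ ω : Om n L, Ge ω R Rᶜ ℓ → 0 ≤ h a ω ∧ h a ω ≤ 1 := fun a ha ω h =>
    hh_mem (fun _ => ⟨ind_nonneg _, ind_le_one _⟩) cs_mono ((c0 ω h).symm ▸ ha)
  have h2 : ∀ a ≤ R.card, 0 ≤ av (fun ω => ind (Ge ω R Rᶜ ℓ) * h a ω) := fun a ha =>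
    av_nonneg fun ω => (mul_zero _).ge.trans (ind_mul_mono fun h => (h0 a ha ω h).1)
  have pw : ∀ f : Finset (Fin n) × Fin n × Fin n → ℝ, (∀ q, 0 ≤ f q) →
      ∑ S ∈ R.powerset, ∑ q, f (S, q) ≤ ∑ q, f q := fun f hf => by
    rw [Fintype.sum_prod_type]
    exact sum_le_sum_of_subset_of_nonneg (subset_univ _) fun _ _ _ => sum_nonneg fun _ _ => hf _
  have h3 := br_count hp R (F := fun a => 16 * w a * av (fun ω => ind (Ge ω R Rᶜ ℓ) * h a ω))
    (fun a ha => mul_nonneg (mul_nonneg (by norm_num) (le_max_left _ _)) (h2 a ha))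
    (by norm_num [w]) (by norm_num [w, div_self r0.ne'])
  have h4 := br_count hp R (F := fun a => ind (1 = a) * 1) (fun _ _ => mul_nonneg (ind_nonneg _) zero_le_one)
    (by simp [ind]) (by rw [ind_of_not (by omega), zero_mul])
  rw [sum_ind_eq _ (mem_range.2 (by omega)), mul_one] at h4
  have h5 : H0 ((ℓ : ℝ) / L) R.card ≤ ∑ q, av (b q) := h4.trans ((sum_le_sum fun S _ =>
    sum_le_sum fun q _ => mul_le_of_le_one_right (av_nonneg (b0 (S, q)))
      ((mul_one _).trans_le (ind_le_one _))).trans (pw (fun q => av (b q)) fun q => av_nonneg (b0 q)))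
  have h6 : ∀ q, av (b q) * (av (fun ω : Om n L => ind (Ge ω R Rᶜ ℓ) * ind (1 / 9 < clk (cs ω R) ℓ L)) -
      7 / 50 * av (fun ω : Om n L => ind (Ge ω R Rᶜ ℓ))) ≤ E q := fun q => by
    by_cases hq : Idx q.2.1 q.2.2 (R, q.1)
    swap
    · rw [av_congr (b2 q hq), av_zero, zero_mul]; exact E0 q
    have h7 := ladder P m (by omega) (hℓ ▸ hL) hj hr (hq.1 hq.2.1) (g := b q) dep_br.ind (b0 q)
      fun ω h => hℓ ▸ (b1 q ω h).conn
    rw [hℓ] at h7
    have h8 := av_ind_split (ℓ := ℓ) (g := b q) dep_br.ind (Dep.const _ 1)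
    simp only [mul_one] at h8
    rw [mul_sub, ← av_ind_split dep_br.ind ((dep_cs R).comp fun c => ind (1 / 9 < clk c ℓ L)),
      mul_left_comm, ← h8, sub_le_iff_le_add']
    refine le_trans (av_mono fun ω => ?_) ((av_add _ _).trans_le (add_le_add
      ((av_const_mul 9 _).trans_le ((mul_le_mul_of_nonneg_left h7 (by norm_num)).trans ?_)) le_rfl))
    · rw [mul_left_comm, ← mul_add]
      refine mul_le_mul_of_nonneg_left (ind_le (add_nonneg (mul_nonneg (by norm_num) (mul_nonneg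
        (ind_nonneg _) (le_min zero_le_one clk_nonneg))) (ind_nonneg _)) fun h9 => ?_)
        (mul_nonneg (ind_nonneg _) (b0 _ _))
      by_cases h10 : Function.Injective ω ∧ Good ω N l m
      · rw [ind_of h10, ind_of_not (not_not.2 h10)]
        linarith [le_min (show (1 : ℝ) / 9 ≤ 1 by norm_num) h9.le]
      · rw [ind_of_not h10, ind_of h10]; norm_num
    · rw [← mul_assoc]
      refine mul_le_mul_of_nonneg_right ?_ (av_nonneg fun ω => mul_nonneg (ind_nonneg _) (b0 _ _))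
      have e1 : 15000 / (((j : ℝ) / N) ^ 3 * n) ≤ 15000 / 10 ^ 6 := by gcongr
      have e2 : 525 / (l : ℝ) ^ 7 ≤ 525 / 10 ^ 9 := by
        gcongr; exact l9.trans (le_self_pow₀ P.l1 (by norm_num))
      linarith
  have H1 := H0_nonneg (p := (ℓ : ℝ) / L) (by positivity) R.card
  have E1 : 0 ≤ ∑ q, E q := sum_nonneg fun q _ => E0 q
  have h7 : H0 ((ℓ : ℝ) / L) R.card * (av (fun ω : Om n L => ind (Ge ω R Rᶜ ℓ) *
      ind (1 / 9 < clk (cs ω R) ℓ L)) - 7 / 50 * av (fun ω : Om n L => ind (Ge ω R Rᶜ ℓ))) ≤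
      ∑ q, E q := by
    rcases le_total 0 (av (fun ω : Om n L => ind (Ge ω R Rᶜ ℓ) * ind (1 / 9 < clk (cs ω R) ℓ L)) -
      7 / 50 * av (fun ω : Om n L => ind (Ge ω R Rᶜ ℓ))) with h8 | h8
    · exact (mul_le_mul_of_nonneg_right h5 h8).trans ((sum_mul _ _ _).trans_le
        (sum_le_sum fun q _ => h6 q))
    · exact (mul_nonpos_of_nonneg_of_nonpos H1 h8).trans E1
  have h8 : 2 / 5 * (R.card / n) * (av (fun ω : Om n L => ind (Ge ω R Rᶜ ℓ)) -
      av (fun ω : Om n L => ind (Ge ω R Rᶜ ℓ) * ind (1 / 9 < clk (cs ω R) ℓ L))) ≤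
      ∑ a ∈ range (R.card + 1), 16 * w a * av (fun ω => ind (Ge ω R Rᶜ ℓ) * h a ω) := by
    simp only [← av_const_mul, ← av_sum, ← av_sub]
    refine av_mono fun ω => ?_
    simp only [mul_left_comm _ (ind (Ge ω R Rᶜ ℓ)), ← mul_sum, ← mul_one_sub]
    refine ind_mul_mono fun hG => ?_
    by_cases h9 : 1 / 9 < clk (cs ω R) ℓ L
    · rw [ind_of h9, sub_self, mul_zero]
      exact sum_nonneg fun a ha => mul_nonneg (mul_nonneg (by norm_num) (le_max_left _ _))
        (h0 a (Nat.lt_succ_iff.1 (mem_range.1 ha)) ω hG).1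
    obtain ⟨u, hu⟩ := card_pos.1 (show 0 < R.card by omega)
    have h10 := ps (c := cs ω R) (b := n / 2) cs_mono ((cs_top hu).symm ▸ Nat.div_le_self n 2)
      (Nat.add_sub_cancel' hL) ((c0 ω hG).symm ▸ (by omega)) le_rfl (not_lt.1 h9)
    rw [c0 ω hG, cs_top hu] at h10
    simp only [mul_assoc (16 : ℝ), ← mul_sum]
    refine le_trans ?_ (mul_le_mul_of_nonneg_left h10 (by norm_num))
    have h11 : 1 / (n : ℝ) ^ 2 ≤ 1 / 1000 := by gcongr; nlinarith
    have h12 := mul_le_mul (show 8 / 9 ≤ 1 - clk (cs ω R) ℓ L by linarith)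
      (show 3 / 100 ≤ 1 / 16 - clk (cs ω R) ℓ L / 4 - (((n / 2 : ℕ) : ℝ) / n - 1 / 2) ^ 2 by
        linarith [half_sq P.n0]) (by norm_num) (by linarith)
    rw [ind_of_not h9]
    nlinarith [mul_le_mul_of_nonneg_left h12 (show 0 ≤ (R.card : ℝ) / n by positivity),
      show 0 ≤ (R.card : ℝ) / n by positivity]
  have h9 := ((mul_le_mul_of_nonneg_left h8 H1).trans h3).trans ((sum_le_sum fun S hS =>
    sum_le_sum fun q _ => show _ ≤ av (fun ω : Om n L =>
      ind (Function.Injective ω ∧ Ge ω R Rᶜ ℓ) * b (S, q) ω *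
        (1 * ∑ A, ind (Fn ω R S A) * ind (n / 2 = A.card))) + E (S, q) from ?_).trans
    (pw (fun q => av (fun ω : Om n L => ind (Function.Injective ω ∧ Ge ω R Rᶜ ℓ) * b q ω *
        (1 * ∑ A, ind (Fn ω R q.1 A) * ind (n / 2 = A.card))) + E q) fun q => add_nonneg
      (av_nonneg fun ω => mul_nonneg (mul_nonneg (ind_nonneg _) (b0 _ _)) (mul_nonneg zero_le_one
        (sum_nonneg fun _ _ => mul_nonneg (ind_nonneg _) (ind_nonneg _)))) (E0 q)))
  · rw [sum_add_distrib] at h9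
    have h10 := mul_le_mul_of_nonneg_left h7 (show 0 ≤ 2 / 5 * ((R.card : ℝ) / n) by positivity)
    have h11 := mul_le_mul_of_nonneg_right r1 E1
    have h12 : 0 ≤ (R.card : ℝ) / n * H0 ((ℓ : ℝ) / L) R.card *
        av (fun ω : Om n L => ind (Ge ω R Rᶜ ℓ)) :=
      mul_nonneg (by positivity) (av_nonneg fun _ => ind_nonneg _)
    linarith
  have hS := card_le_card (mem_powerset.1 hS)
  refine le_trans (mul_le_mul_of_nonneg_left (mul_le_of_le_one_left (h2 _ hS) (by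
    have : w S.card ≤ 1 / 16 := max_le (by norm_num) (sub_le_self _ (sq_nonneg _))
    linarith)) (av_nonneg (b0 (S, q)))) ?_
  by_cases hq : Idx q.1 q.2 (R, S)
  swap
  · simp only [E, b, show ∀ ω, ind (Br ω ℓ R S q.1 q.2) = 0 from b2 (S, q) hq, mul_zero, zero_mul,
      av_zero, add_zero, le_refl]
  rw [← av_ind_split dep_br.ind ((dep_cs R).comp fun c => hh _ c (L - ℓ) ℓ S.card),
    polya (fun i => ind (n / 2 = i)) (Nat.add_sub_cancel' hL) (hq.1 hq.2.1) hq.1 (g := b (S, q))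
      dep_br.ind (fun ω h => (b1 _ ω h).conn) (Θ := fun _ => 1) fun _ _ _ => rfl, ← av_add]
  refine av_mono fun ω => ?_
  by_cases hG : Ge ω R Rᶜ ℓ
  swap
  · simp [hG, ind]
  by_cases hI : Function.Injective ω
  · rw [ind_of (And.intro hI hG), ind_of hG, one_mul (hh _ _ _ _ _)]
    exact le_add_of_nonneg_right (mul_nonneg (mul_nonneg zero_le_one (b0 _ _)) (ind_nonneg _))
  · rw [ind_of_not fun h : _ ∧ _ => hI h.1, ind_of (P := ¬ _) fun h : _ ∧ _ => hI h.1, zero_mul,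
      zero_mul, zero_add]
    exact mul_le_mul_of_nonneg_left (h0 _ hS ω hG).2 (mul_nonneg (ind_nonneg _) (ind_nonneg _))

theorem num_r {ε p : ℝ} {r : ℕ} (e0 : 0 < ε) (e1 : ε ≤ 1 / 100) (en : 10 ^ 6 ≤ ε * n)
    (e3 : 10 ^ 6 ≤ ε ^ 3 * n) (hp : p * n = 1 + ε) (r0 : 0 < r) (r1 : r ≤ 12 / 5 * ε * n) :
    exp (-(10 * (ε ^ 3 * n))) / (50 * (ε * n) ^ 2) ≤
      n.choose r * (1 / 3 * (r / n) * H0 p r * exp (-((r * (n - r)) * (p + p ^ 2)))) := by
  have n0 : (0 : ℝ) < n := by nlinarith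
  have p0 : 0 < p := by nlinarith
  have r2 : (0 : ℝ) < r := Nat.cast_pos.2 r0
  have r3 : r * p ≤ 5 / 2 * ε := by
    calc _ ≤ 12 / 5 * ε * n * p := by gcongr
      _ = 12 / 5 * ε * (1 + ε) := by rw [← hp]; ring
      _ ≤ _ := by nlinarith
  have h1 := tw_ge (M := n) p0.le (show 2 * ε ≤ 1 / 2 by linarith) r fun k hk => by
    have : (k : ℝ) * p ≤ r * p := by gcongr
    have : 0 ≤ (k : ℝ) * p := by positivity
    rw [sub_mul, mul_comm (n : ℝ), hp, abs_le]
    constructor <;> linarith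
  have h2 : r * ((2 * ε) ^ 2 + p ^ 2 * n) ≤ 10 * (ε ^ 3 * n) := by
    have h3 : r * (p ^ 2 * n) ≤ 1 := by
      calc _ = r * p * (1 + ε) := by rw [← hp]; ring
        _ ≤ 5 / 2 * ε * (1 + ε) := by gcongr
        _ ≤ _ := by nlinarith
    nlinarith [mul_le_mul_of_nonneg_right r1 (sq_nonneg (2 * ε))]
  obtain ⟨k, rfl⟩ := Nat.exists_eq_add_one_of_ne_zero r0.ne'
  calc _ ≤ exp (-((k + 1 : ℕ) * ((2 * ε) ^ 2 + p ^ 2 * n))) * (8 / (27 * (p * n) * (k + 1 : ℕ) ^ 2)) := by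
        rw [div_eq_mul_one_div]
        gcongr exp ?_ * ?_
        · linarith
        · rw [hp, div_le_div_iff₀ (by positivity) (by positivity)]
          nlinarith [pow_le_pow_left₀ r2.le r1 2, sq_nonneg (ε * n),
            mul_le_mul_of_nonneg_right e1 (sq_nonneg ((k + 1 : ℕ) : ℝ))]
    _ ≤ _ := (mul_le_mul_of_nonneg_right h1 (by positivity)).trans_eq (by
        rw [Nat.descFactorial_eq_factorial_mul_choose, H0, Nat.add_sub_cancel,
          show -((p + p ^ 2) * (((k + 1 : ℕ) : ℝ) * n - (k + 1 : ℕ) ^ 2 / 2)) =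
            -((p + p ^ 2) * ((k + 1 : ℕ) ^ 2 / 2)) + -((k + 1 : ℕ) * (n - (k + 1 : ℕ)) * (p + p ^ 2)) by
              ring, exp_add, Nat.cast_mul]
        field_simp
        ring)

theorem lower (P : Par n N L l m) (h1 : N + j ≤ m) (hj : 10 ^ 6 ≤ ((j : ℝ) / N) ^ 3 * n) :
    exp (-(10 * (((j : ℝ) / N) ^ 3 * n))) / (50 * ((j : ℝ) / N * n)) ≤
      3 * av (fun ω : Om n L => ind (Function.Injective ω ∧ Split ω)) + 4 / n ^ 4 := by
  have := P.ne
  have n9 := P.n9
  obtain ⟨-, hR⟩ := P.rung h1 hj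
  have e0 := hR.e0
  have en := hR.en
  have hL := h1.trans P.mL
  have h2 := fun R => low_R (R := R) P h1 hj
  have hp := hR.p
  have hp' := hR.small.trans (show 1 / 100 ≤ 1 / 2 by norm_num)
  have e1 := hR.e1
  generalize (j : ℝ) / N = ε at *
  generalize N + j = ℓ at *
  let I := Icc ⌈6 / 5 * ε * n⌉₊ ⌊12 / 5 * ε * n⌋₊
  let F : ℕ → ℝ := fun r => ind (r ∈ I) * (1 / 3 * (r / n) * H0 ((ℓ : ℝ) / L) r * qq L ℓ ^ (r * (n - r)))
  have hI : ∀ r ∈ I, 6 / 5 * ε * n ≤ r ∧ r ≤ 12 / 5 * ε * n := fun r h =>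
    ⟨Nat.ceil_le.1 (mem_Icc.1 h).1, (Nat.le_floor_iff (by positivity)).1 (mem_Icc.1 h).2⟩
  have hn : ∀ r ∈ I, r ≤ n := fun r h => by
    have : (r : ℝ) ≤ n := by nlinarith [(hI r h).2]
    exact_mod_cast this
  calc _ = ε * n * (exp (-(10 * (ε ^ 3 * n))) / (50 * (ε * n) ^ 2)) := by field_simp
    _ ≤ I.card * (exp (-(10 * (ε ^ 3 * n))) / (50 * (ε * n) ^ 2)) := by
        gcongr
        have h3 := Nat.ceil_lt_add_one (show 0 ≤ 6 / 5 * ε * n by positivity)
        have h4 := Nat.lt_floor_add_one (12 / 5 * ε * n)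
        rw [Nat.card_Icc, Nat.cast_sub (by
          have : (⌈6 / 5 * ε * n⌉₊ : ℝ) ≤ (⌊12 / 5 * ε * n⌋₊ + 1 : ℕ) := by push_cast; linarith
          exact_mod_cast this)]
        push_cast; linarith
    _ ≤ ∑ r ∈ I, n.choose r * F r := by
        rw [← nsmul_eq_mul]
        refine card_nsmul_le_sum _ _ _ fun r hr => (num_r e0 e1 en hj hp (Nat.cast_pos.1
          (lt_of_lt_of_le (by positivity) (hI r hr).1)) (hI r hr).2).trans ?_
        simp only [F, ind_of hr, one_mul]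
        have := H0_nonneg (p := (ℓ : ℝ) / L) (by positivity) r
        gcongr
        refine le_trans (le_of_eq ?_) (exp_le_qq_pow hp' _)
        rw [Nat.cast_mul, Nat.cast_sub (hn r hr)]
    _ ≤ ∑ R : Finset (Fin n), F R.card := by
        rw [← powerset_univ, sum_powerset_apply_card F, card_univ, Fintype.card_fin]
        simp only [nsmul_eq_mul]
        refine sum_le_sum_of_subset_of_nonneg (fun r hr => mem_range.2 (Nat.lt_succ_of_le (hn r hr)))
          fun r _ hr => ?_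
        simp only [F, ind_of_not hr, zero_mul, mul_zero, le_refl]
    _ ≤ _ := by
        refine (sum_le_sum fun R _ => ind_mul_le (add_nonneg (sum_nonneg fun _ _ => av_nonneg fun _ =>
          mul_nonneg (mul_nonneg (ind_nonneg _) (ind_nonneg _)) (mul_nonneg zero_le_one (sum_nonneg
            fun _ _ => mul_nonneg (ind_nonneg _) (ind_nonneg _)))) (mul_nonneg two_pos.le (sum_nonneg
              fun _ _ => av_nonneg fun _ => mul_nonneg (mul_nonneg (ind_nonneg _) (ind_nonneg _))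
                (ind_nonneg _)))) fun h => le_trans (le_of_eq ?_) (h2 R (hI _ h).1)).trans ?_
        · rw [av_ge hL disjoint_compl_right, card_compl, Fintype.card_fin]
        simp only [sum_add_distrib, ← mul_sum, ← av_sum, ← sum_mul]
        refine add_le_add ((av_mono fun ω => br_split (by
          have : (2 : ℝ) ≤ n := by linarith
          exact_mod_cast this) ω ℓ).trans_eq (av_const_mul _ _)) ?_
        have h3 : av (fun ω : Om n L => ind (¬ (Function.Injective ω ∧ Good ω N l m))) ≤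
            1 / n ^ 6 + 1 / n ^ 6 := by
          simp only [not_and_or]
          exact (av_or_le _ _).trans (add_le_add (av_inj P) (av_not_good P))
        refine (mul_le_mul_of_nonneg_left ((av_mono fun ω => mul_le_mul_of_nonneg_right
          ((le_of_eq (by simp only [mul_sum])).trans (br_le ω ℓ)) (ind_nonneg _)).trans ((av_const_mul _ _).trans_le (mul_le_mul_of_nonneg_left h3
            (by positivity)))) two_pos.le).trans_eq ?_
        field_simp
        norm_num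

end

end Pool.Agent.P.MP_5fda20_pr
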