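import Pool.Agent.P.MP_5fda20_pr.Mst

/-! From real weights to discrete weights. -/

namespace Pool.Agent.P.MP_5fda20_pr

open Finset MeasureTheory

noncomputable section

section box

variable {ι : Type} {L : ℕ}

/-- The real weights that round down to `ρ`. -/
def box (ρ : ι → Fin L) : Set (ι → ℝ) :=
  Set.univ.pi fun e => Set.Ico (((ρ e).val : ℝ) / L) ((((ρ e).val : ℝ) + 1) / L)

theorem lt_of_box {ρ ρ' : ι → Fin L} {W : ι → ℝ} (h : W ∈ box ρ) (h' : W ∈ box ρ') {e f : ι}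
    (hl : (ρ e).val < (ρ' f).val) : W e < W f := by
  refine (h e trivial).2.trans_le (le_trans ?_ (h' f trivial).1)
  have : ((ρ e).val : ℝ) + 1 ≤ (ρ' f).val := by exact_mod_cast hl
  gcongr

theorem box_disjoint {ρ ρ' : ι → Fin L} (h : ρ ≠ ρ') : Disjoint (box ρ) (box ρ') :=
  Set.disjoint_left.2 fun _ h1 h2 => h (funext fun _ => Fin.ext (le_antisymm
    (not_lt.1 fun h3 => lt_irrefl _ (lt_of_box h2 h1 h3))
    (not_lt.1 fun h3 => lt_irrefl _ (lt_of_box h1 h2 h3))))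

theorem exists_box [NeZero L] {W : ι → ℝ} (h : ∀ e, W e ∈ Set.Ico (0 : ℝ) 1) :
    ∃ ρ : ι → Fin L, W ∈ box ρ := by
  have hL : (0 : ℝ) < L := Nat.cast_pos.2 (NeZero.pos L)
  have h0 : ∀ e, 0 ≤ W e * L := fun e => mul_nonneg (h e).1 hL.le
  refine ⟨fun e => ⟨⌊W e * L⌋₊, (Nat.floor_lt (h0 e)).2 (mul_lt_of_lt_one_left hL (h e).2)⟩,
    fun e _ => ⟨?_, ?_⟩⟩
  · rw [div_le_iff₀ hL]; exact Nat.floor_le (h0 e)
  · rw [lt_div_iff₀ hL]; exact Nat.lt_floor_add_one _

variable [Fintype ι] [DecidableEq ι] [NeZero L]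

theorem real_box (ρ : ι → Fin L) :
    (Measure.pi fun _ : ι => volume.restrict (Set.Icc (0 : ℝ) 1)).real (box ρ) =
      1 / Fintype.card (ι → Fin L) := by
  have hL : (0 : ℝ) < L := Nat.cast_pos.2 (NeZero.pos L)
  rw [measureReal_def, box, Measure.pi_pi, ENNReal.toReal_prod, Fintype.card_fun, Fintype.card_fin,
    Nat.cast_pow, ← one_div_pow, ← card_univ, ← prod_const]
  refine prod_congr rfl fun e _ => ?_
  have h1 : ((ρ e).val : ℝ) + 1 ≤ L := by exact_mod_cast (ρ e).is_lt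
  rw [Measure.restrict_apply measurableSet_Ico, Set.inter_eq_left.2 (Set.Ico_subset_Icc_self.trans
    (Set.Icc_subset_Icc (by positivity) ((div_le_one hL).2 h1))), Real.volume_Ico,
    ← sub_div, add_sub_cancel_left, ENNReal.toReal_ofReal (by positivity)]

theorem real_boxes (G : (ι → Fin L) → Prop) :
    (Measure.pi fun _ : ι => volume.restrict (Set.Icc (0 : ℝ) 1)).real {W | ∃ ρ, G ρ ∧ W ∈ box ρ} =
      av fun ρ => ind (G ρ) := by
  classical
  have : {W | ∃ ρ, G ρ ∧ W ∈ box ρ} = ⋃ ρ ∈ univ.filter G, box ρ := by ext W; simp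
  rw [this, measureReal_biUnion_finset (fun _ _ _ _ h => box_disjoint h)
    fun _ _ => MeasurableSet.univ_pi fun _ => measurableSet_Ico, av, sum_ind_eq_card,
    sum_congr rfl fun ρ _ => real_box ρ, sum_const, nsmul_eq_mul, mul_one_div]

theorem real_le_av (S : Set (ι → ℝ)) :
    (Measure.pi fun _ : ι => volume.restrict (Set.Icc (0 : ℝ) 1)).real S ≤
      av fun ρ : ι → Fin L => ind (∃ W ∈ box ρ, W ∈ S) := by
  rw [← real_boxes]
  refine ENNReal.toReal_mono (measure_ne_top _ _) (measure_mono_ae ?_)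
  have h : ∀ᵐ x ∂volume.restrict (Set.Icc (0 : ℝ) 1), x ∈ Set.Ico (0 : ℝ) 1 := by
    rw [← restrict_Ico_eq_restrict_Icc]
    exact ae_restrict_mem measurableSet_Ico
  filter_upwards [ae_all_iff.2 fun e : ι =>
    (Measure.tendsto_eval_ae_ae (μ := fun _ : ι => volume.restrict (Set.Icc (0 : ℝ) 1))
      (i := e)).eventually h] with W h1 h2
  obtain ⟨ρ, h3⟩ := exists_box (L := L) h1
  exact ⟨ρ, ⟨W, h3, h2⟩, h3⟩

theorem av_le_real (S : Set (ι → ℝ)) : (av fun ρ : ι → Fin L => ind (box ρ ⊆ S)) ≤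
    (Measure.pi fun _ : ι => volume.restrict (Set.Icc (0 : ℝ) 1)).real S := by
  rw [← real_boxes]
  exact measureReal_mono fun W ⟨ρ, h1, h2⟩ => h1 h2

end box

theorem av_restrict {κ X : Type} [Fintype κ] [DecidableEq κ] [Fintype X] [Nonempty X]
    (p : κ → Prop) [Fintype {i // p i}] [DecidableEq {i // p i}] (f : ({i // p i} → X) → ℝ) :
    av (fun ω : κ → X => f fun i => ω i) = av f := by
  classical
  have h4 : (Fintype.card ({j // ¬ p j} → X) : ℝ) ≠ 0 := Nat.cast_ne_zero.2 Fintype.card_ne_zero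
  have h5 : (Fintype.card ({j // p j} → X) : ℝ) ≠ 0 := Nat.cast_ne_zero.2 Fintype.card_ne_zero
  let e := Equiv.piEquivPiSubtypeProd p fun _ => X
  have h : ∑ ω : κ → X, (f fun i => ω i) = ∑ q : ({j // p j} → X) × ({j // ¬ p j} → X), f q.1 :=
    e.sum_comp fun q => f q.1
  simp only [av]
  rw [h, Fintype.card_congr e, Fintype.card_prod, Fintype.sum_prod_type]
  simp only [sum_const, card_univ, nsmul_eq_mul, ← mul_sum, Nat.cast_mul]
  field_simp

variable {n L : ℕ} [NeZero L]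

omit [NeZero L] in
theorem cmp_of_box {ω : Om n L} {W : (⊤ : SimpleGraph (Fin n)).edgeSet → ℝ}
    (h : W ∈ box fun e : (⊤ : SimpleGraph (Fin n)).edgeSet => ω e) : Cmp ω W :=
  ⟨fun e => le_trans (by positivity) (h e trivial).1, fun _ _ h1 => lt_of_box h h h1⟩

theorem pMST_le : pMST (⊤ : SimpleGraph (Fin n)) ≤
    av fun ω : Om n L => ind (¬ Function.Injective ω ∨ Split ω) := by
  unfold pMST
  refine (@real_le_av _ L (_) _ _ _).trans ?_
  rw [← @av_restrict _ _ _ _ _ _ (· ∈ (⊤ : SimpleGraph (Fin n)).edgeSet) (_)]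
  refine av_mono fun ω => ind_mono ?_
  rintro ⟨W, h1, T, h2, h3⟩
  exact or_iff_not_imp_left.2 fun h => split_of (not_not.1 h) (cmp_of_box h1) h2 h3

theorem le_pMST : (av fun ω : Om n L => ind (Function.Injective ω ∧ Split ω)) ≤
    pMST (⊤ : SimpleGraph (Fin n)) := by
  unfold pMST
  refine le_trans ?_ (@av_le_real _ L (_) _ _ _)
  rw [← @av_restrict _ _ _ _ _ _ (· ∈ (⊤ : SimpleGraph (Fin n)).edgeSet) (_)]
  exact av_mono fun ω => ind_mono fun h W h1 => splittable_of h.1 (cmp_of_box h1) h.2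

end

end Pool.Agent.P.MP_5fda20_pr
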