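import Pool.Agent.P.MP_5fda20_pr.Low2
import Pool.Agent.P.MP_5fda20_pr.Def

/-! Minimum spanning trees and Kruskal edges. -/

namespace Pool.Agent.P.MP_5fda20_pr

open Finset SimpleGraph

noncomputable section

section gen

variable {V : Type} {T : SimpleGraph V} {a b x y : V}

theorem two_cls (hT : T.Preconnected) (a b z : V) :
    (T.deleteEdges {s(a, b)}).Reachable a z ∨ (T.deleteEdges {s(a, b)}).Reachable b z := by
  have h := (reachable_iff_reflTransGen _ _).1 (hT a z)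
  induction h with
  | refl => exact Or.inl (Reachable.refl _)
  | @tail c d _ h2 ih =>
    by_cases h3 : s(c, d) = s(a, b)
    · rcases Sym2.eq_iff.1 h3 with ⟨-, rfl⟩ | ⟨-, rfl⟩
      · exact Or.inr (Reachable.refl _)
      · exact Or.inl (Reachable.refl _)
    · have h4 : (T.deleteEdges {s(a, b)}).Adj c d := by
        rw [deleteEdges_adj]; exact ⟨h2, h3⟩
      exact ih.imp (·.trans h4.reachable) (·.trans h4.reachable)

theorem swap_conn (hT : T.Connected) (h : ¬ (T.deleteEdges {s(a, b)}).Reachable x y) :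
    (T.deleteEdges {s(a, b)} ⊔ edge x y).Connected := by
  have hxy : x ≠ y := fun e => h (e ▸ Reachable.refl _)
  have h1 : (T.deleteEdges {s(a, b)} ⊔ edge x y).Reachable x y :=
    Adj.reachable (Or.inr ((edge_adj _ _ _ _).2 ⟨Or.inl ⟨rfl, rfl⟩, hxy⟩))
  have m : ∀ {c d}, (T.deleteEdges {s(a, b)}).Reachable c d →
      (T.deleteEdges {s(a, b)} ⊔ edge x y).Reachable c d := fun h => h.mono le_sup_left
  have h2 : (T.deleteEdges {s(a, b)} ⊔ edge x y).Reachable a b := by
    rcases two_cls hT.preconnected a b x with h2 | h2 <;>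
      rcases two_cls hT.preconnected a b y with h3 | h3
    · exact (h (h2.symm.trans h3)).elim
    · exact (m h2).trans (h1.trans (m h3).symm)
    · exact (m h3).trans (h1.symm.trans (m h2).symm)
    · exact (h (h2.symm.trans h3)).elim
  have h3 : ∀ z, (T.deleteEdges {s(a, b)} ⊔ edge x y).Reachable a z := fun z =>
    (two_cls hT.preconnected a b z).elim m fun h => h2.trans (m h)
  have : Nonempty V := ⟨a⟩
  exact ⟨fun c d => (h3 c).symm.trans (h3 d)⟩

theorem sep_edge (hT : T.IsTree) (S : Set V) (hx : x ∈ S) (hy : y ∉ S) :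
    ∃ a b, T.Adj a b ∧ a ∈ S ∧ b ∉ S ∧ ¬ (T.deleteEdges {s(a, b)}).Reachable x y := by
  classical
  obtain ⟨p, hp, hu⟩ := hT.existsUnique_path x y
  obtain ⟨d, hd, h1, h2⟩ := p.exists_boundary_dart S hx hy
  refine ⟨d.fst, d.snd, d.adj, h1, h2, fun h => ?_⟩
  obtain ⟨q, hq⟩ := reachable_deleteEdges_iff_exists_walk.1 h
  refine hq (q.edges_bypass_subset_edges ?_)
  rw [hu _ q.bypass_isPath]
  exact List.mem_map.2 ⟨d, hd, rfl⟩

variable [Fintype V] {G : SimpleGraph V} {W : G.edgeSet → ℝ}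

theorem cut (hW : ∀ e, 0 ≤ W e) (hT : IsMST G W T) {e f : G.edgeSet} (he : e.1 = s(a, b))
    (hf : f.1 = s(x, y)) (hab : T.Adj a b) (h : ¬ (T.deleteEdges {s(a, b)}).Reachable x y) :
    W e ≤ W f := by
  classical
  obtain ⟨T', h1, h2⟩ := (swap_conn hT.2.1.connected h).exists_isTree_le
  have hxy : G.Adj x y := by rw [← mem_edgeSet, ← hf]; exact f.2
  have h3 := hT.2.2 T' (h1.trans (sup_le ((deleteEdges_le _).trans hT.1)
    ((edge_le_iff G).2 (Or.inr hxy)))) h2
  have h4 : ∀ c : G.edgeSet, (if c.1 ∈ T'.edgeSet then W c else 0) + (if c = e then W c else 0) ≤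
      (if c.1 ∈ T.edgeSet then W c else 0) + (if c = f then W c else 0) := fun c => by
    have h5 : c.1 ∈ T'.edgeSet → (c.1 ∈ T.edgeSet ∧ c ≠ e) ∨ c = f := fun h5 => by
      have := edgeSet_mono h1 h5
      rw [edgeSet_sup, edgeSet_deleteEdges, edgeSet_edge_of_ne hxy.ne] at this
      rcases this with ⟨h6, h7⟩ | h6
      · exact Or.inl ⟨h6, fun h8 => h7 (h8 ▸ he)⟩
      · exact Or.inr (Subtype.ext (h6.trans hf.symm))
    have h6 : c = e → c.1 ∈ T.edgeSet := fun h6 => by rw [h6, he]; exact hab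
    have := hW c
    split_ifs <;> first | linarith | tauto
  have h5 := sum_le_sum fun c (_ : c ∈ univ) => h4 c
  rw [sum_add_distrib, sum_add_distrib, sum_ite_eq', sum_ite_eq', if_pos (mem_univ _),
    if_pos (mem_univ _)] at h5
  unfold weight at h3
  linarith

theorem exists_mst (hG : G.Connected) (W : G.edgeSet → ℝ) : ∃ T, IsMST G W T := by
  obtain ⟨T0, h0⟩ := hG.exists_isTree_le
  obtain ⟨T, hT, h⟩ := Set.exists_min_image {T | T ≤ G ∧ T.IsTree} (weight G W)
    (Set.toFinite _) ⟨T0, h0⟩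
  exact ⟨T, hT.1, hT.2, fun T' h1 h2 => h T' ⟨h1, h2⟩⟩

end gen

variable {n L : ℕ} {ω : Om n L} {W : (⊤ : SimpleGraph (Fin n)).edgeSet → ℝ}
  {T : SimpleGraph (Fin n)} {a b : Fin n}

/-- The real weights are ordered as the discrete ones. -/
def Cmp (ω : Om n L) (W : (⊤ : SimpleGraph (Fin n)).edgeSet → ℝ) : Prop :=
  (∀ e, 0 ≤ W e) ∧ ∀ e f, (ω e.1).val < (ω f.1).val → W e < W f

theorem kr_of_adj (hC : Cmp ω W) (hT : IsMST ⊤ W T) (h : T.Adj a b) : Kr ω a b := fun h1 => by
  refine isBridge_iff.1 (isAcyclic_iff_forall_adj_isBridge.1 hT.2.1.isAcyclic h)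
    (reach_ind (P := fun z => (T.deleteEdges {s(a, b)}).Reachable a z)
      (fun z hz _ => mem_singleton.1 hz ▸ Reachable.refl _) (fun c _ d _ h2 h3 => h2.trans ?_) h1)
  by_contra h4
  have h5 : c ≠ d := fun e => h4 (e ▸ Reachable.refl _)
  exact (cut hC.1 hT (e := ⟨s(a, b), h.ne⟩) (f := ⟨s(c, d), h5⟩) rfl rfl h h4).not_gt
    (hC.2 _ _ h3)

theorem adj_of_kr (hI : Function.Injective ω) (hC : Cmp ω W) (hT : IsMST ⊤ W T) (h : Kr ω a b) :
    T.Adj a b := by
  obtain ⟨c, d, h1, h2, h3, h4⟩ := sep_edge hT.2.1 (cp ω (ω s(a, b)).val a : Set (Fin n))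
    self_mem_cp h
  have h5 : a ≠ b := fun e => h4 (e ▸ Reachable.refl _)
  have h6 := (cut hC.1 hT (e := ⟨s(c, d), h1.ne⟩) (f := ⟨s(a, b), h5⟩) rfl rfl h1 h4).not_gt
  have h7 : s(c, d) = s(a, b) := hI (Fin.ext (le_antisymm (not_lt.1 fun h7 => h6 (hC.2 _ _ h7))
    (not_lt.1 fun h7 => h3 (cp_closed h2 h7))))
  rw [← mem_edgeSet, ← h7]
  exact h1

theorem split_of (hI : Function.Injective ω) (hC : Cmp ω W) (hT : IsMST ⊤ W T)
    (h : Splittable T) : Split ω := by
  classical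
  obtain ⟨u, v, h1, h2, -⟩ := h
  have hm : ∀ z, z ∈ ((T.deleteEdges {s(u, v)}).connectedComponentMk u).supp.toFinset ↔
      (T.deleteEdges {s(u, v)}).Reachable z u := fun z => by
    rw [Set.mem_toFinset, ConnectedComponent.mem_supp_iff, ConnectedComponent.eq]
  refine ⟨((T.deleteEdges {s(u, v)}).connectedComponentMk u).supp.toFinset, u, v, ?_,
    (hm u).2 (Reachable.refl _), fun h3 => ?_, kr_of_adj hC hT h1, fun x y h3 h4 => ?_⟩
  · rw [← Set.ncard_eq_toFinset_card', h2, Fintype.card_fin]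
  · exact isBridge_iff.1 (isAcyclic_iff_forall_adj_isBridge.1 hT.2.1.isAcyclic h1)
      ((hm v).1 h3).symm
  · have h5 : (T.deleteEdges {s(u, v)}).Adj x y := by
      rw [deleteEdges_adj]; exact ⟨adj_of_kr hI hC hT h3, h4⟩
    rw [hm, hm]
    exact ⟨h5.reachable.symm.trans, h5.reachable.trans⟩

theorem splittable_of (hI : Function.Injective ω) (hC : Cmp ω W) (h : Split ω) :
    ∃ T, IsMST ⊤ W T ∧ Splittable T := by
  obtain ⟨A, u, v, h1, h2, h3, h4, h5⟩ := h
  have : Nonempty (Fin n) := ⟨u⟩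
  obtain ⟨T, hT⟩ := exists_mst (connected_top (V := Fin n)) W
  have h6 : ∀ x y, (T.deleteEdges {s(u, v)}).Reachable x y → (x ∈ A ↔ y ∈ A) := fun x y h => by
    rw [reachable_iff_reflTransGen] at h
    induction h with
    | refl => rfl
    | tail _ h7 ih =>
      rw [deleteEdges_adj] at h7
      exact ih.trans (h5 _ _ (kr_of_adj hC hT h7.1) h7.2)
  have h7 := two_cls hT.2.1.connected.preconnected u v
  refine ⟨T, hT, u, v, adj_of_kr hI hC hT h4, ?_, ?_⟩
  · have : ((T.deleteEdges {s(u, v)}).connectedComponentMk u).supp = (A : Set (Fin n)) := by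
      ext z
      rw [ConnectedComponent.mem_supp_iff, ConnectedComponent.eq, mem_coe]
      exact ⟨fun h => (h6 _ _ h).2 h2, fun h =>
        ((h7 z).resolve_right fun h8 => h3 ((h6 _ _ h8).2 h)).symm⟩
    rw [this, Set.ncard_coe_finset, Fintype.card_fin, h1]
  · have : ((T.deleteEdges {s(u, v)}).connectedComponentMk v).supp = (Aᶜ : Finset (Fin n)) := by
      ext z
      rw [ConnectedComponent.mem_supp_iff, ConnectedComponent.eq, mem_coe, mem_compl]
      exact ⟨fun h h8 => h3 ((h6 _ _ h).1 h8), fun h =>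
        ((h7 z).resolve_left fun h8 => h ((h6 _ _ h8).1 h2)).symm⟩
    rw [this, Set.ncard_coe_finset, card_compl, Fintype.card_fin, ← h1]
    omega

end

end Pool.Agent.P.MP_5fda20_pr
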