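import Pool.Agent.P.MP_5fda20_pr.Expl

/-! Upper bounds from the exploration. -/

namespace Pool.Agent.P.MP_5fda20_pr

open Finset Real

noncomputable section

theorem exp_le_one_sub {δ : ℝ} (h0 : 0 ≤ δ) (h1 : δ ≤ 1 / 2) : exp (-(δ + δ ^ 2)) ≤ 1 - δ := by
  have h2 := quadratic_le_exp_of_nonneg (x := δ + δ ^ 2) (by positivity)
  rw [exp_neg, inv_le_iff_one_le_mul₀ (exp_pos _)]
  refine le_trans ?_ (mul_le_mul_of_nonneg_left h2 (by linarith))
  have h3 : δ + δ ^ 2 + δ ^ 3 ≤ 1 := by nlinarith [mul_nonneg h0 h0]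
  nlinarith [mul_nonneg (mul_nonneg h0 h0) (sub_nonneg.2 h3)]

theorem exp_le_one_add {γ : ℝ} (h0 : 0 ≤ γ) : exp (γ - γ ^ 2 / 2) ≤ 1 + γ := by
  rw [← le_log_iff_exp_le (by linarith)]
  refine le_trans ?_ (le_log_one_add_of_nonneg h0)
  rw [le_div_iff₀ (by linarith)]
  nlinarith [pow_nonneg h0 3]

theorem exp_le_of_abs {y w : ℝ} (h : |y - 1| ≤ w) (hw : w ≤ 1 / 2) : exp (y - 1 - w ^ 2) ≤ y := by
  obtain ⟨h1, h2⟩ := abs_le.1 h
  rcases le_total y 1 with h3 | h3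
  · have := exp_le_one_sub (δ := 1 - y) (by linarith) (by linarith)
    refine le_trans (exp_le_exp.2 ?_) (this.trans_eq (by ring))
    nlinarith
  · have := exp_le_one_add (γ := y - 1) (by linarith)
    refine le_trans (exp_le_exp.2 ?_) (this.trans_eq (by ring))
    nlinarith

theorem pow_le_exp {x : ℝ} (h : 0 ≤ 1 + x) (m : ℕ) : (1 + x) ^ m ≤ exp (m * x) := by
  rw [exp_nat_mul]
  exact pow_le_pow_left₀ h (by linarith [add_one_le_exp x]) m

theorem exp_le_pow {x y : ℝ} (h : exp y ≤ x) (m : ℕ) : exp (m * y) ≤ x ^ m := by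
  rw [exp_nat_mul]
  exact pow_le_pow_left₀ (exp_pos _).le h m

variable {n L : ℕ} [NeZero L] {ℓ : ℕ}

theorem one_sub_qq_pow_le (h : ℓ ≤ L) (j : ℕ) : 1 - qq L ℓ ^ j ≤ j * ((ℓ : ℝ) / L) := by
  have := one_add_mul_le_pow (a := -((ℓ : ℝ) / L)) (by have := qq_nonneg h; unfold qq at this; linarith) j
  unfold qq
  rw [sub_eq_add_neg 1 (_ / _)]
  linarith

theorem qq_pow_le_one (h : ℓ ≤ L) (j : ℕ) : qq L ℓ ^ j ≤ 1 := pow_le_one₀ (qq_nonneg h) (qq_le_one _)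

theorem qq_pow_le_exp (h : ℓ ≤ L) (j : ℕ) : qq L ℓ ^ j ≤ exp (-(j * ((ℓ : ℝ) / L))) := by
  have := pow_le_exp (x := -((ℓ : ℝ) / L)) (qq_nonneg h) j
  rwa [mul_neg] at this

omit [NeZero L] in
theorem exp_le_qq_pow (h : (ℓ : ℝ) / L ≤ 1 / 2) (j : ℕ) :
    exp (-(j * ((ℓ : ℝ) / L + ((ℓ : ℝ) / L) ^ 2))) ≤ qq L ℓ ^ j := by
  have := exp_le_pow (exp_le_one_sub (by positivity) h) j
  rwa [mul_neg] at this

theorem av_card_eq (h : ℓ ≤ L) {U Y : Finset (Fin n)} (hY : Y ⊆ U) {z : ℝ} (hz : 0 < z) (i : ℕ) :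
    av (fun ω : Om n L => ind ((reach (op ω ℓ) U Y).card = i)) ≤
      z ^ Y.card / z ^ i * (qq L ℓ ^ i + (1 - qq L ℓ ^ i) * z) ^ (U.card - Y.card) := by
  have hg : ∀ r, 0 ≤ qq L ℓ ^ r + (1 - qq L ℓ ^ r) * z := fun r =>
    add_nonneg (pow_nonneg (qq_nonneg h) _) (mul_nonneg (sub_nonneg.2 (qq_pow_le_one h r)) hz.le)
  have := expl h (fun t => ind (t = i)) (fun t j m => if t ≤ i then
    z ^ j / z ^ (i - t) * (qq L ℓ ^ (i - t) + (1 - qq L ℓ ^ (i - t)) * z) ^ m else 0) U.card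
    (fun t m _ => ?_) (fun t j m _ _ => ?_) U Y 0 hY (zero_add _)
  · simpa using this
  · refine ind_le ?_ ?_
    · split_ifs
      · have := hg (i - t); positivity
      · rfl
    · rintro rfl; simp
  · by_cases h1 : t + j ≤ i
    · obtain ⟨r, rfl⟩ := Nat.exists_eq_add_of_le h1
      simp only [if_pos h1, if_pos (show t ≤ t + j + r by omega), Nat.add_sub_cancel_left,
        show t + j + r - t = j + r by omega]
      have := bin_pow (1 - qq L ℓ ^ j) (qq L ℓ ^ j) (1 / z ^ r) z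
        (qq L ℓ ^ r + (1 - qq L ℓ ^ r) * z) m
      refine le_of_eq (Eq.trans (congrArg _ (funext fun k => by ring)) (this.trans ?_))
      rw [pow_add, pow_add]
      congr 1
      · field_simp
      · congr 1; ring
    · simp only [if_neg h1, bin, mul_zero, sum_const_zero]
      split_ifs
      · have := hg (i - t); positivity
      · rfl

theorem av_card_lo (h : ℓ ≤ L) (u : Fin n) {γ : ℝ} (h0 : 0 ≤ γ) (h1 : γ ≤ 1) (i : ℕ)
    (hi : (1 + γ) * i ≤ (n - 1 : ℝ) * (1 - qq L ℓ ^ (i + 1))) :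
    av (fun ω : Om n L => ind ((reach (op ω ℓ) univ {u}).card = i + 1)) ≤
      exp (-(i * γ ^ 2 / 4)) := by
  have hz : 0 < 1 - γ / 2 := by linarith
  refine (av_card_eq h (subset_univ _) hz _).trans ?_
  rw [card_singleton, card_fin, pow_one, pow_succ', div_mul_cancel_left₀ hz.ne', inv_mul_eq_div,
    div_le_iff₀ (pow_pos hz _)]
  have h2 := exp_le_pow (exp_le_one_sub (δ := γ / 2) (by linarith) (by linarith)) i
  have h3 := qq_pow_le_one h (i + 1)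
  have h4 := pow_nonneg (qq_nonneg h) (i + 1)
  have h5 := pow_le_exp (x := -((1 - qq L ℓ ^ (i + 1)) * (γ / 2))) (by nlinarith) (n - 1)
  rw [Nat.cast_pred u.pos] at h5
  calc _ = _ := by congr 1; ring
    _ ≤ _ := h5
    _ ≤ exp (-(i * γ ^ 2 / 4)) * exp (i * -(γ / 2 + (γ / 2) ^ 2)) := by
        rw [← exp_add]; exact exp_le_exp.2 (by nlinarith)
    _ ≤ _ := by gcongr

theorem av_card_hi (h : ℓ ≤ L) (u : Fin n) {γ : ℝ} (h0 : 0 ≤ γ) (i : ℕ)
    (hi : (n - 1 : ℝ) * (1 - qq L ℓ ^ (i + 1)) ≤ (1 - γ) * i) :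
    av (fun ω : Om n L => ind ((reach (op ω ℓ) univ {u}).card = i + 1)) ≤
      exp (-(i * γ ^ 2 / 2)) := by
  have hz : 0 < 1 + γ := by linarith
  refine (av_card_eq h (subset_univ _) hz _).trans ?_
  rw [card_singleton, card_fin, pow_one, pow_succ', div_mul_cancel_left₀ hz.ne', inv_mul_eq_div,
    div_le_iff₀ (pow_pos hz _)]
  have h2 := exp_le_pow (exp_le_one_add h0) i
  have h3 := qq_pow_le_one h (i + 1)
  have h5 := pow_le_exp (x := (1 - qq L ℓ ^ (i + 1)) * γ) (by nlinarith) (n - 1)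
  rw [Nat.cast_pred u.pos] at h5
  calc _ = _ := by congr 1; ring
    _ ≤ _ := h5
    _ ≤ exp (-(i * γ ^ 2 / 2)) * exp (i * (γ - γ ^ 2 / 2)) := by
        rw [← exp_add]; exact exp_le_exp.2 (by nlinarith)
    _ ≤ _ := by gcongr

theorem av_exp_sub (h : ℓ ≤ L) {U Y : Finset (Fin n)} (hY : Y ⊆ U) {η : ℝ} (h0 : 0 ≤ η)
    (hU : U.card * ((ℓ : ℝ) / L) ≤ 1 - η) :
    av (fun ω : Om n L => exp (η ^ 2 / 2 * (reach (op ω ℓ) U Y).card)) ≤ (1 + η) ^ Y.card := by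
  have := expl h (fun t => exp (η ^ 2 / 2 * t)) (fun t j _ => exp (η ^ 2 / 2 * t) * (1 + η) ^ j)
    U.card (fun t m _ => by simp) (fun t j m _ hm => ?_) U Y 0 hY (zero_add _)
  · simpa using this
  have h1 := bin_pow (1 - qq L ℓ ^ j) (qq L ℓ ^ j) (exp (η ^ 2 / 2 * (t + j : ℕ))) (1 + η) 1 m
  simp only [one_pow, mul_one] at h1
  rw [h1]
  have h2 := qq_pow_le_one h j
  have h3 := pow_le_exp (x := (1 - qq L ℓ ^ j) * η) (by nlinarith) m
  have h4 := exp_le_pow (exp_le_one_add h0) j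
  have h5 := one_sub_qq_pow_le h j
  have h6 : (m : ℝ) * ((ℓ : ℝ) / L) ≤ 1 - η :=
    le_trans (by gcongr; omega) hU
  have h7 : (m : ℝ) * ((1 - qq L ℓ ^ j) * η) ≤ j * ((1 - η) * η) :=
    calc _ ≤ (m : ℝ) * (j * ((ℓ : ℝ) / L) * η) := by gcongr
      _ = j * ((m * ((ℓ : ℝ) / L)) * η) := by ring
      _ ≤ _ := by gcongr
  calc _ = exp (η ^ 2 / 2 * (t + j : ℕ)) * (1 + (1 - qq L ℓ ^ j) * η) ^ m := by congr 2; ring
    _ ≤ exp (η ^ 2 / 2 * (t + j : ℕ)) * exp (m * ((1 - qq L ℓ ^ j) * η)) := by gcongr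
    _ ≤ exp (η ^ 2 / 2 * t) * exp (j * (η - η ^ 2 / 2)) := by
        rw [← exp_add, ← exp_add]; push_cast; exact exp_le_exp.2 (by nlinarith)
    _ ≤ _ := by gcongr

theorem av_tail (h : ℓ ≤ L) {U : Finset (Fin n)} {y : Fin n} (hy : y ∈ U) {η : ℝ} (h0 : 0 ≤ η)
    (hU : U.card * ((ℓ : ℝ) / L) ≤ 1 - η) (k : ℝ) :
    av (fun ω : Om n L => ind (k ≤ (reach (op ω ℓ) U {y}).card)) ≤
      (1 + η) * exp (-(η ^ 2 / 2 * k)) := by
  have h1 := av_exp_sub h (singleton_subset_iff.2 hy) h0 hU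
  rw [card_singleton, pow_one] at h1
  refine le_trans ?_ (mul_le_mul_of_nonneg_right h1 (exp_pos _).le)
  rw [← av_mul_const]
  refine av_mono fun ω => ind_le (by positivity) fun h2 => ?_
  rw [← exp_add]
  exact one_le_exp (by nlinarith [sq_nonneg η])

theorem av_sq (h : ℓ ≤ L) {U : Finset (Fin n)} {y : Fin n} (hy : y ∈ U) {η : ℝ} (h0 : 0 < η)
    (hU : U.card * ((ℓ : ℝ) / L) ≤ 1 - η) :
    av (fun ω : Om n L => ((reach (op ω ℓ) U {y}).card : ℝ) ^ 2) ≤ 8 / η ^ 3 := by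
  have h1 := av_exp_sub h (singleton_subset_iff.2 hy) h0.le hU
  rw [card_singleton, pow_one] at h1
  calc _ ≤ av (fun ω : Om n L => 8 / η ^ 4 *
        (exp (η ^ 2 / 2 * (reach (op ω ℓ) U {y}).card) - 1)) := av_mono fun ω => by
        have h2 : 0 ≤ η ^ 2 / 2 * ((reach (op ω ℓ) U {y}).card : ℝ) := by positivity
        have h3 := quadratic_le_exp_of_nonneg h2
        rw [div_mul_eq_mul_div, le_div_iff₀ (by positivity)]
        nlinarith
    _ ≤ 8 / η ^ 4 * (1 + η - 1) := by rw [av_const_mul, av_sub, av_const]; gcongr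
    _ = _ := by field_simp; ring

theorem av_exp_small (h : ℓ ≤ L) {U : Finset (Fin n)} {y : Fin n} (hy : y ∈ U) {η γ : ℝ}
    (h0 : 0 < η) (hU : U.card * ((ℓ : ℝ) / L) ≤ 1 - η) (h1 : 0 ≤ γ) (h2 : γ ≤ η ^ 2 / 2) :
    av (fun ω : Om n L => exp (γ * (reach (op ω ℓ) U {y}).card)) ≤ 1 + 2 * γ / η := by
  have h3 := av_exp_sub h (singleton_subset_iff.2 hy) h0.le hU
  rw [card_singleton, pow_one] at h3
  have h4 : 0 < η ^ 2 / 2 := by positivity
  have h5 : 0 ≤ γ / (η ^ 2 / 2) := by positivity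
  calc _ ≤ av (fun ω : Om n L => (1 - γ / (η ^ 2 / 2)) + γ / (η ^ 2 / 2) *
        exp (η ^ 2 / 2 * (reach (op ω ℓ) U {y}).card)) := av_mono fun ω => by
        have := convexOn_exp.2 (Set.mem_univ 0)
          (Set.mem_univ (η ^ 2 / 2 * ((reach (op ω ℓ) U {y}).card : ℝ)))
          (sub_nonneg.2 ((div_le_one h4).2 h2)) h5 (sub_add_cancel _ _)
        simp only [smul_eq_mul, mul_zero, zero_add, exp_zero, mul_one] at this
        rwa [← mul_assoc, div_mul_cancel₀ _ h4.ne'] at this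
    _ ≤ (1 - γ / (η ^ 2 / 2)) + γ / (η ^ 2 / 2) * (1 + η) := by
        rw [av_add, av_const, av_const_mul]; gcongr
    _ = _ := by field_simp; ring

theorem av_rf {ℓ' : ℕ} (h1 : ℓ' ≤ ℓ) (h : ℓ < L) (R : Finset (Fin n)) (y : ℝ) :
    av (fun ω : Om n L => ind (Ge ω R Rᶜ ℓ') *
      (1 + y / qq L ℓ ^ (reach (op ω ℓ) univ R).card) ^ (n - (reach (op ω ℓ) univ R).card)) ≤
      (qq L ℓ' ^ R.card + y) ^ (n - R.card) := by
  have hq : qq L ℓ ≠ 0 := by
    have : (0 : ℝ) < L := Nat.cast_pos.2 (NeZero.pos L)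
    rw [qq, sub_ne_zero, ne_comm, Ne, div_eq_one_iff_eq this.ne']
    exact_mod_cast h.ne
  have hr : R.card ≤ n := by simpa using card_le_univ R
  have := struck h1 h.le (subset_univ R) (φ := fun T => (1 + y / qq L ℓ ^ T) ^ (n - T))
    (f := fun k => 1 * (1 ^ k * (1 + y / qq L ℓ ^ R.card) ^ (n - R.card - k))) fun Y hY => by
      have := expl h.le (fun T => (1 + y / qq L ℓ ^ T) ^ (n - T))
        (fun t _ m => (1 + y / qq L ℓ ^ t) ^ m) n (fun t m hm => by rw [← hm]; simp)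
        (fun t j m _ _ => ?_) (univ \ R) Y R.card hY (by rw [card_univ_sdiff, Fintype.card_fin]; omega)
      · simpa [card_univ_sdiff] using this
      have h2 := bin_pow (1 - qq L ℓ ^ j) (qq L ℓ ^ j) 1 1 (1 + y / qq L ℓ ^ (t + j)) m
      simp only [one_pow, one_mul] at h2
      rw [h2]
      refine le_of_eq ?_
      congr 1
      rw [pow_add]
      field_simp
      ring
  rw [card_fin, bin_pow, one_mul] at this
  refine this.trans_eq ?_
  congr 1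
  field_simp
  ring

end

end Pool.Agent.P.MP_5fda20_pr
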