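import Pool.Agent.P.MP_5fda20_pr.Num

/-! Urns with prescribed step sizes. -/

namespace Pool.Agent.P.MP_5fda20_pr

open Finset Real

noncomputable section

/-- Expected value of `φ` after `k` steps of the urn with total sizes `c ℓ, c (ℓ + 1), …`. -/
def hh (φ : ℕ → ℝ) (c : ℕ → ℕ) : ℕ → ℕ → ℕ → ℝ
  | 0, _, a => φ a
  | k + 1, ℓ, a => (a : ℝ) / c ℓ * hh φ c k (ℓ + 1) (a + (c (ℓ + 1) - c ℓ)) +
      (1 - (a : ℝ) / c ℓ) * hh φ c k (ℓ + 1) a

/-- Relative step size. -/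
def sg (c : ℕ → ℕ) (i : ℕ) : ℝ := ((c (i + 1) : ℝ) - c i) / c i

/-- The clock. -/
def clk (c : ℕ → ℕ) (ℓ L : ℕ) : ℝ := ∑ i ∈ Ico ℓ L, sg c i ^ 2

variable {φ : ℕ → ℝ} {c c' : ℕ → ℕ} {k ℓ L a : ℕ}

theorem clk_nonneg : 0 ≤ clk c ℓ L := sum_nonneg fun _ _ => sq_nonneg _

theorem clk_succ (h : ℓ < L) : clk c ℓ L = sg c ℓ ^ 2 + clk c (ℓ + 1) L :=
  sum_eq_sum_Ico_succ_bot h _

theorem clk_self : clk c L L = 0 := by simp [clk]

theorem clk_add {ℓ' : ℕ} (h1 : ℓ ≤ ℓ') (h2 : ℓ' ≤ L) : clk c ℓ L = clk c ℓ ℓ' + clk c ℓ' L :=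
  (sum_Ico_consecutive _ h1 h2).symm

theorem clk_congr (h : ∀ i, ℓ ≤ i → c i = c' i) : clk c ℓ L = clk c' ℓ L :=
  sum_congr rfl fun i hi => by
    rw [sg, sg, h i (mem_Ico.1 hi).1, h (i + 1) ((mem_Ico.1 hi).1.trans i.le_succ)]

theorem hh_congr (h : ∀ i, ℓ ≤ i → c i = c' i) : hh φ c k ℓ a = hh φ c' k ℓ a := by
  induction k generalizing ℓ a with
  | zero => rfl
  | succ k ih =>
    simp only [hh, h ℓ le_rfl, h (ℓ + 1) ℓ.le_succ, ih fun i hi => h i (ℓ.le_succ.trans hi)]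

theorem hh_mem (h0 : ∀ a, 0 ≤ φ a ∧ φ a ≤ 1) (hc : Monotone c) (ha : a ≤ c ℓ) :
    0 ≤ hh φ c k ℓ a ∧ hh φ c k ℓ a ≤ 1 := by
  induction k generalizing ℓ a with
  | zero => exact h0 a
  | succ k ih =>
    have h1 := hc ℓ.le_succ
    have h2 := ih (ℓ := ℓ + 1) (a := a + (c (ℓ + 1) - c ℓ)) (by simp only [Nat.succ_eq_add_one] at h1; omega)
    have h3 := ih (ℓ := ℓ + 1) (ha.trans h1)
    have h4 : 0 ≤ (a : ℝ) / c ℓ := by positivity
    have h5 : (a : ℝ) / c ℓ ≤ 1 := div_le_one_of_le₀ (by exact_mod_cast ha) (by positivity)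
    rw [hh]
    constructor <;> nlinarith [h2.1, h2.2, h3.1, h3.2]

open MeasureTheory ProbabilityTheory in
theorem hoeff {f : ℝ} (h0 : 0 ≤ f) (h1 : f ≤ 1) (u : ℝ) :
    f * exp (u * (1 - f)) + (1 - f) * exp (u * -f) ≤ exp (u ^ 2 / 8) := by
  let μ : Measure ℝ := ENNReal.ofReal f • Measure.dirac (1 - f) +
    ENNReal.ofReal (1 - f) • Measure.dirac (-f)
  have hi : ∀ g : ℝ → ℝ, ∫ x, g x ∂μ = f * g (1 - f) + (1 - f) * g (-f) := fun g => by
    rw [integral_add_measure ((integrable_dirac (by simp)).smul_measure ENNReal.ofReal_ne_top)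
      ((integrable_dirac (by simp)).smul_measure ENNReal.ofReal_ne_top), integral_smul_measure,
      integral_smul_measure, integral_dirac, integral_dirac, ENNReal.toReal_ofReal h0,
      ENNReal.toReal_ofReal (by linarith), smul_eq_mul, smul_eq_mul]
  have : IsProbabilityMeasure μ := ⟨by
    simp only [μ, Measure.add_apply, Measure.smul_apply, measure_univ, smul_eq_mul, mul_one]
    rw [← ENNReal.ofReal_add h0 (by linarith)]; simp⟩
  have := (hasSubgaussianMGF_of_mem_Icc_of_integral_eq_zero (μ := μ) (X := id) (a := -f)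
    (b := 1 - f) aemeasurable_id ?_ (by rw [hi]; simp only [id]; ring)).mgf_le u
  · rw [mgf, hi] at this
    refine this.trans_eq ?_
    congr 1
    simp
    ring
  · rw [ae_add_measure_iff]
    exact ⟨Measure.ae_smul_measure (by simp) _, Measure.ae_smul_measure (by simp) _⟩

theorem gs_step {f ρ V θ : ℝ} (h0 : 0 ≤ f) (h1 : f ≤ 1) (hV : 0 < V) (hθ : 0 < θ)
    (hθ' : θ ≤ 1 / 10) (hβ : ρ ^ 2 / (4 * V) ≤ θ) (hV' : V ≤ θ ^ 2) :
    f * exp (-(((1 - ρ) * (f - 1 / 2) + ρ / 2) ^ 2 / (2 * V))) +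
      (1 - f) * exp (-(((1 - ρ) * (f - 1 / 2) - ρ / 2) ^ 2 / (2 * V))) ≤
    exp ((1 / 2 - 5 * θ) * log (1 - ρ ^ 2 / (4 * V) * (1 + θ))) *
      exp (-((f - 1 / 2) ^ 2 / (2 * (V / (1 - ρ ^ 2 / (4 * V) * (1 + θ)))))) := by
  obtain ⟨x, rfl⟩ : ∃ x, f = x + 1 / 2 := ⟨f - 1 / 2, by ring⟩
  rw [add_sub_cancel_right]
  obtain ⟨β, hb⟩ : ∃ β, β = ρ ^ 2 / (4 * V) := ⟨_, rfl⟩
  have hβ0 : 0 ≤ β := by rw [hb]; positivity
  rw [← hb] at hβ ⊢
  have h2 := hoeff h0 h1 (-(x * ρ / V))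
  have h3 : β * (1 + θ) ≤ 11 / 10 * θ := by nlinarith
  have h4 : -(β * (1 + θ) + (β * (1 + θ)) ^ 2) ≤ log (1 - β * (1 + θ)) :=
    (le_log_iff_exp_le (by linarith)).2 (exp_le_one_sub (by positivity) (by linarith))
  set E := -(x ^ 2 / (2 * V)) - β / 2 + 2 * β * |x|
  have h5 : ∀ D : ℝ, 1 / 4 - |x| ≤ D ^ 2 →
      exp (-((x + ρ * D) ^ 2 / (2 * V))) ≤ exp E * exp (-(x * ρ / V) * D) := fun D hD => by
    rw [← exp_add]
    refine exp_le_exp.2 ?_
    have : -((x + ρ * D) ^ 2 / (2 * V)) = -(x ^ 2 / (2 * V)) - 2 * β * D ^ 2 - x * ρ / V * D := by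
      rw [hb]; field_simp; ring
    rw [this]
    simp only [E]
    nlinarith [mul_le_mul_of_nonneg_left hD hβ0]
  have h6 := h5 (1 - (x + 1 / 2)) (by nlinarith [le_abs_self x, sq_nonneg x])
  have h7 := h5 (-(x + 1 / 2)) (by nlinarith [neg_abs_le x, sq_nonneg x])
  calc _ ≤ (x + 1 / 2) * (exp E * exp (-(x * ρ / V) * (1 - (x + 1 / 2)))) +
        (1 - (x + 1 / 2)) * (exp E * exp (-(x * ρ / V) * -(x + 1 / 2))) := by
        refine add_le_add (mul_le_mul_of_nonneg_left (le_trans (le_of_eq ?_) h6) h0)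
          (mul_le_mul_of_nonneg_left (le_trans (le_of_eq ?_) h7) (by linarith)) <;> congr 3 <;> ring
    _ ≤ exp E * exp ((-(x * ρ / V)) ^ 2 / 8) := by nlinarith [exp_pos E]
    _ ≤ _ := by
        rw [← exp_add, ← exp_add]
        refine exp_le_exp.2 ?_
        have e1 : (-(x * ρ / V)) ^ 2 / 8 = β * (x ^ 2 / (2 * V)) := by rw [hb]; field_simp; ring
        have e2 : x ^ 2 / (2 * (V / (1 - β * (1 + θ)))) = (1 - β * (1 + θ)) * (x ^ 2 / (2 * V)) := by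
          have : 1 - β * (1 + θ) ≠ 0 := by linarith
          field_simp
        have e3 : 2 * |x| - θ * (x ^ 2 / (2 * V)) ≤ 2 * θ := by
          rw [← sq_abs x, sub_le_iff_le_add, ← mul_div_assoc, ← sub_le_iff_le_add',
            le_div_iff₀ (by positivity)]
          have : 0 ≤ θ * (θ * |x| - 2 * V) ^ 2 + 4 * θ * V * (θ ^ 2 - V) := by
            have := sub_nonneg.2 hV'; positivity
          nlinarith [mul_pos hθ hθ]
        have e4 : (1 / 2 - 5 * θ) * ((1 + θ) * (1 + β * (1 + θ))) ≤ 1 / 2 - 2 * θ := by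
          have : (1 + θ) * (1 + β * (1 + θ)) ≤ 1 + 3 * θ := by nlinarith
          nlinarith
        rw [e1, e2]
        have e5 := mul_le_mul_of_nonneg_left h4 (show 0 ≤ 1 / 2 - 5 * θ by linarith)
        have e6 := mul_le_mul_of_nonneg_left e3 hβ0
        have e7 := mul_le_mul_of_nonneg_left e4 hβ0
        simp only [E]
        nlinarith

/-- The steps of the urn are small compared with the remaining clock. -/
def GoodL (θ W : ℝ) (c : ℕ → ℕ) (ℓ L : ℕ) : Prop :=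
  W + clk c ℓ L ≤ θ ^ 2 ∧ ∀ i, ℓ ≤ i → i < L → c i ≤ c (i + 1) ∧ c (i + 1) ≤ 2 * c i ∧
    sg c i ^ 2 ≤ 4 * θ * (W + clk c (i + 1) L / 16)

theorem gs {θ W A : ℝ} (hθ : 0 < θ) (hθ' : θ ≤ 1 / 10) (hW : 0 < W) (hA : 0 ≤ A)
    (hφ : ∀ a, φ a ≤ A * exp (-(((a : ℝ) / c L - 1 / 2) ^ 2 / (2 * W)))) (hk : ℓ + k = L)
    (h0 : 0 < c ℓ) (hG : GoodL θ W c ℓ L) :
    ∃ V, W + clk c ℓ L / 16 ≤ V ∧ V ≤ W + clk c ℓ L ∧ ∀ a ≤ c ℓ, hh φ c k ℓ a ≤
      A * exp ((1 / 2 - 5 * θ) * (log W - log V)) *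
        exp (-(((a : ℝ) / c ℓ - 1 / 2) ^ 2 / (2 * V))) := by
  induction k generalizing ℓ with
  | zero =>
    obtain rfl : ℓ = L := hk
    exact ⟨W, by simp [clk_self], by simp [clk_self], fun a _ => by simpa [hh] using hφ a⟩
  | succ k ih =>
    have hl : ℓ < L := by omega
    obtain ⟨h1, h2, h3⟩ := hG.2 ℓ le_rfl hl
    have h4 := hG.1
    rw [clk_succ hl] at h4 ⊢
    obtain ⟨V, h5, h6, h7⟩ := ih (ℓ := ℓ + 1) (by omega) (h0.trans_le h1)
      ⟨by nlinarith [sq_nonneg (sg c ℓ)], fun i hi => hG.2 i (ℓ.le_succ.trans hi)⟩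
    obtain ⟨s, hs⟩ := Nat.exists_eq_add_of_le h1
    have hC : (0 : ℝ) < c ℓ := by exact_mod_cast h0
    have hs0 : (0 : ℝ) ≤ s := s.cast_nonneg
    have hsC : (s : ℝ) ≤ c ℓ := by exact_mod_cast (show s ≤ c ℓ by omega)
    have hσ : sg c ℓ = s / c ℓ := by rw [sg, hs]; push_cast; ring
    have hV : 0 < V := by nlinarith [clk_nonneg (c := c) (ℓ := ℓ + 1) (L := L)]
    obtain ⟨ρ, hρ⟩ : ∃ ρ : ℝ, ρ = s / (c ℓ + s) := ⟨_, rfl⟩
    have r0 : 0 ≤ ρ := by rw [hρ]; positivity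
    have r1 : ρ ≤ sg c ℓ := by rw [hρ, hσ]; gcongr; linarith
    have r2 : sg c ℓ ≤ 2 * ρ := by
      rw [hρ, hσ, ← mul_div_assoc, div_le_div_iff₀ hC (by positivity)]; nlinarith
    have hβ : ρ ^ 2 / (4 * V) ≤ θ := by
      rw [div_le_iff₀ (by positivity)]; nlinarith
    have hβ0 : 0 ≤ ρ ^ 2 / (4 * V) := by positivity
    have hV' : V ≤ θ ^ 2 := by nlinarith [sq_nonneg (sg c ℓ)]
    have hb : 1 / 2 ≤ 1 - ρ ^ 2 / (4 * V) * (1 + θ) := by nlinarith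
    have e1 : V * (ρ ^ 2 / (4 * V)) = ρ ^ 2 / 4 := by field_simp
    refine ⟨V / (1 - ρ ^ 2 / (4 * V) * (1 + θ)), ?_, ?_, fun a ha => ?_⟩
    · refine le_trans (show _ ≤ V + ρ ^ 2 / 4 by nlinarith) ?_
      rw [le_div_iff₀ (by linarith)]
      nlinarith [mul_nonneg (sq_nonneg ρ) hβ0, mul_nonneg (sq_nonneg ρ) hθ.le,
        mul_nonneg (mul_nonneg (sq_nonneg ρ) hβ0) hθ.le]
    · refine le_trans (show _ ≤ V + ρ ^ 2 from ?_) (by nlinarith)
      rw [div_le_iff₀ (by linarith)]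
      nlinarith [mul_le_mul_of_nonneg_left hb (sq_nonneg ρ), mul_le_mul_of_nonneg_left hθ' (sq_nonneg ρ)]
    have f0 : 0 ≤ (a : ℝ) / c ℓ := by positivity
    have f1 : (a : ℝ) / c ℓ ≤ 1 := (div_le_one hC).2 (by exact_mod_cast ha)
    have h8 := gs_step f0 f1 hV hθ hθ' hβ hV'
    have h9 := h7 (a + s) (by omega)
    have h10 := h7 a (by omega)
    have e2 : ((a + s : ℕ) : ℝ) / c (ℓ + 1) - 1 / 2 = (1 - ρ) * (a / c ℓ - 1 / 2) + ρ / 2 := by
      rw [hs, hρ]; push_cast; field_simp; ring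
    have e3 : (a : ℝ) / c (ℓ + 1) - 1 / 2 = (1 - ρ) * (a / c ℓ - 1 / 2) - ρ / 2 := by
      rw [hs, hρ]; push_cast; field_simp; ring
    rw [e2] at h9
    rw [e3] at h10
    rw [hh, show c (ℓ + 1) - c ℓ = s by omega, log_div hV.ne' (by linarith), ← sub_add, mul_add,
      exp_add]
    have h11 := mul_le_mul_of_nonneg_left h8
      (mul_nonneg hA (exp_pos ((1 / 2 - 5 * θ) * (log W - log V))).le)
    have h12 := mul_le_mul_of_nonneg_left h9 f0
    have h13 := mul_le_mul_of_nonneg_left h10 (sub_nonneg.2 f1)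
    linarith

theorem ps_step {α C s b : ℝ} (hC : 0 < C) (hs : 0 ≤ s) (h1 : s ≤ b) (h2 : b ≤ C) :
    (1 - s / C) * (α - (s / C) ^ 2 / 4 - (b / (C + s) - 1 / 2) ^ 2) ≤
      (α - ((b - s) / C - 1 / 2) ^ 2) * ((b - s) / C) + (α - (b / C - 1 / 2) ^ 2) * (1 - b / C) := by
  obtain ⟨σ, rfl⟩ : ∃ σ, s = σ * C := ⟨s / C, by field_simp⟩
  have hσ : 0 ≤ σ := by by_contra h; nlinarith
  obtain ⟨x, rfl⟩ : ∃ x, b = (x + 1 / 2) * (1 + σ) * C :=
    ⟨b / (C + σ * C) - 1 / 2, by field_simp; ring⟩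
  have e1 : (x + 1 / 2) * (1 + σ) * C / (C + σ * C) = x + 1 / 2 := by field_simp
  have e2 : ((x + 1 / 2) * (1 + σ) * C - σ * C) / C = (x + 1 / 2) * (1 + σ) - σ := by field_simp
  rw [e1, e2, mul_div_cancel_right₀ _ hC.ne', mul_div_cancel_right₀ _ hC.ne']
  nlinarith [mul_nonneg (sq_nonneg (x * σ)) (show 0 ≤ 5 + 3 * σ by linarith)]

theorem ps {b : ℕ} (hc : Monotone c) (hb : b ≤ c L) (hk : ℓ + k = L) (h0 : 0 < c ℓ) {α : ℝ}
    (hα : α ≤ 1 / 16) (hcl : clk c ℓ L ≤ 1 / 9) :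
    (c ℓ : ℝ) / c L * (1 - clk c ℓ L) * (α - clk c ℓ L / 4 - ((b : ℝ) / c L - 1 / 2) ^ 2) ≤
      ∑ a ∈ range (c ℓ + 1), max 0 (α - ((a : ℝ) / c ℓ - 1 / 2) ^ 2) *
        hh (fun a => ind (b = a)) c k ℓ a := by
  have hφ : ∀ a, 0 ≤ ind (b = a) ∧ ind (b = a) ≤ 1 := fun a => ⟨ind_nonneg _, ind_le_one _⟩
  induction k generalizing ℓ α with
  | zero =>
    obtain rfl : ℓ = L := hk
    have hC : (c ℓ : ℝ) ≠ 0 := by exact_mod_cast h0.ne'
    simp only [hh, mul_comm _ (ind _)]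
    rw [sum_ind_eq _ (mem_range.2 (Nat.lt_succ_of_le hb)), clk_self, div_self hC]
    simp
  | succ k ih =>
    have hl : ℓ < L := by omega
    have h1 : c ℓ ≤ c (ℓ + 1) := hc ℓ.le_succ
    have hn := clk_nonneg (c := c) (ℓ := ℓ + 1) (L := L)
    rw [clk_succ hl] at hcl ⊢
    have h2 := ih (ℓ := ℓ + 1) (α := α - sg c ℓ ^ 2 / 4) (by omega) (h0.trans_le h1)
      (by nlinarith [sq_nonneg (sg c ℓ)]) (by nlinarith [sq_nonneg (sg c ℓ)])
    obtain ⟨s, hs⟩ := Nat.exists_eq_add_of_le h1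
    have hC : (0 : ℝ) < c ℓ := by exact_mod_cast h0
    have hs0 : (0 : ℝ) ≤ s := s.cast_nonneg
    have hσ : sg c ℓ = s / c ℓ := by rw [sg, hs]; push_cast; ring
    have hσ0 : 0 ≤ sg c ℓ := by rw [hσ]; positivity
    have hσ1 : sg c ℓ ≤ 1 / 3 := by nlinarith
    have hm : ∀ a ≤ c (ℓ + 1), 0 ≤ hh (fun a => ind (b = a)) c k (ℓ + 1) a := fun a ha =>
      (hh_mem hφ hc ha).1
    have f0 : ∀ a : ℕ, 0 ≤ (a : ℝ) / c ℓ := fun a => by positivity
    have f1 : ∀ a ∈ range (c ℓ + 1), 0 ≤ 1 - (a : ℝ) / c ℓ := fun a ha =>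
      sub_nonneg.2 ((div_le_one hC).2 (by exact_mod_cast Nat.lt_succ_iff.1 (mem_range.1 ha)))
    rcases le_total (α - (sg c ℓ ^ 2 + clk c (ℓ + 1) L) / 4 - ((b : ℝ) / c L - 1 / 2) ^ 2) 0 with
      h3 | h3
    · exact le_trans (mul_nonpos_of_nonneg_of_nonpos (mul_nonneg (by positivity) (by linarith)) h3)
        (sum_nonneg fun a ha => mul_nonneg (le_max_left _ _)
          (hh_mem hφ hc (Nat.lt_succ_iff.1 (mem_range.1 ha))).1)
    refine le_trans ?_ ((mul_le_mul_of_nonneg_left h2 (show 0 ≤ 1 - sg c ℓ by linarith)).trans ?_)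
    · have e1 : (c (ℓ + 1) : ℝ) = c ℓ * (1 + sg c ℓ) := by rw [hσ, hs]; push_cast; field_simp
      rw [e1, show α - sg c ℓ ^ 2 / 4 - clk c (ℓ + 1) L / 4 =
        α - (sg c ℓ ^ 2 + clk c (ℓ + 1) L) / 4 by ring, ← mul_assoc]
      refine mul_le_mul_of_nonneg_right ?_ h3
      rw [mul_div_right_comm]
      have : (0 : ℝ) ≤ (c ℓ : ℝ) / c L := by positivity
      nlinarith [mul_nonneg this (mul_nonneg (sq_nonneg (sg c ℓ)) hn)]
    set H := hh (fun a => ind (b = a)) c k (ℓ + 1)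
    set w : ℝ → ℝ := fun x => max 0 (α - (x / c ℓ - 1 / 2) ^ 2) with hw
    have w0 : ∀ x, 0 ≤ w x := fun x => le_max_left _ _
    have e2 : ∑ a ∈ range (c ℓ + 1), w a * hh (fun a => ind (b = a)) c (k + 1) ℓ a =
        ∑ a ∈ Ico s (c ℓ + 1 + s), w (a - s) * ((a - s) / c ℓ) * H a +
          ∑ a ∈ range (c ℓ + 1), w a * (1 - a / c ℓ) * H a := by
      have := sum_Ico_add' (fun a : ℕ => w (a - s) * ((a - s) / c ℓ) * H a) 0 (c ℓ + 1) s
      rw [zero_add] at this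
      rw [← this, ← range_eq_Ico, ← sum_add_distrib]
      refine sum_congr rfl fun a _ => ?_
      rw [hh, show c (ℓ + 1) - c ℓ = s by omega]
      push_cast
      rw [add_sub_cancel_right]
      ring
    refine le_trans ?_ e2.ge
    rw [mul_sum, ← sum_subset (s₁ := Ico s (c ℓ + 1))]
    · refine le_trans (sum_le_sum fun a ha => ?_) ((sum_add_distrib.trans_le (add_le_add
        (sum_le_sum_of_subset_of_nonneg (Ico_subset_Ico_right (by omega)) fun a ha _ => ?_)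
        (sum_le_sum_of_subset_of_nonneg (fun a ha => mem_range.2 (mem_Ico.1 ha).2) fun a ha _ => ?_))))
      · obtain ⟨a1, a2⟩ := mem_Ico.1 ha
        have a3 : (s : ℝ) ≤ a := by exact_mod_cast a1
        have a4 := f1 a (mem_range.2 a2)
        have a5 : 0 ≤ ((a : ℝ) - s) / c ℓ := div_nonneg (by linarith) hC.le
        rw [← add_mul, ← mul_assoc]
        refine mul_le_mul_of_nonneg_right ?_ (hm a (by omega))
        rw [mul_max_of_nonneg _ _ (show 0 ≤ 1 - sg c ℓ by linarith), mul_zero]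
        refine max_le (add_nonneg (mul_nonneg (w0 _) a5) (mul_nonneg (w0 _) a4)) ?_
        have := ps_step (α := α) hC hs0 a3 (by exact_mod_cast Nat.lt_succ_iff.1 a2)
        rw [hσ, hs, Nat.cast_add]
        exact this.trans (add_le_add (mul_le_mul_of_nonneg_right (le_max_right _ _) a5)
          (mul_le_mul_of_nonneg_right (le_max_right _ _) a4))
      · have a3 : (s : ℝ) ≤ a := by exact_mod_cast (mem_Ico.1 ha).1
        exact mul_nonneg (mul_nonneg (w0 _) (div_nonneg (by linarith) hC.le))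
          (hm a (by have := (mem_Ico.1 ha).2; omega))
      · exact mul_nonneg (mul_nonneg (w0 _) (f1 a ha)) (hm a (by have := mem_range.1 ha; omega))
    · intro a ha
      exact mem_range.2 (by have := (mem_Ico.1 ha).2; omega)
    · intro a _ ha
      have h4 : 3 * (s : ℝ) ≤ c ℓ := by rw [hσ, div_le_iff₀ hC] at hσ1; linarith
      have h5 : (0 : ℝ) < c (ℓ + 1) := by exact_mod_cast h0.trans_le h1
      have h6 : (c (ℓ + 1) : ℝ) = c ℓ + s := by exact_mod_cast hs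
      rw [max_eq_left, zero_mul, mul_zero]
      rcases lt_or_ge a s with h7 | h7
      · have : (a : ℝ) / c (ℓ + 1) ≤ 1 / 4 := by
          have : (a : ℝ) ≤ s := by exact_mod_cast h7.le
          rw [div_le_iff₀ h5]; linarith
        nlinarith [sq_nonneg (sg c ℓ)]
      · have : 3 / 4 ≤ (a : ℝ) / c (ℓ + 1) := by
          have : (c ℓ : ℝ) ≤ a := by
            exact_mod_cast (show c ℓ ≤ a by have := mt mem_Ico.2 ha; omega)
          rw [le_div_iff₀ h5]; linarith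
        nlinarith [sq_nonneg (sg c ℓ)]

end

end Pool.Agent.P.MP_5fda20_pr
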