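import Pool.Agent.P.MP_5fda20_pr.Av

/-! Sets reached through open edges. -/

namespace Pool.Agent.P.MP_5fda20_pr

open Finset

noncomputable section

variable {n : ℕ}

open Classical in
/-- The points of `U` joined to `Y` by a path of `O`-edges inside `U`. -/
def reach (O : Sym2 (Fin n) → Prop) (U Y : Finset (Fin n)) : Finset (Fin n) :=
  U.filter fun b => ∃ a ∈ Y, Relation.ReflTransGen (fun a b => a ∈ U ∧ b ∈ U ∧ O s(a, b)) a b

variable {O O' : Sym2 (Fin n) → Prop} {U U' Y Y' D : Finset (Fin n)} {a b : Fin n}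

theorem mem_reach : b ∈ reach O U Y ↔ b ∈ U ∧
    ∃ a ∈ Y, Relation.ReflTransGen (fun a b => a ∈ U ∧ b ∈ U ∧ O s(a, b)) a b := by
  classical
  unfold reach; exact mem_filter

theorem reach_sub : reach O U Y ⊆ U := fun _ h => (mem_reach.1 h).1

theorem mem_reach_of_mem (h : a ∈ Y) (hU : a ∈ U) : a ∈ reach O U Y :=
  mem_reach.2 ⟨hU, a, h, .refl⟩

theorem sub_reach (h : Y ⊆ U) : Y ⊆ reach O U Y := fun _ ha => mem_reach_of_mem ha (h ha)

theorem self_mem_reach (h : a ∈ U) : a ∈ reach O U {a} := mem_reach_of_mem (mem_singleton_self a) h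

theorem reach_closed (h : a ∈ reach O U Y) (hb : b ∈ U) (hO : O s(a, b)) : b ∈ reach O U Y := by
  obtain ⟨ha, c, hc, hp⟩ := mem_reach.1 h
  exact mem_reach.2 ⟨hb, c, hc, hp.tail ⟨ha, hb, hO⟩⟩

theorem reach_ind {P : Fin n → Prop} (h0 : ∀ a ∈ Y, a ∈ U → P a)
    (hs : ∀ a ∈ reach O U Y, ∀ b ∈ U, P a → O s(a, b) → P b) (h : a ∈ reach O U Y) : P a := by
  obtain ⟨ha, c, hc, hp⟩ := mem_reach.1 h
  clear h
  induction hp with
  | refl => exact h0 _ hc ha
  | tail h1 h2 ih =>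
    exact hs _ (mem_reach.2 ⟨h2.1, c, hc, h1⟩) _ h2.2.1 (ih h2.1) h2.2.2

theorem reach_min (h0 : Y ⊆ D) (hs : ∀ a ∈ D, ∀ b ∈ U, O s(a, b) → b ∈ D) : reach O U Y ⊆ D :=
  fun _ h => reach_ind (P := fun a => a ∈ D) (fun _ ha _ => h0 ha)
    (fun a _ b hb ha hO => hs a ha b hb hO) h

theorem reach_mono (hO : ∀ a ∈ U, ∀ b ∈ U, O s(a, b) → O' s(a, b)) (hU : U ⊆ U') (hY : Y ⊆ Y') :
    reach O U Y ⊆ reach O' U' Y' :=
  fun _ h => reach_ind (P := fun a => a ∈ reach O' U' Y')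
    (fun _ ha hu => mem_reach_of_mem (hY ha) (hU hu))
    (fun a ha b hb h1 h2 => reach_closed h1 (hU hb) (hO a (reach_sub ha) b hb h2)) h

theorem reach_congr (hO : ∀ a ∈ U, ∀ b ∈ U, O s(a, b) ↔ O' s(a, b)) :
    reach O U Y = reach O' U Y :=
  Subset.antisymm (reach_mono (fun a ha b hb => (hO a ha b hb).1) Subset.rfl Subset.rfl)
    (reach_mono (fun a ha b hb => (hO a ha b hb).2) Subset.rfl Subset.rfl)

theorem reach_reach (h : Y' ⊆ reach O U Y) : reach O U Y' ⊆ reach O U Y :=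
  reach_min h fun _ ha _ hb hO => reach_closed ha hb hO

theorem reach_empty : reach O U ∅ = ∅ :=
  subset_empty.1 (reach_min Subset.rfl fun _ ha => absurd ha (notMem_empty _))

theorem reach_symm (ha : a ∈ U) (h : b ∈ reach O U {a}) : a ∈ reach O U {b} := by
  refine reach_ind (P := fun b => a ∈ reach O U {b}) (fun c hc hu => ?_) (fun c hc d hd h1 h2 => ?_) h
  · rw [mem_singleton.1 hc]; exact self_mem_reach ha
  · refine reach_reach (singleton_subset_iff.2 ?_) h1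
    exact reach_closed (self_mem_reach hd) (reach_sub hc) (by rwa [Sym2.eq_swap])

theorem reach_eq_of_mem (ha : a ∈ U) (h : b ∈ reach O U {a}) : reach O U {b} = reach O U {a} :=
  Subset.antisymm (reach_reach (singleton_subset_iff.2 h))
    (reach_reach (singleton_subset_iff.2 (reach_symm ha h)))

theorem reach_local (h : reach O U Y ⊆ D) (hD : D ⊆ U) : reach O D Y = reach O U Y := by
  refine Subset.antisymm (reach_mono (fun _ _ _ _ h => h) hD Subset.rfl) fun c hc => ?_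
  refine reach_ind (P := fun a => a ∈ reach O D Y) (fun a ha hu => ?_) (fun a ha b hb h1 h2 => ?_) hc
  · exact mem_reach_of_mem ha (h (mem_reach_of_mem ha hu))
  · exact reach_closed h1 (h (reach_closed ha hb h2)) h2

theorem reach_eq_iff (hY : Y ⊆ D) (hD : D ⊆ U) :
    reach O U Y = D ↔ reach O D Y = D ∧ ∀ a ∈ D, ∀ b ∈ U \ D, ¬ O s(a, b) := by
  constructor
  · intro h
    refine ⟨(reach_local h.le hD).trans h, fun a ha b hb hO => ?_⟩
    rw [← h] at ha hb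
    exact (mem_sdiff.1 hb).2 (reach_closed ha (mem_sdiff.1 hb).1 hO)
  · rintro ⟨h1, h2⟩
    refine (reach_local (reach_min hY fun a ha b hb hO => ?_) hD).symm.trans h1
    by_contra h3
    exact h2 a ha b (mem_sdiff.2 ⟨hb, h3⟩) hO

open Classical in
/-- The points of `W` joined to `R` by an `O`-edge. -/
def nbr (O : Sym2 (Fin n) → Prop) (R W : Finset (Fin n)) : Finset (Fin n) := W.filter fun b => ∃ a ∈ R, O s(a, b)

theorem mem_nbr {R W : Finset (Fin n)} : b ∈ nbr O R W ↔ b ∈ W ∧ ∃ a ∈ R, O s(a, b) := by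
  classical
  unfold nbr; exact mem_filter

theorem nbr_sub {R W : Finset (Fin n)} : nbr O R W ⊆ W := fun _ h => (mem_nbr.1 h).1

theorem reach_step (hY : Y ⊆ U) : reach O U Y = Y ∪ reach O (U \ Y) (nbr O Y (U \ Y)) := by
  refine Subset.antisymm (reach_min subset_union_left fun a ha b hb hO => ?_)
    (union_subset (sub_reach hY) fun c hc => ?_)
  · by_cases hbY : b ∈ Y
    · exact mem_union_left _ hbY
    have hb' := mem_sdiff.2 ⟨hb, hbY⟩
    refine mem_union_right _ ?_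
    rcases mem_union.1 ha with ha | ha
    · exact mem_reach_of_mem (mem_nbr.2 ⟨hb', a, ha, hO⟩) hb'
    · exact reach_closed ha hb' hO
  · refine reach_reach (Y' := nbr O Y (U \ Y)) (fun b hb => ?_)
      (reach_mono (fun _ _ _ _ h => h) sdiff_subset Subset.rfl hc)
    obtain ⟨h1, a, ha, h2⟩ := mem_nbr.1 hb
    exact reach_closed (sub_reach hY ha) (mem_sdiff.1 h1).1 h2

theorem card_reach_step (hY : Y ⊆ U) :
    (reach O U Y).card = Y.card + (reach O (U \ Y) (nbr O Y (U \ Y))).card := by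
  rw [reach_step hY, card_union_of_disjoint]
  exact disjoint_left.2 fun c h1 h2 => (mem_sdiff.1 (reach_sub h2)).2 h1

theorem reach_peel (ha : a ∈ U \ reach O U Y) :
    reach O (U \ reach O U Y) {a} = reach O U {a} := by
  refine reach_local (fun c hc => mem_sdiff.2 ⟨reach_sub hc, fun h => (mem_sdiff.1 ha).2 ?_⟩)
    sdiff_subset
  exact reach_reach (singleton_subset_iff.2 h) (reach_symm (mem_sdiff.1 ha).1 hc)

/-- Edges with both ends in `U`. -/
def inn (U : Finset (Fin n)) : Set (Sym2 (Fin n)) := {e | ∀ a ∈ e, a ∈ U}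

theorem mk_mem_inn : s(a, b) ∈ inn U ↔ a ∈ U ∧ b ∈ U := by simp [inn]

theorem inn_mono (h : U ⊆ U') : inn U ⊆ inn U' := fun _ he a ha => h (he a ha)

theorem inn_disjoint (h : Disjoint U U') : Disjoint (inn U) (inn U') := by
  refine Set.disjoint_left.2 fun e h1 h2 => ?_
  induction e using Sym2.ind with
  | _ a b => exact disjoint_left.1 h (mk_mem_inn.1 h1).1 (mk_mem_inn.1 h2).1

/-- Edges from `R` to `W`. -/
def crs (R W : Finset (Fin n)) : Set (Sym2 (Fin n)) := {e | ∃ a ∈ R, ∃ b ∈ W, e = s(a, b)}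

theorem mk_mem_crs {R W : Finset (Fin n)} (ha : a ∈ R) (hb : b ∈ W) : s(a, b) ∈ crs R W :=
  ⟨a, ha, b, hb, rfl⟩

theorem crs_sub_inn {R W : Finset (Fin n)} (hR : R ⊆ U) (hW : W ⊆ U) : crs R W ⊆ inn U := by
  rintro _ ⟨a, ha, b, hb, rfl⟩; exact mk_mem_inn.2 ⟨hR ha, hW hb⟩

theorem crs_disjoint_left {R W : Finset (Fin n)} (h : Disjoint R U) : Disjoint (crs R W) (inn U) := by
  refine Set.disjoint_left.2 ?_
  rintro _ ⟨a, ha, b, hb, rfl⟩ h2
  exact disjoint_left.1 h ha (mk_mem_inn.1 h2).1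

theorem crs_disjoint_right {R W : Finset (Fin n)} (h : Disjoint W U) : Disjoint (crs R W) (inn U) := by
  refine Set.disjoint_left.2 ?_
  rintro _ ⟨a, ha, b, hb, rfl⟩ h2
  exact disjoint_left.1 h hb (mk_mem_inn.1 h2).2

/-- Weight configurations. -/
abbrev Om (n L : ℕ) := Sym2 (Fin n) → Fin L

variable {L : ℕ}

/-- Edges of weight below `ℓ`. -/
def op (ω : Om n L) (ℓ : ℕ) (e : Sym2 (Fin n)) : Prop := (ω e).val < ℓ

/-- All edges from `R` to `W` have weight at least `ℓ`. -/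
def Ge (ω : Om n L) (R W : Finset (Fin n)) (ℓ : ℕ) : Prop :=
  ∀ a ∈ R, ∀ b ∈ W, ℓ ≤ (ω s(a, b)).val

theorem dep_reach (ℓ : ℕ) (U Y : Finset (Fin n)) :
    Dep (inn U) fun ω : Om n L => reach (op ω ℓ) U Y := fun ω ω' e =>
  reach_congr fun a ha b hb => by unfold op; rw [e _ (mk_mem_inn.2 ⟨ha, hb⟩)]

theorem dep_ge (R W : Finset (Fin n)) (ℓ : ℕ) :
    Dep (crs R W) fun ω : Om n L => Ge ω R W ℓ := fun ω ω' e => by
  refine propext (forall₂_congr fun a ha => forall₂_congr fun b hb => ?_)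
  rw [e _ (mk_mem_crs ha hb)]

theorem reach_op_mono {ω : Om n L} {ℓ ℓ' : ℕ} (h : ℓ ≤ ℓ') (hU : U ⊆ U') (hY : Y ⊆ Y') :
    reach (op ω ℓ) U Y ⊆ reach (op ω ℓ') U' Y' :=
  reach_mono (fun _ _ _ _ h' => lt_of_lt_of_le h' h) hU hY

theorem reach_op_eq_iff {ω : Om n L} {ℓ : ℕ} (hY : Y ⊆ D) (hD : D ⊆ U) :
    reach (op ω ℓ) U Y = D ↔ reach (op ω ℓ) D Y = D ∧ Ge ω D (U \ D) ℓ := by
  rw [reach_eq_iff hY hD]
  simp only [op, not_lt, Ge]

theorem Ge.mono {ω : Om n L} {R W R' W' : Finset (Fin n)} {ℓ ℓ' : ℕ} (h : Ge ω R W ℓ)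
    (hR : R' ⊆ R) (hW : W' ⊆ W) (hl : ℓ' ≤ ℓ) : Ge ω R' W' ℓ' :=
  fun a ha b hb => hl.trans (h a (hR ha) b (hW hb))

end

end Pool.Agent.P.MP_5fda20_pr
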