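import Pool.Agent.P.MP_5fda20_pr.Pol

/-! Kruskal edges, the growth of a component, and the urn identity. -/

namespace Pool.Agent.P.MP_5fda20_pr

open Finset

noncomputable section

variable {n L : ℕ} {ω : Om n L} {ℓ i : ℕ} {u x y a b : Fin n} {R S D A : Finset (Fin n)}

/-- The component of `u` at level `ℓ`. -/
def cp (ω : Om n L) (ℓ : ℕ) (u : Fin n) : Finset (Fin n) := reach (op ω ℓ) univ {u}

/-- Kruskal edges. -/
def Kr (ω : Om n L) (x y : Fin n) : Prop := y ∉ cp ω (ω s(x, y)).val x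

theorem self_mem_cp : u ∈ cp ω ℓ u := self_mem_reach (mem_univ u)

theorem cp_closed (h : a ∈ cp ω ℓ u) (hO : (ω s(a, b)).val < ℓ) : b ∈ cp ω ℓ u :=
  reach_closed h (mem_univ b) hO

theorem cp_symm (h : b ∈ cp ω ℓ a) : a ∈ cp ω ℓ b := reach_symm (mem_univ a) h

theorem cp_eq (h : b ∈ cp ω ℓ a) : cp ω ℓ b = cp ω ℓ a := reach_eq_of_mem (mem_univ a) h

theorem cp_mono (h : ℓ ≤ i) : cp ω ℓ u ⊆ cp ω i u := reach_op_mono h Subset.rfl Subset.rfl

theorem cp_eq_iff (hu : u ∈ R) : cp ω ℓ u = R ↔ reach (op ω ℓ) R {u} = R ∧ Ge ω R Rᶜ ℓ :=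
  reach_op_eq_iff (singleton_subset_iff.2 hu) (subset_univ R)

theorem cp_disjoint (h : y ∉ cp ω ℓ u) : Disjoint (cp ω ℓ u) (cp ω ℓ y) :=
  disjoint_left.2 fun _ h1 h2 => h (cp_eq h1 ▸ cp_symm h2)

theorem Kr.symm (h : Kr ω x y) : Kr ω y x := fun h1 => h (by rw [Sym2.eq_swap]; exact cp_symm h1)

theorem cp_ind {P : Fin n → Prop} (h0 : P u)
    (hs : ∀ a ∈ cp ω ℓ u, ∀ b, Kr ω a b → (ω s(a, b)).val < ℓ → P a → P b) (hb : b ∈ cp ω ℓ u) :
    P b := by
  induction ℓ using Nat.strong_induction_on generalizing u b with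
  | _ ℓ ih =>
  refine reach_ind (fun a ha _ => mem_singleton.1 ha ▸ h0) (fun a ha b _ h1 h2 => ?_) hb
  by_cases h3 : Kr ω a b
  · exact hs a ha b h3 h2 h1
  · exact ih _ h2 h1 (fun c hc d h4 h5 => hs c (cp_eq ha ▸ cp_mono (le_of_lt h2) hc) d h4
      (h5.trans h2)) (not_not.1 h3)

theorem cp_top (u : Fin n) : cp ω L u = univ :=
  eq_univ_of_forall fun _ => cp_closed self_mem_cp (Fin.is_lt _)

theorem eq_of_mk_eq (hy : y ∉ R) (ha : a ∈ R) (h : s(a, b) = s(x, y)) :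
    a = x ∧ b = y := (Sym2.eq_iff.1 h).resolve_right fun h1 => hy (h1.1 ▸ ha)

theorem cp_succ (hI : Function.Injective ω) (hx : x ∈ cp ω ℓ u) (h : (ω s(x, y)).val = ℓ) :
    cp ω (ℓ + 1) u = cp ω ℓ u ∪ cp ω ℓ y := by
  have hy : y ∈ cp ω (ℓ + 1) u := cp_closed (cp_mono ℓ.le_succ hx) (by omega)
  refine Subset.antisymm (reach_min (singleton_subset_iff.2 (mem_union_left _ self_mem_cp))
    fun a ha b _ h1 => ?_) (union_subset (cp_mono ℓ.le_succ) (cp_eq hy ▸ cp_mono ℓ.le_succ))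
  rcases (Nat.lt_succ_iff.1 h1).lt_or_eq with h2 | h2
  · exact mem_union.2 ((mem_union.1 ha).imp (cp_closed · h2) (cp_closed · h2))
  · rcases Sym2.eq_iff.1 (hI (Fin.ext (h2.trans h.symm))) with ⟨-, rfl⟩ | ⟨-, rfl⟩
    · exact mem_union_right _ self_mem_cp
    · exact mem_union_left _ hx

theorem cp_succ_cases (hI : Function.Injective ω) (ℓ : ℕ) (u : Fin n) :
    cp ω (ℓ + 1) u = cp ω ℓ u ∨ ∃ y ∉ cp ω ℓ u, cp ω (ℓ + 1) u = cp ω ℓ u ∪ cp ω ℓ y := by
  by_cases h : ∃ x ∈ cp ω ℓ u, ∃ y ∉ cp ω ℓ u, (ω s(x, y)).val = ℓ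
  · obtain ⟨x, hx, y, hy, h⟩ := h
    exact Or.inr ⟨y, hy, cp_succ hI hx h⟩
  · refine Or.inl (Subset.antisymm (reach_min (singleton_subset_iff.2 self_mem_cp)
      fun a ha b _ h1 => ?_) (cp_mono ℓ.le_succ))
    by_contra h2
    rcases (Nat.lt_succ_iff.1 h1).lt_or_eq with h3 | h3
    · exact h2 (cp_closed ha h3)
    · exact h ⟨a, ha, b, h2, h3⟩

/-- Sizes of the sets grown from `R`. -/
def cs (ω : Om n L) (R : Finset (Fin n)) (i : ℕ) : ℕ := (reach (op ω i) univ R).card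

theorem cs_mono : Monotone (cs ω R) := fun _ _ h =>
  card_le_card (reach_op_mono h Subset.rfl Subset.rfl)

theorem reach_of_ge (h : Ge ω R Rᶜ ℓ) : reach (op ω ℓ) univ R = R :=
  Subset.antisymm (reach_min Subset.rfl fun a ha b _ h1 => by
    by_contra h2; exact absurd (h a ha b (mem_compl.2 h2)) (not_le.2 h1)) (sub_reach (subset_univ R))

theorem reach_eq_of_sub {R' : Finset (Fin n)} (h1 : R ⊆ R') (h2 : R' ⊆ reach (op ω ℓ) univ R)
    (h : ℓ ≤ i) : reach (op ω i) univ R' = reach (op ω i) univ R :=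
  Subset.antisymm (reach_reach (h2.trans (reach_op_mono h Subset.rfl Subset.rfl)))
    (reach_op_mono le_rfl Subset.rfl h1)

theorem reach_cp (h : ℓ ≤ i) : reach (op ω i) univ (cp ω ℓ u) = cp ω i u :=
  reach_eq_of_sub (singleton_subset_iff.2 self_mem_cp) Subset.rfl h

theorem dep_reach_out (i : ℕ) (R : Finset (Fin n)) :
    Dep (inn R)ᶜ fun ω : Om n L => reach (op ω i) univ R := by
  have h : ∀ ω ω' : Om n L, (∀ e ∈ (inn R)ᶜ, ω e = ω' e) →
      reach (op ω i) univ R ⊆ reach (op ω' i) univ R := fun ω ω' e =>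
    reach_min (sub_reach (subset_univ R)) fun a ha b hb h1 => by
      by_cases h2 : b ∈ R
      · exact mem_reach_of_mem h2 hb
      · exact reach_closed ha hb (by
          unfold op at h1 ⊢; rwa [← e _ fun h3 => h2 (mk_mem_inn.1 h3).2])
  exact fun ω ω' e => Subset.antisymm (h ω ω' e) (h ω' ω fun x hx => (e x hx).symm)

theorem dep_cs (R : Finset (Fin n)) : Dep (inn R)ᶜ fun ω : Om n L => cs ω R :=
  fun ω ω' e => funext fun i => congrArg card (dep_reach_out i R ω ω' e)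

/-- `A` meets `R` in `S` and is not crossed by Kruskal edges that are not inside `R`. -/
def Fn (ω : Om n L) (R S A : Finset (Fin n)) : Prop :=
  A ∩ R = S ∧ ∀ x y, Kr ω x y → x ∉ R ∨ y ∉ R → (x ∈ A ↔ y ∈ A)

/-- The block `D` is attached to `R` at level `ℓ` through the edge `xy`. -/
def Loc (ω : Om n L) (ℓ : ℕ) (R D : Finset (Fin n)) (x y : Fin n) : Prop :=
  reach (op ω ℓ) D {y} = D ∧ (ω s(x, y)).val = ℓ ∧ Ge ω R D ℓ

theorem Loc.ge (h : Loc ω ℓ R D x y) (hG : Ge ω (R ∪ D) (R ∪ D)ᶜ (ℓ + 1)) : Ge ω R Rᶜ ℓ :=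
  fun a ha b hb => by
    by_cases h1 : b ∈ D
    · exact h.2.2 a ha b h1
    · exact ℓ.le_succ.trans (hG a (mem_union_left _ ha) b (by simpa [h1] using hb))

theorem Loc.cp_eq (h : Loc ω ℓ R D x y) (hG : Ge ω (R ∪ D) (R ∪ D)ᶜ (ℓ + 1)) (hy : y ∈ D) :
    cp ω ℓ y = D :=
  (cp_eq_iff hy).2 ⟨h.1, fun a ha b hb => by
    by_cases h1 : b ∈ R
    · rw [Sym2.eq_swap]; exact h.2.2 b h1 a ha
    · exact ℓ.le_succ.trans (hG a (mem_union_right _ ha) b (by simpa [h1] using hb))⟩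

theorem Loc.conn (h : Loc ω ℓ R D x y) (hx : x ∈ R) (hy : y ∈ D)
    (hR : reach (op ω ℓ) R {u} = R) : reach (op ω (ℓ + 1)) (R ∪ D) {u} = R ∪ D := by
  have h1 : R ⊆ reach (op ω (ℓ + 1)) (R ∪ D) {u} :=
    hR.ge.trans (reach_op_mono ℓ.le_succ subset_union_left Subset.rfl)
  refine Subset.antisymm reach_sub (union_subset h1 (h.1.ge.trans
    ((reach_op_mono ℓ.le_succ subset_union_right Subset.rfl).trans (reach_reach
      (singleton_subset_iff.2 (reach_closed (h1 hx) (mem_union_right _ hy) ?_))))))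
  exact Nat.lt_succ_of_le h.2.1.le

theorem fn_step (hI : Function.Injective ω) (h : Loc ω ℓ R D x y)
    (hG : Ge ω (R ∪ D) (R ∪ D)ᶜ (ℓ + 1)) (hd : Disjoint R D) (hx : x ∈ R) (hy : y ∈ D) (hu : u ∈ R)
    (hR : reach (op ω ℓ) R {u} = R) (hS : S ⊆ R) :
    Fn ω R S A ↔ Fn ω (R ∪ D) (if x ∈ S then S ∪ D else S) A := by
  have c1 : cp ω ℓ u = R := (cp_eq_iff hu).2 ⟨hR, h.ge hG⟩
  have c2 := h.cp_eq hG hy
  have c3 : cp ω (ℓ + 1) u = R ∪ D := by rw [cp_succ hI (c1 ▸ hx) h.2.1, c1, c2]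
  have hD : ∀ z ∈ D, z ∉ R := fun z hz => disjoint_right.1 hd hz
  have key : A ∩ (R ∪ D) = (if x ∈ S then S ∪ D else S) ↔
      A ∩ R = S ∧ ∀ z ∈ D, (z ∈ A ↔ x ∈ S) := by
    have hS' : ∀ z ∈ S, z ∈ R := hS
    simp only [Finset.ext_iff, mem_inter, mem_union]
    split_ifs with h1
    · simp only [mem_union]; grind
    · grind
  unfold Fn
  rw [key]
  constructor
  · rintro ⟨h1, h2⟩
    refine ⟨⟨h1, fun z hz => ?_⟩, fun a b h3 h4 => h2 a b h3 (h4.imp (mt (mem_union_left _))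
      (mt (mem_union_left _)))⟩
    have h3 : Kr ω x y := by
      unfold Kr; rw [h.2.1, cp_eq (c1 ▸ hx : x ∈ cp ω ℓ u), c1]; exact hD y hy
    refine cp_ind (P := fun z => z ∈ A ↔ x ∈ S) ?_ (fun a ha b h4 _ h5 => ?_) (c2 ▸ hz)
    · rw [← h2 x y h3 (Or.inr (hD y hy)), ← h1, mem_inter, and_iff_left hx]
    · rw [← h2 a b h4 (Or.inl (hD a (c2 ▸ ha))), h5]
  · rintro ⟨⟨h1, h2⟩, h3⟩
    have h4 : ∀ a ∈ R, ∀ b ∈ D, Kr ω a b → (a ∈ A ↔ b ∈ A) := fun a ha b hb h5 => by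
      rcases (h.2.2 a ha b hb).lt_or_eq with h6 | h6
      · refine absurd (cp_mono h6 ?_) h5
        rw [cp_eq (c3 ▸ mem_union_left _ ha : a ∈ cp ω (ℓ + 1) u), c3]
        exact mem_union_right _ hb
      · rw [(eq_of_mk_eq (hD y hy) ha (hI (Fin.ext (h6.symm.trans h.2.1.symm)))).1, h2 b hb,
          ← h1, mem_inter, and_iff_left hx]
    refine ⟨h1, fun a b h5 h6 => ?_⟩
    by_cases h7 : a ∈ R ∪ D ∧ b ∈ R ∪ D
    · rcases mem_union.1 h7.1 with ha | ha <;> rcases mem_union.1 h7.2 with hb | hb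
      · exact absurd h6 (by simp [ha, hb])
      · exact h4 a ha b hb h5
      · exact (h4 b hb a ha h5.symm).symm
      · rw [h2 a ha, h2 b hb]
    · exact h3 a b h5 (not_and_or.1 h7)

theorem sum_ind_unique {κ : Type*} (s : Finset κ) (P : κ → Prop)
    (h : ∀ a ∈ s, ∀ b ∈ s, P a → P b → a = b) : ∑ k ∈ s, ind (P k) = ind (∃ k ∈ s, P k) := by
  refine le_antisymm ?_ (ind_exists_le s P)
  by_cases h1 : ∃ k ∈ s, P k
  · rw [ind_of h1]; exact sum_ind_le_one s P h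
  · rw [ind_of_not h1]; exact (sum_eq_zero fun k hk => ind_of_not fun h2 => h1 ⟨k, hk, h2⟩).le

/-- Pointed blocks outside `R`. -/
def blk (R : Finset (Fin n)) : Finset (Finset (Fin n) × Fin n) :=
  univ.filter fun q => Disjoint R q.1 ∧ q.2 ∈ q.1

theorem ind_dec (ω : Om n L) (R : Finset (Fin n)) (ℓ : ℕ) :
    ind (Function.Injective ω ∧ Ge ω R Rᶜ ℓ) = ind (Function.Injective ω ∧ Ge ω R Rᶜ (ℓ + 1)) +
      ∑ q ∈ blk R, ∑ x ∈ R, ind (Function.Injective ω ∧ Ge ω (R ∪ q.1) (R ∪ q.1)ᶜ (ℓ + 1)) *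
        ind (Loc ω ℓ R q.1 x q.2) := by
  simp only [← ind_and]
  rw [← sum_product', sum_ind_unique]
  · by_cases h1 : Function.Injective ω ∧ Ge ω R Rᶜ (ℓ + 1)
    · rw [ind_of h1, ind_of ⟨h1.1, h1.2.mono Subset.rfl Subset.rfl ℓ.le_succ⟩, ind_of_not, add_zero]
      rintro ⟨⟨⟨D, y⟩, x⟩, h2, -, h3⟩
      simp only [blk, mem_product, mem_filter] at h2
      have := h1.2 x h2.2 y (mem_compl.2 (disjoint_right.1 h2.1.2.1 h2.1.2.2))
      exact absurd h3.2.1 (by simp only; omega)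
    rw [ind_of_not h1, zero_add]
    refine ind_congr ⟨fun ⟨hI, h2⟩ => ?_, fun ⟨_, _, h2, h3⟩ => ⟨h2.1, h3.ge h2.2⟩⟩
    obtain ⟨x, hx, y, hy, h3⟩ : ∃ x ∈ R, ∃ y ∈ Rᶜ, (ω s(x, y)).val = ℓ := by
      by_contra h3
      exact h1 ⟨hI, fun a ha b hb => (h2 a ha b hb).lt_of_ne fun h4 => h3 ⟨a, ha, b, hb, h4.symm⟩⟩
    have h4 : cp ω ℓ y ⊆ Rᶜ := reach_min (singleton_subset_iff.2 hy) fun a ha b _ h4 =>
      mem_compl.2 fun h5 => absurd (h2 b h5 a ha) (by rw [Sym2.eq_swap]; exact not_le.2 h4)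
    refine ⟨((cp ω ℓ y, y), x), mem_product.2 ⟨mem_filter.2 ⟨mem_univ _,
      disjoint_right.2 fun a ha => mem_compl.1 (h4 ha), self_mem_cp⟩, hx⟩, ⟨hI, fun a ha b hb => ?_⟩,
      ((cp_eq_iff self_mem_cp).1 rfl).1, h3, h2.mono Subset.rfl h4 le_rfl⟩
    simp only [compl_union, mem_inter, mem_compl] at hb
    refine Nat.succ_le_of_lt (lt_of_le_of_ne ?_ fun h5 => ?_)
    · rcases mem_union.1 ha with ha | ha
      · exact h2 a ha b (mem_compl.2 hb.1)
      · exact not_lt.1 fun h5 => hb.2 (cp_closed ha h5)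
    · rcases Sym2.eq_iff.1 (hI (Fin.ext (h5.symm.trans h3.symm))) with ⟨-, rfl⟩ | ⟨-, rfl⟩
      · exact hb.2 self_mem_cp
      · exact hb.1 hx
  · rintro ⟨⟨D, y⟩, x⟩ h1 ⟨⟨D', y'⟩, x'⟩ h2 ⟨h3, h4⟩ ⟨h5, h6⟩
    simp only [blk, mem_product, mem_filter] at h1 h2
    obtain ⟨rfl, rfl⟩ := eq_of_mk_eq (disjoint_right.1 h2.1.2.1 h2.1.2.2) h1.2
      (h3.1 (Fin.ext (h4.2.1.trans h6.2.1.symm)))
    rw [show D = D' from (h4.cp_eq h3.2 h1.1.2.2).symm.trans (h6.cp_eq h5.2 h2.1.2.2)]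

theorem av_swap [NeZero L] (hd : Disjoint R D) {x' : Fin n} (hx : x ∈ R) (hx' : x' ∈ R) (hy : y ∈ D)
    {g Ψ : Om n L → ℝ} (hg : Dep (inn R) g) (hΨ : Dep (inn (R ∪ D))ᶜ Ψ) :
    av (fun ω => ind (Function.Injective ω ∧ Ge ω (R ∪ D) (R ∪ D)ᶜ (ℓ + 1)) *
      (g ω * ind (Loc ω ℓ R D x y)) * Ψ ω) =
    av (fun ω => ind (Function.Injective ω ∧ Ge ω (R ∪ D) (R ∪ D)ᶜ (ℓ + 1)) *
      (g ω * ind (Loc ω ℓ R D x' y)) * Ψ ω) := by
  classical
  have h0 : ∀ a ∉ R, Equiv.swap x x' a = a := fun a ha =>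
    Equiv.swap_apply_of_ne_of_ne (fun h => ha (h ▸ hx)) fun h => ha (h ▸ hx')
  have h1 : ∀ a ∈ R, Equiv.swap x x' a ∈ R := fun a ha => by
    rw [Equiv.swap_apply_def]; split_ifs <;> assumption
  let f : Sym2 (Fin n) → Sym2 (Fin n) := fun e =>
    if e ∈ crs R D then e.map (Equiv.swap x x') else e
  have f1 : ∀ a ∈ R, ∀ b ∈ D, f s(a, b) = s(Equiv.swap x x' a, b) := fun a ha b hb => by
    simp only [f, if_pos (mk_mem_crs ha hb), Sym2.map_mk, h0 b (disjoint_right.1 hd hb)]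
  have f2 : ∀ e ∉ crs R D, f e = e := fun e he => if_neg he
  have f3 : Function.Involutive f := fun e => by
    by_cases he : e ∈ crs R D
    · obtain ⟨a, ha, b, hb, rfl⟩ := he
      rw [f1 a ha b hb, f1 _ (h1 a ha) b hb, Equiv.swap_apply_self]
    · rw [f2 e he, f2 e he]
  have inv : ∀ {α : Type} {J : Set (Sym2 (Fin n))} {F : Om n L → α}, Dep J F →
      Disjoint (crs R D) J → ∀ ω, F (ω ∘ f3.toPerm) = F ω := fun hF hJ ω =>
    hF _ _ fun e he => congrArg ω (f2 e (Set.disjoint_right.1 hJ he))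
  have hs : crs R D ⊆ inn (R ∪ D) := crs_sub_inn subset_union_left subset_union_right
  rw [← av_perm f3.toPerm]
  refine av_congr fun ω => ?_
  rw [inv hg (crs_disjoint_right hd.symm), inv hΨ (Set.disjoint_compl_right_iff_subset.2 hs),
    inv (dep_ge (R ∪ D) (R ∪ D)ᶜ (ℓ + 1))
      ((crs_disjoint_right disjoint_compl_left).symm.mono_left hs),
    (f3.toPerm f).injective_comp]
  refine congrArg (fun t => _ * (g ω * t) * Ψ ω) (ind_congr ?_)
  unfold Loc
  rw [inv (dep_reach ℓ D {y}) (crs_disjoint_left hd)]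
  refine and_congr_right fun _ => and_congr ?_ ⟨fun h a ha b hb => ?_, fun h a ha b hb => ?_⟩
  · simp only [Function.comp, Function.Involutive.coe_toPerm, f1 x hx y hy, Equiv.swap_apply_left]
  · simpa only [Function.comp, Function.Involutive.coe_toPerm, f1 _ (h1 a ha) b hb,
      Equiv.swap_apply_self] using h _ (h1 a ha) b hb
  · simpa only [Function.comp, Function.Involutive.coe_toPerm, f1 a ha b hb] using h _ (h1 a ha) b hb

theorem dep_loc (hx : x ∈ R) (hy : y ∈ D) :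
    Dep (inn (R ∪ D)) fun ω : Om n L => Loc ω ℓ R D x y :=
  (((dep_reach ℓ D {y}).comp (· = D)).mono (inn_mono subset_union_right)).and
    (((Dep.apply (mk_mem_inn.2 ⟨mem_union_left _ hx, mem_union_right _ hy⟩)).comp
      fun v : Fin L => v.val = ℓ).and
      ((dep_ge R D ℓ).mono (crs_sub_inn subset_union_left subset_union_right)))

theorem mul_congr_of {P : Prop} {g s t : ℝ} (h : P → g ≠ 0 → s = t) :
    ind P * g * s = ind P * g * t := by
  rw [mul_assoc, mul_assoc]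
  refine ind_mul_congr fun hP => ?_
  by_cases hg : g = 0
  · rw [hg, zero_mul, zero_mul]
  · rw [h hP hg]

theorem polya [NeZero L] (φ : ℕ → ℝ) {k : ℕ} (hk : ℓ + k = L) (hu : u ∈ R) (hS : S ⊆ R)
    {g : Om n L → ℝ} (hg : Dep (inn R) g) (hc : ∀ ω, g ω ≠ 0 → reach (op ω ℓ) R {u} = R)
    {Θ : (ℕ → ℕ) → ℝ} (hΘ : ∀ c c', (∀ i, ℓ ≤ i → c i = c' i) → Θ c = Θ c') :
    av (fun ω => ind (Function.Injective ω ∧ Ge ω R Rᶜ ℓ) * g ω *
      (Θ (cs ω R) * ∑ A, ind (Fn ω R S A) * φ A.card)) =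
    av (fun ω => ind (Function.Injective ω ∧ Ge ω R Rᶜ ℓ) * g ω *
      (Θ (cs ω R) * hh φ (cs ω R) k ℓ S.card)) := by
  induction k generalizing ℓ R S g Θ with
  | zero =>
    refine av_congr fun ω => mul_congr_of fun h _ => ?_
    obtain rfl : R = univ := eq_univ_of_forall fun b => by
      by_contra hb
      have h1 := h.2 u hu b (mem_compl.2 hb)
      have h2 := (ω s(u, b)).is_lt
      omega
    rw [hh, ← sum_ind_eq univ (mem_univ S) fun A => φ A.card]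
    simp [Fn, eq_comm]
  | succ k ih =>
    have dec : ∀ F : Om n L → ℝ, av (fun ω => ind (Function.Injective ω ∧ Ge ω R Rᶜ ℓ) * g ω * F ω) =
        av (fun ω => ind (Function.Injective ω ∧ Ge ω R Rᶜ (ℓ + 1)) * g ω * F ω) +
        ∑ q ∈ blk R, ∑ x ∈ R, av (fun ω => ind (Function.Injective ω ∧
          Ge ω (R ∪ q.1) (R ∪ q.1)ᶜ (ℓ + 1)) * (g ω * ind (Loc ω ℓ R q.1 x q.2)) * F ω) := fun F => by
      simp only [← av_sum, ← av_add]
      refine av_congr fun ω => ?_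
      rw [ind_dec]
      simp only [add_mul, sum_mul]
      exact congrArg _ (sum_congr rfl fun _ _ => sum_congr rfl fun _ _ => by ring)
    let Θ' : (ℕ → ℕ) → ℝ := fun c => Θ (Function.update c ℓ R.card)
    have hΘ' : ∀ c c', (∀ i, ℓ + 1 ≤ i → c i = c' i) → Θ' c = Θ' c' := fun c c' h =>
      hΘ _ _ fun i hi => by
        rcases hi.eq_or_lt with rfl | hi
        · simp
        · rw [Function.update_of_ne hi.ne', Function.update_of_ne hi.ne', h i hi]
    have e1 : ∀ (ω : Om n L) (c : ℕ → ℕ), Ge ω R Rᶜ ℓ → (∀ i, ℓ + 1 ≤ i → cs ω R i = c i) →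
        Θ (cs ω R) = Θ' c := fun ω c h1 h2 => hΘ _ _ fun i hi => by
      rcases hi.eq_or_lt with rfl | hi
      · rw [Function.update_self, cs, reach_of_ge h1]
      · rw [Function.update_of_ne hi.ne', h2 i hi]
    rw [dec, dec]
    congr 1
    · have := ih (ℓ := ℓ + 1) (by omega) hu hS hg (fun ω h => Subset.antisymm reach_sub
        ((hc ω h).ge.trans (reach_op_mono ℓ.le_succ Subset.rfl Subset.rfl))) hΘ'
      refine Eq.trans (av_congr fun ω => mul_congr_of fun h _ => ?_)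
        (this.trans (av_congr fun ω => mul_congr_of fun h _ => ?_))
      · rw [e1 ω _ (h.2.mono Subset.rfl Subset.rfl ℓ.le_succ) fun _ _ => rfl]
      · have h1 := h.2.mono Subset.rfl Subset.rfl ℓ.le_succ
        rw [e1 ω _ h1 fun _ _ => rfl, hh, cs, cs, reach_of_ge h.2, reach_of_ge h1, Nat.sub_self,
          add_zero]
        ring
    refine sum_congr rfl ?_
    rintro ⟨D, y⟩ hq
    obtain ⟨hd, hy⟩ : Disjoint R D ∧ y ∈ D := (mem_filter.1 hq).2
    let T : Fin n → ℕ → ℝ := fun x b => av (fun ω => ind (Function.Injective ω ∧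
      Ge ω (R ∪ D) (R ∪ D)ᶜ (ℓ + 1)) * (g ω * ind (Loc ω ℓ R D x y)) *
      (Θ' (cs ω (R ∪ D)) * hh φ (cs ω (R ∪ D)) k (ℓ + 1) b))
    have hT : ∀ x ∈ R, ∀ b, T x b = T u b := fun x hx b => av_swap hd hx hu hy hg
      ((dep_cs (R ∪ D)).comp fun c => Θ' c * hh φ c k (ℓ + 1) b)
    have e2 : ∀ x ω, g ω * ind (Loc ω ℓ R D x y) ≠ 0 →
        reach (op ω ℓ) R {u} = R ∧ Loc ω ℓ R D x y := fun x ω h =>
      ⟨hc ω (left_ne_zero_of_mul h), by_contra fun h1 => right_ne_zero_of_mul h (ind_of_not h1)⟩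
    have e3 : ∀ x ∈ R, ∀ ω, g ω * ind (Loc ω ℓ R D x y) ≠ 0 → ∀ i, ℓ + 1 ≤ i →
        cs ω R i = cs ω (R ∪ D) i := fun x hx ω h i hi =>
      congrArg card (reach_eq_of_sub subset_union_left (((e2 x ω h).2.conn hx hy (e2 x ω h).1).ge.trans
        (reach_op_mono le_rfl (subset_univ _) (singleton_subset_iff.2 hu))) hi).symm
    have hR : (R.card : ℝ) ≠ 0 := Nat.cast_ne_zero.2 (card_ne_zero_of_mem hu)
    calc _ = ∑ x ∈ R, if x ∈ S then T u (S.card + D.card) else T u S.card := by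
          refine sum_congr rfl fun x hx => ?_
          have := ih (ℓ := ℓ + 1) (R := R ∪ D) (S := if x ∈ S then S ∪ D else S) (by omega)
            (mem_union_left _ hu) (by
              split_ifs
              · exact union_subset_union_left hS
              · exact hS.trans subset_union_left)
            ((hg.mono (inn_mono subset_union_left)).mul (dep_loc hx hy).ind)
            (fun ω h => (e2 x ω h).2.conn hx hy (e2 x ω h).1) hΘ'
          refine Eq.trans (av_congr fun ω => mul_congr_of fun h h' => ?_) (this.trans ?_)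
          · rw [e1 ω _ ((e2 x ω h').2.ge h.2) (e3 x hx ω h')]
            simp only [fn_step h.1 (e2 x ω h').2 h.2 hd hx hy hu (e2 x ω h').1 hS]
          · refine (hT x hx _).trans ?_
            split_ifs
            · rw [card_union_of_disjoint (hd.mono_left hS)]
            · rfl
      _ = ∑ x ∈ R, ((S.card : ℝ) / R.card * T u (S.card + D.card) +
            (1 - (S.card : ℝ) / R.card) * T u S.card) := by
          rw [sum_ite, sum_const, sum_const, sum_const, filter_mem_eq_inter, inter_eq_right.2 hS,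
            filter_not, filter_mem_eq_inter, inter_eq_right.2 hS, card_sdiff_of_subset hS,
            nsmul_eq_mul, nsmul_eq_mul, nsmul_eq_mul, Nat.cast_sub (card_le_card hS)]
          field_simp
      _ = _ := by
          refine sum_congr rfl fun x hx => ?_
          rw [← hT x hx, ← hT x hx, ← av_const_mul, ← av_const_mul, ← av_add]
          refine av_congr fun ω => Eq.trans (by ring) (mul_congr_of (s := Θ' (cs ω (R ∪ D)) *
            ((S.card : ℝ) / R.card * hh φ (cs ω (R ∪ D)) k (ℓ + 1) (S.card + D.card) +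
              (1 - (S.card : ℝ) / R.card) * hh φ (cs ω (R ∪ D)) k (ℓ + 1) S.card)) fun h h' => ?_)
          have h1 := (e2 x ω h').2.ge h.2
          rw [e1 ω _ h1 (e3 x hx ω h'), hh, hh_congr (e3 x hx ω h'), hh_congr (e3 x hx ω h'),
            e3 x hx ω h' _ le_rfl, cs, cs, reach_of_ge h1, reach_of_ge h.2,
            card_union_of_disjoint hd, Nat.add_sub_cancel_left]

end

end Pool.Agent.P.MP_5fda20_pr
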