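import Pool.Agent.P.MP_5fda20_pr.Clock

/-! The upper bound. -/

namespace Pool.Agent.P.MP_5fda20_pr

open Finset Real

noncomputable section

variable {n N L l m a : ℕ} {ω : Om n L} {u v x y : Fin n} {R S A : Finset (Fin n)}

/-- `uv` is the only Kruskal edge that leaves `A`. -/
def Spl (ω : Om n L) (A : Finset (Fin n)) (u v : Fin n) : Prop :=
  u ∈ A ∧ v ∉ A ∧ Kr ω u v ∧ ∀ x y, Kr ω x y → s(x, y) ≠ s(u, v) → (x ∈ A ↔ y ∈ A)

/-- There is a balanced split. -/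
def Split (ω : Om n L) : Prop := ∃ A u v, n / 2 = A.card ∧ Spl ω A u v

/-- The split of `R` seen from inside. -/
def Sp (ω : Om n L) (a : ℕ) (R S : Finset (Fin n)) (u v : Fin n) : Prop :=
  reach (op ω a) R {u} = R ∧ op ω a s(u, v) ∧ ∀ x ∈ R, ∀ y ∈ R,
    y ∉ reach (op ω (ω s(x, y)).val) R {x} → s(x, y) ≠ s(u, v) → (x ∈ S ↔ y ∈ S)

theorem dep_sp (hu : u ∈ R) (hv : v ∈ R) : Dep (inn R) fun ω : Om n L => Sp ω a R S u v :=
  fun ω ω' e => by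
    refine congrArg₂ And (congrArg (· = R) (dep_reach a R {u} ω ω' e))
      (congrArg₂ And (congrArg (fun t : Fin L => t.val < a) (e _ (mk_mem_inn.2 ⟨hu, hv⟩)))
        (propext (forall₂_congr fun x hx => forall₂_congr fun y hy => ?_)))
    rw [e _ (mk_mem_inn.2 ⟨hx, hy⟩)]
    exact iff_of_eq (congrArg (fun D => y ∉ D → _) (dep_reach _ R {x} ω ω' e))

theorem krl (h : cp ω a u = R) (hx : x ∈ R) (hy : y ∈ R) :
    y ∉ reach (op ω (ω s(x, y)).val) R {x} ↔ Kr ω x y := by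
  have h1 : cp ω a x = R := (cp_eq (h ▸ hx)).trans h
  rcases le_total (ω s(x, y)).val a with h2 | h2
  · rw [reach_local ((cp_mono h2).trans h1.le) (subset_univ R)]; rfl
  · exact iff_of_false (not_not.2 (reach_op_mono h2 Subset.rfl Subset.rfl
      (((cp_eq_iff hx).1 h1).1.ge hy))) (not_not.2 (cp_mono h2 (h1.ge hy)))

theorem Sp.ind (h : Sp ω a R S u v) (hG : Ge ω R Rᶜ a) (hu : u ∈ R) {P : Fin n → Prop}
    (h0 : P u) (h1 : P v) (hs : ∀ x ∈ R, ∀ y ∈ R, Kr ω x y → op ω a s(x, y) → s(x, y) ≠ s(u, v) →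
      P x → P y) (hx : x ∈ R) : P x := by
  have h2 : cp ω a u = R := (cp_eq_iff hu).2 ⟨h.1, hG⟩
  refine cp_ind h0 (fun x hx y h3 h4 h5 => ?_) (h2 ▸ hx)
  by_cases h6 : s(x, y) = s(u, v)
  · rcases Sym2.eq_iff.1 h6 with ⟨-, rfl⟩ | ⟨-, rfl⟩ <;> assumption
  · exact hs x (h2 ▸ hx) y (h2 ▸ cp_closed hx h4) h3 h4 h6 h5

theorem Sp.side (h : Sp ω a R S u v) (hG : Ge ω R Rᶜ a) (hu : u ∈ R) (hx : x ∈ R) (hy : y ∈ R)
    (hk : Kr ω x y) (hne : s(x, y) ≠ s(u, v)) : x ∈ S ↔ y ∈ S :=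
  h.2.2 x hx y hy ((krl ((cp_eq_iff hu).2 ⟨h.1, hG⟩) hx hy).2 hk) hne

/-- Index pairs. -/
def Idx (u v : Fin n) (q : Finset (Fin n) × Finset (Fin n)) : Prop :=
  q.2 ⊆ q.1 ∧ u ∈ q.2 ∧ v ∈ q.1 ∧ v ∉ q.2

theorem sp_unique {q q' : Finset (Fin n) × Finset (Fin n)} (h : Idx u v q) (h' : Idx u v q')
    (h1 : Ge ω q.1 q.1ᶜ a ∧ Sp ω a q.1 q.2 u v) (h2 : Ge ω q'.1 q'.1ᶜ a ∧ Sp ω a q'.1 q'.2 u v) :
    q = q' := by
  obtain ⟨R, S⟩ := q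
  obtain ⟨R', S'⟩ := q'
  obtain rfl : R = R' := ((cp_eq_iff (h.1 h.2.1)).2 ⟨h1.2.1, h1.1⟩).symm.trans
    ((cp_eq_iff (h'.1 h'.2.1)).2 ⟨h2.2.1, h2.1⟩)
  refine congrArg _ (Finset.ext fun x => ?_)
  by_cases hx : x ∈ R
  · exact h1.2.ind h1.1 (h.1 h.2.1) (P := fun x => x ∈ S ↔ x ∈ S') (iff_of_true h.2.1 h'.2.1)
      (iff_of_false h.2.2.2 h'.2.2.2) (fun x hx y hy h3 _ h4 h5 => by
        rw [← h1.2.side h1.1 (h.1 h.2.1) hx hy h3 h4, ← h2.2.side h2.1 (h.1 h.2.1) hx hy h3 h4, h5]) hx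
  · exact iff_of_false (fun h3 => hx (h.1 h3)) fun h3 => hx (h'.1 h3)

theorem goodL_congr {θ W : ℝ} {c c' : ℕ → ℕ} (h : ∀ i, a ≤ i → c i = c' i) (hG : GoodL θ W c a L) :
    GoodL θ W c' a L := by
  refine ⟨clk_congr h ▸ hG.1, fun i h1 h2 => ?_⟩
  have := hG.2 i h1 h2
  rwa [sg, h i h1, h (i + 1) (by omega), clk_congr fun j hj => h j (by omega)] at this

/-- The events of the decomposition. -/
def Ev (ω : Om n L) (l a : ℕ) (κ : ℝ) (u v : Fin n) (q : Finset (Fin n) × Finset (Fin n)) : Prop :=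
  ((Function.Injective ω ∧ Ge ω q.1 q.1ᶜ a) ∧ Sp ω a q.1 q.2 u v) ∧
    (GoodL (1 / l) (l ^ 12 / n ^ 2) (cs ω q.1) a L ∧ κ ≤ clk (cs ω q.1) a L) ∧
      ∃ A ∈ univ, Fn ω q.1 q.2 A ∧ n / 2 = A.card

theorem cs_top (hu : u ∈ R) : cs ω R L = n := by
  rw [cs, eq_univ_of_forall fun b => reach_closed (mem_reach_of_mem hu (mem_univ _)) (mem_univ b)
    (Fin.is_lt _), card_univ, Fintype.card_fin]

theorem half_sq (h : (0 : ℝ) < n) : (((n / 2 : ℕ) : ℝ) / n - 1 / 2) ^ 2 ≤ 1 / n ^ 2 := by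
  have h1 : 2 * ((n / 2 : ℕ) : ℝ) ≤ n := by exact_mod_cast Nat.mul_div_le n 2
  have h2 : (n : ℝ) ≤ 2 * ((n / 2 : ℕ) : ℝ) + 1 := by exact_mod_cast (show n ≤ 2 * (n / 2) + 1 by omega)
  rw [show ((n / 2 : ℕ) : ℝ) / n - 1 / 2 = (((n / 2 : ℕ) : ℝ) - n / 2) / n by field_simp, div_pow]
  gcongr
  nlinarith

theorem av_ev (P : Par n N L l m) (ha : a ≤ L) {κ b : ℝ} (hb : 0 ≤ b)
    {I : Finset (Finset (Fin n) × Finset (Fin n))} (hI : ∀ q ∈ I, Idx u v q)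
    (h : ∀ q ∈ I, ∀ V : ℝ, l ^ 12 / n ^ 2 ≤ V → κ / 16 ≤ V → V ≤ (1 / l) ^ 2 →
      2 * exp ((1 / 2 - 5 * (1 / l)) * (log (l ^ 12 / n ^ 2) - log V)) *
        exp (-(((q.2.card : ℝ) / q.1.card - 1 / 2) ^ 2 / (2 * V))) ≤ b) :
    av (fun ω : Om n L => ind (∃ q ∈ I, Ev ω l a κ u v q)) ≤
      b * av (fun ω : Om n L => ind (∃ q ∈ I, Ge ω q.1 q.1ᶜ a ∧ Sp ω a q.1 q.2 u v)) := by
  have := P.ne
  have n0 := P.n0
  have l9 := P.l9
  have W0 : (0 : ℝ) < l ^ 12 / n ^ 2 := by positivity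
  refine (av_mono fun ω => ind_exists_le _ _).trans ?_
  rw [← av_congr fun ω : Om n L => sum_ind_unique _ _ fun q hq q' hq' =>
    sp_unique (ω := ω) (a := a) (hI q hq) (hI q' hq'), av_sum, av_sum, mul_sum]
  refine sum_le_sum fun q hq => ?_
  obtain ⟨h1, h2, h3, h4⟩ := hI q hq
  have h5 := polya (fun i => ind (n / 2 = i)) (Nat.add_sub_cancel' ha) (h1 h2) h1
    (dep_sp (a := a) (S := q.2) (h1 h2) h3).ind
    (fun ω h => (by_contra fun h5 => h (ind_of_not h5) : Sp ω a q.1 q.2 u v).1)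
    (Θ := fun c => ind (GoodL (1 / l) (l ^ 12 / n ^ 2) c a L ∧ κ ≤ clk c a L)) fun c c' h =>
      ind_congr (and_congr ⟨goodL_congr h, goodL_congr fun i hi => (h i hi).symm⟩
        (by rw [clk_congr h]))
  refine le_trans (av_mono fun ω => ?_) (h5.le.trans ((av_mono fun ω => ?_).trans_eq
    (av_const_mul _ _)))
  · rw [Ev, ind_and, ind_and, ind_and (_ ∧ _)]
    gcongr
    exacts [mul_nonneg (ind_nonneg _) (ind_nonneg _), ind_nonneg _,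
      (ind_exists_le _ _).trans_eq (sum_congr rfl fun _ _ => ind_and _ _)]
  rw [← ind_and (_ ∧ _) (Sp ω a q.1 q.2 u v), mul_comm b]
  refine ind_mul_le (mul_nonneg (ind_nonneg _) hb) fun h6 => ?_
  rw [ind_of (And.intro h6.1.2 h6.2), one_mul]
  refine ind_mul_le hb fun h7 => ?_
  have e : cs ω q.1 a = q.1.card := by rw [cs, reach_of_ge h6.1.2]
  obtain ⟨V, v1, v2, v3⟩ := gs (φ := fun i => ind (n / 2 = i)) (A := 2) (by positivity)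
    (by rw [div_le_div_iff₀ (by linarith) (by norm_num)]; linarith) W0 (by norm_num) (fun i => by
      refine ind_le (by positivity) ?_
      rintro rfl
      rw [cs_top (h1 h2)]
      have h8 : (((n / 2 : ℕ) : ℝ) / n - 1 / 2) ^ 2 / (2 * (l ^ 12 / n ^ 2)) ≤ 1 / 2 := by
        rw [div_le_iff₀ (by positivity)]
        refine (half_sq n0).trans ?_
        rw [← mul_assoc, show (1 : ℝ) / 2 * 2 = 1 by norm_num, one_mul]
        gcongr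
        exact one_le_pow₀ P.l1
      linarith [add_one_le_exp (-((((n / 2 : ℕ) : ℝ) / n - 1 / 2) ^ 2 / (2 * (l ^ 12 / n ^ 2))))])
    (Nat.add_sub_cancel' ha) (e ▸ card_pos.2 ⟨u, h1 h2⟩) h7.1
  have c0 := clk_nonneg (c := cs ω q.1) (ℓ := a) (L := L)
  refine (v3 _ (e ▸ card_le_card h1)).trans ?_
  rw [e]
  exact h q hq V (by linarith) (by linarith [h7.2]) (v2.trans h7.1.1)

theorem Spl.side (h : Spl ω A u v) {b : ℕ} (h1 : ¬ ((ω s(u, v)).val < b ∧ u ∈ cp ω b y))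
    (hx : x ∈ cp ω b y) : x ∈ A ↔ y ∈ A :=
  cp_ind (P := fun x => x ∈ A ↔ y ∈ A) Iff.rfl (fun a ha c h2 h3 h4 => by
    rw [← h.2.2.2 a c h2 fun h5 => h1 ⟨h5 ▸ h3, ?_⟩, h4]
    rcases Sym2.eq_iff.1 h5 with ⟨rfl, -⟩ | ⟨-, rfl⟩
    exacts [ha, cp_closed ha h3]) hx

theorem Par.small (P : Par n N L l m) : l * ep N m ≤ 1 := by
  have h1 := P.l9
  refine (pow_le_one_iff_of_nonneg (mul_nonneg (by positivity) (P.e0 le_rfl).le)
    (n := 3) (by norm_num)).1 (le_of_mul_le_mul_right ?_ P.n0)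
  calc _ = (l : ℝ) ^ 3 * (ep N m ^ 3 * n) := by ring
    _ ≤ l ^ 3 * (l * l ^ 9) := by gcongr _ * ?_; exact P.e2.trans (by gcongr; linarith)
    _ = l ^ 13 := by ring
    _ ≤ _ := (P.pow_le (by norm_num)).trans_eq (one_mul _).symm

theorem Par.e20 (P : Par n N L l m) : ep N m ≤ 1 / 20 := by
  nlinarith [P.small, P.l9, P.e0 le_rfl]

theorem Par.mL (P : Par n N L l m) : m ≤ L := by
  have h1 := (div_eq_iff P.N0.ne').1 (ep_eq (N := N) (ℓ := m) (by linarith [P.e20]))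
  have : (m : ℝ) ≤ (n * N : ℕ) := by push_cast; nlinarith [P.e20, P.n9, P.N0]
  rw [P.hL]; exact_mod_cast this

theorem Par.k4 (P : Par n N L l m) : 4 * ((l : ℝ) ^ 2 / ep N m ^ 2) ≤ 5 / 8 * ep N m * n := by
  have e0 := P.e0 le_rfl
  have h1 : (l : ℝ) ^ 2 * l ≤ l ^ 9 := by rw [← pow_succ]; exact pow_le_pow_right₀ P.l1 (by norm_num)
  rw [← mul_div_assoc, div_le_iff₀ (by positivity)]
  nlinarith [P.e1, P.l9, sq_nonneg (l : ℝ)]

open Classical in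
/-- Unbalanced index pairs. -/
def I1 (u v : Fin n) : Finset (Finset (Fin n) × Finset (Fin n)) :=
  univ.filter fun q => Idx u v q ∧ 1 / 16 ≤ ((q.2.card : ℝ) / q.1.card - 1 / 2) ^ 2

open Classical in
/-- Index pairs with two large sides. -/
def I2 (k : ℝ) (u v : Fin n) : Finset (Finset (Fin n) × Finset (Fin n)) :=
  univ.filter fun q => Idx u v q ∧ k ≤ q.2.card ∧ k ≤ (q.1 \ q.2).card

theorem decomp (P : Par n N L l m) (hI : Function.Injective ω) (G : Good ω N l m) (h : Split ω) :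
    (∃ a ∈ Icc m L, ∃ u ∈ univ, ∃ v ∈ univ, ∃ q ∈ I1 u v, Ev ω l a 0 u v q) ∨
      ∃ u ∈ univ, ∃ v ∈ univ, ∃ q ∈ I2 (l ^ 2 / ep N m ^ 2) u v,
        Ev ω l m (exp (-405) / 32 / (64 * l ^ 2 * (ep N m ^ 3 * n))) u v q := by
  classical
  obtain ⟨A, u, v, hA, h⟩ := h
  have e0 := P.e0 le_rfl
  have k4 := P.k4
  have k0 : 0 < (l : ℝ) ^ 2 / ep N m ^ 2 := by have := P.l9; positivity
  have km : ∀ b, m ≤ b → (l : ℝ) ^ 2 / ep N b ^ 2 ≤ (l : ℝ) ^ 2 / ep N m ^ 2 := fun b hb => by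
    gcongr; exact ep_mono hb
  have hL : m ≤ L ∧ (ω s(u, v)).val < L ∧ (l : ℝ) ^ 2 / ep N m ^ 2 ≤ (cp ω L u).card := by
    refine ⟨P.mL, Fin.is_lt _, ?_⟩
    rw [cp_top, card_univ, Fintype.card_fin]
    nlinarith [P.e20, P.n0]
  obtain ⟨a, aL, ⟨a1, a2, a3⟩, a4⟩ : ∃ a ≤ L, (m ≤ a ∧ (ω s(u, v)).val < a ∧
      (l : ℝ) ^ 2 / ep N m ^ 2 ≤ (cp ω a u).card) ∧ ∀ b < a, ¬ (m ≤ b ∧ (ω s(u, v)).val < b ∧
      (l : ℝ) ^ 2 / ep N m ^ 2 ≤ (cp ω b u).card) := by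
    have hx : ∃ a, m ≤ a ∧ (ω s(u, v)).val < a ∧ (l : ℝ) ^ 2 / ep N m ^ 2 ≤ (cp ω a u).card := ⟨L, hL⟩
    exact ⟨Nat.find hx, Nat.find_min' hx hL, Nat.find_spec hx, fun b => Nat.find_min hx⟩
  have hv : v ∈ cp ω a u := cp_closed self_mem_cp a2
  have i1 : Idx u v (cp ω a u, A ∩ cp ω a u) := ⟨inter_subset_right,
    mem_inter.2 ⟨h.1, self_mem_cp⟩, hv, fun h1 => h.2.1 (mem_inter.1 h1).1⟩
  have c1 : ∀ i, a ≤ i → cs ω {u} i = cs ω (cp ω a u) i := fun i hi =>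
    (congrArg card (reach_cp hi)).symm
  have ev : ∀ κ, κ ≤ clk (cs ω {u}) a L → Ev ω l a κ u v (cp ω a u, A ∩ cp ω a u) := fun κ hκ => by
    obtain ⟨h1, h2⟩ := (cp_eq_iff (ω := ω) (ℓ := a) (u := u) self_mem_cp).1 rfl
    refine ⟨⟨⟨hI, h2⟩, h1, a2, fun x hx y hy h3 h4 => ?_⟩, ⟨goodL_congr c1
      (G.goodL P hI a1 ((km a a1).trans a3) aL), clk_congr c1 ▸ hκ⟩, A, mem_univ _,
      ⟨rfl, fun x y h3 h4 => h.2.2.2 x y h3 fun h5 => ?_⟩, hA⟩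
    · rw [mem_inter, mem_inter, and_iff_left hx, and_iff_left hy]
      exact h.2.2.2 x y ((krl rfl hx hy).1 h3) h4
    · rcases Sym2.eq_iff.1 h5 with ⟨rfl, rfl⟩ | ⟨rfl, rfl⟩ <;> simp [hv, self_mem_cp] at h4
  by_cases h1 : 1 / 16 ≤ (((A ∩ cp ω a u).card : ℝ) / (cp ω a u).card - 1 / 2) ^ 2
  · exact Or.inl ⟨a, mem_Icc.2 ⟨a1, aL⟩, u, mem_univ _, v, mem_univ _, _,
      mem_filter.2 ⟨mem_univ _, i1, h1⟩, ev 0 clk_nonneg⟩
  have r0 : (0 : ℝ) < (cp ω a u).card := k0.trans_le a3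
  have r1 : 4 * ((l : ℝ) ^ 2 / ep N m ^ 2) ≤ (cp ω a u).card :=
    k4.trans (le_trans (by gcongr; exact ep_mono a1) (G.lo a1 aL ((km a a1).trans a3)))
  obtain ⟨r2, r3⟩ := abs_lt.1 (abs_lt_of_sq_lt_sq ((not_le.1 h1).trans_eq
    (show _ = (1 / 4 : ℝ) ^ 2 by norm_num)) (by norm_num))
  rw [lt_sub_iff_add_lt, lt_div_iff₀ r0] at r2
  rw [sub_lt_iff_lt_add, div_lt_iff₀ r0] at r3
  have s1 : (l : ℝ) ^ 2 / ep N m ^ 2 ≤ (A ∩ cp ω a u).card := by linarith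
  have s2 : (l : ℝ) ^ 2 / ep N m ^ 2 ≤ (cp ω a u \ (A ∩ cp ω a u)).card := by
    rw [card_sdiff_of_subset inter_subset_right, Nat.cast_sub (card_le_card inter_subset_right)]
    linarith
  have s3 : ∀ {D E : Finset (Fin n)}, (l : ℝ) ^ 2 / ep N m ^ 2 ≤ D.card → D ⊆ E →
      (l : ℝ) ^ 2 / ep N m ^ 2 ≤ E.card := fun h1 h2 => h1.trans (by exact_mod_cast card_le_card h2)
  rcases a1.eq_or_lt with rfl | a5
  · exact Or.inr ⟨u, mem_univ _, v, mem_univ _, _, mem_filter.2 ⟨mem_univ _, i1, s1, s2⟩,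
      ev _ (G.clk_lo P hI le_rfl a3 P.small)⟩
  exfalso
  obtain ⟨b, rfl⟩ : ∃ b, a = b + 1 := ⟨a - 1, by omega⟩
  have b1 : m ≤ b := by omega
  rcases (Nat.lt_succ_iff.1 a2).lt_or_eq with h2 | h2
  · refine a4 b b.lt_succ_self ⟨b1, h2, ?_⟩
    rcases cp_succ_cases hI b u with h3 | ⟨y, hy, h3⟩
    · exact h3 ▸ a3
    have h4 : ∀ x ∈ cp ω b y, x ∈ A ↔ y ∈ A := fun x => h.side fun h4 => hy (cp_symm h4.2)
    rw [h3] at s1 s2
    by_cases h5 : y ∈ A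
    · refine s3 s2 fun x hx => ?_
      simp only [mem_sdiff, mem_inter, mem_union] at hx
      exact hx.1.resolve_right fun h6 => hx.2 ⟨(h4 x h6).2 h5, hx.1⟩
    · refine s3 s1 fun x hx => ?_
      simp only [mem_inter, mem_union] at hx
      exact hx.2.resolve_right fun h6 => h5 ((h4 x h6).1 hx.1)
  · rw [cp_succ hI self_mem_cp h2] at s1 s2
    refine h.2.2.1 (h2 ▸ G.mem b1 (by omega) ((km b b1).trans (s3 s1 fun x hx => ?_))
      ((km b b1).trans (s3 s2 fun x hx => ?_)))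
    · simp only [mem_inter, mem_union] at hx
      exact hx.2.resolve_right fun h6 => h.2.1 ((h.side (fun h4 => h4.1.ne h2) h6).1 hx.1)
    · simp only [mem_sdiff, mem_inter, mem_union] at hx
      exact hx.1.resolve_left fun h6 => hx.2 ⟨(h.side (fun h4 => h4.1.ne h2) h6).2 h.1, hx.1⟩

end

end Pool.Agent.P.MP_5fda20_pr
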