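import Mathlib
import Pool.Agent.P.MP_5fda20_pr.U.Asm

set_option autoImplicit false

namespace Pool.Agent.P.MP_5fda20_pr.UstGridOld

open Pool.Agent.P.MP_5fda20_pr SimpleGraph

/-- The uniform spanning tree of the n by n grid is 2-splittable with probability at least
n^(-3/4-ε) for all large n. -/
theorem result : ∀ ε : ℝ, 0 < ε → ∀ᶠ n : ℕ in Filter.atTop,
    (n : ℝ) ^ (-(3 / 4 + ε)) ≤ pUST (pathGraph n □ pathGraph n) :=
  fun _ hε => U.ust_lower hε

end Pool.Agent.P.MP_5fda20_pr.UstGridOld
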